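import Pool.Agent.Lib.MP_54b7d9_co.SP.Defs

set_option autoImplicit false

/-! States: insertion keeps linear extensions. -/

namespace Pool.Agent.Lib.MP_54b7d9_co.SP

open Classical

variable {P : Type} [PartialOrder P]

private lemma ins_perm (a : P) (m : List P) : (ins a m).Perm (a :: m) := by
  induction m generalizing a with
  | nil => simp [ins]
  | cons v s ih =>
    unfold ins
    split_ifs with h
    · exact (ih v).cons a
    · exact ((ih a).cons v).trans (List.Perm.swap a v s)

private lemma ins_isLE (m : List P) : ∀ a : P, IsLE m → IsLE (ins a m) := by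
  induction m with
  | nil =>
    intro a _
    simp [ins, IsLE]
  | cons v s ih =>
    intro a h
    unfold IsLE at h
    rw [List.pairwise_cons] at h
    obtain ⟨h1, h2⟩ := h
    unfold ins
    split_ifs with hva
    · unfold IsLE
      rw [List.pairwise_cons]
      refine ⟨?_, ih v h2⟩
      intro y hy hay
      have hy' : y = v ∨ y ∈ s := by
        have := (ins_perm v s).mem_iff.mp hy
        simpa using this
      rcases hy' with rfl | hy'
      · exact lt_asymm hva hay
      · exact h1 y hy' (hva.trans hay)
    · unfold IsLE
      rw [List.pairwise_cons]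
      refine ⟨?_, ih a h2⟩
      intro y hy hvy
      have hy' : y = a ∨ y ∈ s := by
        have := (ins_perm a s).mem_iff.mp hy
        simpa using this
      rcases hy' with rfl | hy'
      · exact hva hvy
      · exact h1 y hy' hvy

theorem ins_mem {T : Finset P} {a : P} {m : List P} (ha : a ∉ T) (hm : m ∈ LinE T) :
    ins a m ∈ LinE (insert a T) := by
  rw [mem_LinE, mem_W] at hm ⊢
  obtain ⟨⟨h1, h2⟩, h3⟩ := hm
  have hp := ins_perm a m
  refine ⟨⟨?_, ?_⟩, ins_isLE m a h3⟩
  · rw [hp.nodup_iff, List.nodup_cons]
    exact ⟨fun h => ha ((h2 a).mp h), h1⟩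
  · intro x
    rw [hp.mem_iff, List.mem_cons, Finset.mem_insert, h2]

theorem st_append (w : List P) (z : P) : st (w ++ [z]) = ins z (st w) := by
  simp [st, List.foldl_append]

theorem st_mem {T : Finset P} {w : List P} (hw : w ∈ W T) : st w ∈ LinE T := by
  induction w using List.reverseRecOn generalizing T with
  | nil =>
    rw [mem_W] at hw
    have hT : T = ∅ := by
      ext x
      have := hw.2 x
      simp only [List.not_mem_nil, false_iff] at this
      simp [this]
    subst hT
    rw [mem_LinE, mem_W]
    simp [st, IsLE]
  | append_singleton w z ih =>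
    rw [mem_W] at hw
    obtain ⟨h1, h2⟩ := hw
    have hz : z ∉ w := by
      intro h
      have := List.nodup_append.mp h1
      exact this.2.2 z h z (by simp) rfl
    have hzT : z ∈ T := (h2 z).mp (by simp)
    have hw' : w ∈ W (T.erase z) := by
      rw [mem_W]
      refine ⟨(List.nodup_append.mp h1).1, ?_⟩
      intro x
      rw [Finset.mem_erase, ← h2 x]
      simp only [List.mem_append, List.mem_singleton]
      constructor
      · intro hx
        exact ⟨fun h => hz (h ▸ hx), Or.inl hx⟩
      · rintro ⟨h3, h4 | h4⟩
        · exact h4
        · exact absurd h4 h3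
    rw [st_append]
    have := ins_mem (Finset.notMem_erase z T) (ih hw')
    rwa [Finset.insert_erase hzT] at this

theorem e_pos (T : Finset P) : 0 < e T := by
  have h : T.toList ∈ W T := by
    rw [mem_W]
    exact ⟨T.nodup_toList, fun x => Finset.mem_toList⟩
  unfold e
  rw [Nat.cast_pos, Finset.card_pos]
  exact ⟨_, st_mem h⟩

theorem e_small {T : Finset P} (h : T.card ≤ 1) : e T = 1 := by
  have h1 : (LinE T).card ≤ (W T).card := Finset.card_le_card (Finset.filter_subset _ _)
  have h2 : (W T).card = 1 := by
    rw [card_W]
    interval_cases T.card <;> rfl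
  have h3 : 0 < (LinE T).card := by
    have := e_pos T
    unfold e at this
    exact_mod_cast this
  have h4 : (LinE T).card = 1 := by omega
  unfold e
  rw [h4]
  norm_num

end Pool.Agent.Lib.MP_54b7d9_co.SP
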