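import Pool.Agent.Lib.MP_54b7d9_co.SP.A

set_option autoImplicit false

/-! Uniformity of the sorted state from the kernel identity. -/

namespace Pool.Agent.Lib.MP_54b7d9_co.SP

open Classical

variable {P : Type} [PartialOrder P]

private lemma snocW_mem {T : Finset P} {y : P} {m : List P} (hy : y ∈ T) :
    m ++ [y] ∈ W T ↔ m ∈ W (T.erase y) := by
  rw [mem_W, mem_W, List.nodup_append]
  constructor
  · rintro ⟨⟨h1, -, h2⟩, h3⟩
    have hym : y ∉ m := fun h => h2 y h y (by simp) rfl
    refine ⟨h1, ?_⟩
    intro x
    rw [Finset.mem_erase, ← h3 x, List.mem_append, List.mem_singleton]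
    constructor
    · intro hx
      exact ⟨fun h => hym (h ▸ hx), Or.inl hx⟩
    · rintro ⟨h6, h7 | h7⟩
      · exact h7
      · exact absurd h7 h6
  · rintro ⟨h2, h3⟩
    have hym : y ∉ m := fun h => (Finset.mem_erase.mp ((h3 y).mp h)).1 rfl
    refine ⟨⟨h2, by simp, ?_⟩, ?_⟩
    · intro a ha b hb hab
      rw [List.mem_singleton] at hb
      exact hym (by rw [← hb, ← hab]; exact ha)
    · intro x
      rw [List.mem_append, List.mem_singleton, h3 x, Finset.mem_erase]
      constructor
      · rintro (h | h)
        · exact h.2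
        · rw [h]; exact hy
      · intro h
        by_cases hxy : x = y
        · exact Or.inr hxy
        · exact Or.inl ⟨hxy, h⟩

/-- sums over words by the last letter -/
theorem sum_W {T : Finset P} (hT : T.Nonempty) (f : List P → ℚ) :
    ∑ w ∈ W T, f w = ∑ y ∈ T, ∑ m ∈ W (T.erase y), f (m ++ [y]) := by
  rw [Finset.sum_sigma']
  symm
  refine Finset.sum_bij (fun a _ => a.2 ++ [a.1]) ?_ ?_ ?_ ?_
  · rintro ⟨y, m⟩ ha
    rw [Finset.mem_sigma] at ha
    exact (snocW_mem ha.1).mpr ha.2
  · rintro ⟨y, m⟩ _ ⟨y', m'⟩ _ h
    have h' : m ++ [y] = m' ++ [y'] := h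
    obtain ⟨h1, h2⟩ := List.append_inj' h' rfl
    simp only [List.cons.injEq, and_true] at h2
    subst h1
    subst h2
    rfl
  · intro l hl
    have hne : l ≠ [] := by
      rintro rfl
      rw [mem_W] at hl
      obtain ⟨x, hx⟩ := hT
      have := (hl.2 x).mpr hx
      simp at this
    obtain ⟨m, y, rfl⟩ : ∃ m y, l = m ++ [y] := by
      refine ⟨l.dropLast, l.getLast hne, ?_⟩
      rw [List.dropLast_append_getLast]
    have hy : y ∈ T := by
      rw [mem_W] at hl
      exact (hl.2 y).mp (by simp)
    have h2 := (snocW_mem hy).mp hl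
    exact ⟨⟨y, m⟩, by
      rw [Finset.mem_sigma]
      exact ⟨hy, h2⟩, rfl⟩
  · intro a _
    rfl

private lemma card_filter_cast {α : Type} (s : Finset α) (p : α → Prop) [DecidablePred p] :
    ((s.filter p).card : ℚ) = ∑ x ∈ s, if p x then (1 : ℚ) else 0 := by
  rw [Finset.sum_ite, Finset.sum_const_zero, add_zero, Finset.sum_const, nsmul_eq_mul, mul_one]

private lemma unif_aux {S : Finset P} (h : Ker S) (n : ℕ) : ∀ T : Finset P, T.card = n → T ⊆ S →
    ∀ l ∈ LinE T, (((W T).filter (fun w => st w = l)).card : ℚ) =
      (T.card.factorial : ℚ) / e T := by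
  induction n with
  | zero =>
    intro T hT _ l hl
    rw [Finset.card_eq_zero] at hT
    subst hT
    have hl' : l = [] := by
      rw [mem_LinE, mem_W] at hl
      rw [List.eq_nil_iff_forall_not_mem]
      intro x hx
      have := (hl.1.2 x).mp hx
      simp at this
    subst hl'
    have h1 : (W (∅ : Finset P)).filter (fun w => st w = []) = W ∅ := by
      apply Finset.filter_true_of_mem
      intro w hw
      have : w = [] := by
        rw [mem_W] at hw
        rw [List.eq_nil_iff_forall_not_mem]
        intro x hx
        have := (hw.2 x).mp hx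
        simp at this
      rw [this]
      rfl
    rw [h1, card_W, e_small (T := (∅ : Finset P)) (by simp)]
    simp
  | succ n ih =>
    intro T hT hTS l hl
    have hne : T.Nonempty := by
      rw [← Finset.card_pos]
      omega
    rw [card_filter_cast, sum_W hne]
    have key : ∀ a ∈ T, ∑ m ∈ W (T.erase a), (if st (m ++ [a]) = l then (1 : ℚ) else 0) =
        (n.factorial : ℚ) *
        ((((LinE (T.erase a)).filter (fun m => ins a m = l)).card : ℚ) / e (T.erase a)) := by
      intro a ha
      have hc : (T.erase a).card = n := by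
        rw [Finset.card_erase_of_mem ha]
        omega
      have hs : T.erase a ⊆ S := (Finset.erase_subset _ _).trans hTS
      rw [← Finset.sum_fiberwise_of_maps_to (s := W (T.erase a)) (t := LinE (T.erase a))
        (g := st) (fun w hw => st_mem hw)]
      rw [card_filter_cast, Finset.sum_div, Finset.mul_sum]
      refine Finset.sum_congr rfl fun m hm => ?_
      have e1 : ∑ w ∈ (W (T.erase a)).filter (fun w => st w = m),
          (if st (w ++ [a]) = l then (1 : ℚ) else 0) =
          ∑ w ∈ (W (T.erase a)).filter (fun w => st w = m),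
          (if ins a m = l then (1 : ℚ) else 0) := by
        refine Finset.sum_congr rfl fun w hw => ?_
        rw [st_append, (Finset.mem_filter.mp hw).2]
      rw [e1, Finset.sum_const, nsmul_eq_mul, ih _ hc hs m hm, hc]
      ring
    rw [Finset.sum_congr rfl key, ← Finset.mul_sum, h T hTS hne l hl, hT, Nat.factorial_succ]
    push_cast
    ring

theorem unif {S : Finset P} (h : Ker S) {T : Finset P} (hT : T ⊆ S) {l : List P}
    (hl : l ∈ LinE T) :
    (((W T).filter (fun w => st w = l)).card : ℚ) = (T.card.factorial : ℚ) / e T :=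
  unif_aux h _ T rfl hT l hl

end Pool.Agent.Lib.MP_54b7d9_co.SP
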