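import Pool.Agent.Lib.MP_54b7d9_co.SP.A
import Pool.Agent.Lib.MP_54b7d9_co.SP.C1

set_option autoImplicit false

/-! Closure of the kernel identity under disjoint unions. -/

namespace Pool.Agent.Lib.MP_54b7d9_co.SP

open Classical

variable {P : Type} [PartialOrder P]

private theorem b2_nil {c v : P} {s : List P} : ins c (v :: s) =
    if v < c then c :: ins v s else v :: ins c s := by
  simp [ins]

private theorem b2_lt {c v : P} {s : List P} (h : v < c) : ins c (v :: s) = c :: ins v s := by
  rw [b2_nil, if_pos h]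

private theorem b2_nlt {c v : P} {s : List P} (h : ¬ v < c) : ins c (v :: s) = v :: ins c s := by
  rw [b2_nil, if_neg h]

private theorem b2_perm (s : List P) : ∀ c : P, (ins c s).Perm (c :: s) := by
  induction s with
  | nil => intro c; simp [ins]
  | cons v s ih =>
    intro c
    by_cases h : v < c
    · rw [b2_lt h]
      exact (ih v).cons c
    · rw [b2_nlt h]
      exact ((ih c).cons v).trans (List.Perm.swap c v s)

private theorem b2_filter {A B : Finset P} (h : Inc A B) (s : List P) :
    ∀ c ∈ A, (∀ x ∈ s, x ∈ A ∨ x ∈ B) →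
      (ins c s).filter (fun x => decide (x ∈ A)) = ins c (s.filter (fun x => decide (x ∈ A))) ∧
      (ins c s).filter (fun x => decide (x ∈ B)) = s.filter (fun x => decide (x ∈ B)) := by
  have hdis : ∀ x ∈ A, x ∉ B := fun x hx hx' => (h x hx x hx').1 le_rfl
  induction s with
  | nil =>
    intro c hc _
    have h1 : c ∉ B := hdis c hc
    simp [ins, hc, h1]
  | cons v s ih =>
    intro c hc hall
    have hall' : ∀ x ∈ s, x ∈ A ∨ x ∈ B := fun x hx => hall x (List.mem_cons_of_mem _ hx)
    have hcB : c ∉ B := hdis c hc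
    rcases hall v List.mem_cons_self with hv | hv
    · have hvB : v ∉ B := hdis v hv
      by_cases hvc : v < c
      · rw [b2_lt hvc]
        obtain ⟨i1, i2⟩ := ih v hv hall'
        rw [List.filter_cons_of_pos (by simpa using hc), List.filter_cons_of_pos (by simpa using hv),
          b2_lt hvc, List.filter_cons_of_neg (by simpa using hcB),
          List.filter_cons_of_neg (by simpa using hvB), i1, i2]
        exact ⟨rfl, rfl⟩
      · rw [b2_nlt hvc]
        obtain ⟨i1, i2⟩ := ih c hc hall'
        rw [List.filter_cons_of_pos (by simpa using hv), List.filter_cons_of_pos (by simpa using hv),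
          b2_nlt hvc, List.filter_cons_of_neg (by simpa using hvB),
          List.filter_cons_of_neg (by simpa using hvB), i1, i2]
        exact ⟨rfl, rfl⟩
    · have hvA : v ∉ A := fun hv' => hdis v hv' hv
      have hvc : ¬ v < c := fun hlt => (h c hc v hv).2 hlt.le
      rw [b2_nlt hvc]
      obtain ⟨i1, i2⟩ := ih c hc hall'
      rw [List.filter_cons_of_neg (by simpa using hvA), List.filter_cons_of_neg (by simpa using hvA),
        List.filter_cons_of_pos (by simpa using hv), List.filter_cons_of_pos (by simpa using hv),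
        i1, i2]
      exact ⟨rfl, rfl⟩

private theorem b2_last {A B : Finset P} (h : Inc A B) (s : List P) :
    ∀ c ∈ A, (∀ x ∈ s, x ∈ A ∨ x ∈ B) → ∃ m x, ins c s = m ++ [x] ∧ x ∈ A := by
  induction s with
  | nil =>
    intro c hc _
    exact ⟨[], c, by simp [ins], hc⟩
  | cons v s ih =>
    intro c hc hall
    have hall' : ∀ x ∈ s, x ∈ A ∨ x ∈ B := fun x hx => hall x (List.mem_cons_of_mem _ hx)
    by_cases hvc : v < c
    · have hv : v ∈ A := by
        rcases hall v List.mem_cons_self with hv | hv
        · exact hv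
        · exact absurd hvc.le (h c hc v hv).2
      obtain ⟨m, x, hm, hx⟩ := ih v hv hall'
      exact ⟨c :: m, x, by rw [b2_lt hvc, hm]; rfl, hx⟩
    · obtain ⟨m, x, hm, hx⟩ := ih c hc hall'
      exact ⟨v :: m, x, by rw [b2_nlt hvc, hm]; rfl, hx⟩

private theorem b2_exists {A B : Finset P} (h : Inc A B) (l : List P) :
    ∀ a ∈ A, ∀ mA : List P, (∀ x ∈ mA, x ∈ A) → (∀ x ∈ l, x ∈ A ∨ x ∈ B) →
      ins a mA = l.filter (fun x => decide (x ∈ A)) → (∃ l' x, l = l' ++ [x] ∧ x ∈ A) →
      ∃ m : List P, ins a m = l ∧ m.filter (fun x => decide (x ∈ A)) = mA := by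
  have hdis : ∀ x ∈ A, x ∉ B := fun x hx hx' => (h x hx x hx').1 le_rfl
  induction l with
  | nil =>
    intro a _ mA _ _ _ hl
    obtain ⟨l', x, h1, _⟩ := hl
    exact absurd h1.symm (by simp)
  | cons y l ih =>
    intro a ha mA hmA hall he hlast
    have hall' : ∀ x ∈ l, x ∈ A ∨ x ∈ B := fun x hx => hall x (List.mem_cons_of_mem _ hx)
    have hlast' : l ≠ [] → ∃ l' x, l = l' ++ [x] ∧ x ∈ A := by
      intro hne
      obtain ⟨l', x, h1, hx⟩ := hlast
      cases l' with
      | nil =>
        simp at h1
        exact absurd h1.2 hne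
      | cons y' l'' =>
        rw [List.cons_append] at h1
        injection h1 with h2 h3
        exact ⟨l'', x, h3, hx⟩
    by_cases hy : y ∈ A
    · rw [List.filter_cons_of_pos (by simpa using hy)] at he
      cases mA with
      | nil =>
        have h1 : [a] = y :: l.filter (fun x => decide (x ∈ A)) := by
          rw [← he]; simp [ins]
        injection h1 with h2 h3
        have hl : l = [] := by
          by_contra hne
          obtain ⟨l', x, h4, hx⟩ := hlast' hne
          have : x ∈ l.filter (fun x => decide (x ∈ A)) := by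
            rw [List.mem_filter]
            exact ⟨by rw [h4]; simp, by simpa using hx⟩
          rw [← h3] at this
          exact absurd this (by simp)
        refine ⟨[], ?_, rfl⟩
        rw [hl, ← h2]
        simp [ins]
      | cons v mA =>
        have hv : v ∈ A := hmA v List.mem_cons_self
        have hmA' : ∀ x ∈ mA, x ∈ A := fun x hx => hmA x (List.mem_cons_of_mem _ hx)
        have hne : ∀ c : P, ins c mA = l.filter (fun x => decide (x ∈ A)) → l ≠ [] := by
          intro c h1 h2
          rw [h2] at h1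
          have := (b2_perm mA c).length_eq
          rw [h1] at this
          simp at this
        by_cases hva : v < a
        · rw [b2_lt hva] at he
          injection he with h1 h2
          obtain ⟨m, h3, h4⟩ := ih v hv mA hmA' hall' h2 (hlast' (hne v h2))
          refine ⟨v :: m, ?_, ?_⟩
          · rw [b2_lt hva, h3, h1]
          · rw [List.filter_cons_of_pos (by simpa using hv), h4]
        · rw [b2_nlt hva] at he
          injection he with h1 h2
          obtain ⟨m, h3, h4⟩ := ih a ha mA hmA' hall' h2 (hlast' (hne a h2))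
          refine ⟨v :: m, ?_, ?_⟩
          · rw [b2_nlt hva, h3, h1]
          · rw [List.filter_cons_of_pos (by simpa using hv), h4]
    · have hyB : y ∈ B := (hall y List.mem_cons_self).resolve_left hy
      rw [List.filter_cons_of_neg (by simpa using hy)] at he
      have hne : l ≠ [] := by
        intro h2
        rw [h2] at he
        have := (b2_perm mA a).length_eq
        rw [he] at this
        simp at this
      obtain ⟨m, h3, h4⟩ := ih a ha mA hmA hall' he (hlast' hne)
      refine ⟨y :: m, ?_, ?_⟩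
      · rw [b2_nlt (fun hlt => (h a ha y hyB).2 hlt.le), h3]
      · rw [List.filter_cons_of_neg (by simpa using hy), h4]

private theorem b2_unique {A B : Finset P} (h : Inc A B) (m : List P) :
    ∀ a ∈ A, ∀ m' : List P, (∀ x ∈ m, x ∈ A ∨ x ∈ B) → (∀ x ∈ m', x ∈ A ∨ x ∈ B) →
      ins a m = ins a m' →
      m.filter (fun x => decide (x ∈ A)) = m'.filter (fun x => decide (x ∈ A)) → m = m' := by
  have hdis : ∀ x ∈ A, x ∉ B := fun x hx hx' => (h x hx x hx').1 le_rfl
  induction m with
  | nil =>
    intro a _ m' _ _ he _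
    have h1 := (b2_perm [] a).length_eq
    have h2 := (b2_perm m' a).length_eq
    rw [he, h2] at h1
    simp at h1
    exact h1.symm
  | cons v s ih =>
    intro a ha m' hm hm' he hf
    have hms : ∀ x ∈ s, x ∈ A ∨ x ∈ B := fun x hx => hm x (List.mem_cons_of_mem _ hx)
    cases m' with
    | nil =>
      have h1 := (b2_perm (v :: s) a).length_eq
      have h2 := (b2_perm ([] : List P) a).length_eq
      rw [he, h2] at h1
      simp at h1
    | cons v' s' =>
      have hms' : ∀ x ∈ s', x ∈ A ∨ x ∈ B := fun x hx => hm' x (List.mem_cons_of_mem _ hx)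
      by_cases hv : v ∈ A
      · by_cases hv' : v' ∈ A
        · rw [List.filter_cons_of_pos (by simpa using hv),
            List.filter_cons_of_pos (by simpa using hv')] at hf
          injection hf with h1 h2
          subst h1
          by_cases hva : v < a
          · rw [b2_lt hva, b2_lt hva] at he
            injection he with _ h3
            rw [ih v hv s' hms hms' h3 h2]
          · rw [b2_nlt hva, b2_nlt hva] at he
            injection he with _ h3
            rw [ih a ha s' hms hms' h3 h2]
        · exfalso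
          have hvB' : v' ∈ B := (hm' v' List.mem_cons_self).resolve_left hv'
          have hn : ¬ v' < a := fun hlt => (h a ha v' hvB').2 hlt.le
          rw [b2_nlt hn] at he
          by_cases hva : v < a
          · rw [b2_lt hva] at he
            injection he with h3 _
            exact hv' (h3 ▸ ha)
          · rw [b2_nlt hva] at he
            injection he with h3 _
            exact hv' (h3 ▸ hv)
      · have hvB : v ∈ B := (hm v List.mem_cons_self).resolve_left hv
        have hn : ¬ v < a := fun hlt => (h a ha v hvB).2 hlt.le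
        rw [b2_nlt hn] at he
        by_cases hv' : v' ∈ A
        · exfalso
          by_cases hva : v' < a
          · rw [b2_lt hva] at he
            injection he with h3 _
            exact hv (h3 ▸ ha)
          · rw [b2_nlt hva] at he
            injection he with h3 _
            exact hv (h3 ▸ hv')
        · have hvB' : v' ∈ B := (hm' v' List.mem_cons_self).resolve_left hv'
          have hn' : ¬ v' < a := fun hlt => (h a ha v' hvB').2 hlt.le
          rw [b2_nlt hn'] at he
          injection he with h3 h4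
          rw [List.filter_cons_of_neg (by simpa using hv),
            List.filter_cons_of_neg (by simpa using hv')] at hf
          rw [h3, ih a ha s' hms hms' h4 hf]

private theorem b2_pair {A B : Finset P} (h : Inc A B) (m : List P) :
    (∀ x ∈ m, x ∈ A ∨ x ∈ B) → IsLE (m.filter (fun x => decide (x ∈ A))) →
      IsLE (m.filter (fun x => decide (x ∈ B))) → IsLE m := by
  have hdis : ∀ x ∈ A, x ∉ B := fun x hx hx' => (h x hx x hx').1 le_rfl
  induction m with
  | nil =>
    intro _ _ _
    exact List.Pairwise.nil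
  | cons v s ih =>
    intro hall h1 h2
    have hall' : ∀ x ∈ s, x ∈ A ∨ x ∈ B := fun x hx => hall x (List.mem_cons_of_mem _ hx)
    unfold IsLE at h1 h2 ih ⊢
    rcases hall v List.mem_cons_self with hv | hv
    · have hvB : v ∉ B := hdis v hv
      rw [List.filter_cons_of_pos (by simpa using hv), List.pairwise_cons] at h1
      rw [List.filter_cons_of_neg (by simpa using hvB)] at h2
      rw [List.pairwise_cons]
      refine ⟨fun x hx => ?_, ih hall' h1.2 h2⟩
      rcases hall' x hx with hxA | hxB
      · exact h1.1 x (List.mem_filter.2 ⟨hx, by simpa using hxA⟩)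
      · exact fun hlt => (h v hv x hxB).1 hlt.le
    · have hvA : v ∉ A := fun hv' => hdis v hv' hv
      rw [List.filter_cons_of_neg (by simpa using hvA)] at h1
      rw [List.filter_cons_of_pos (by simpa using hv), List.pairwise_cons] at h2
      rw [List.pairwise_cons]
      refine ⟨fun x hx => ?_, ih hall' h1 h2.2⟩
      rcases hall' x hx with hxA | hxB
      · exact fun hlt => (h x hxA v hv).2 hlt.le
      · exact h2.1 x (List.mem_filter.2 ⟨hx, by simpa using hxB⟩)

private theorem b2_card {A B T : Finset P} (h : Inc A B) (hT : T ⊆ A ∪ B) {l : List P}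
    (hl : l ∈ LinE T) (hlast : ∃ l' x, l = l' ++ [x] ∧ x ∈ A) {a : P} (ha : a ∈ T) (haA : a ∈ A) :
    ((LinE (T.erase a)).filter (fun m => ins a m = l)).card =
      ((LinE ((T.filter (· ∈ A)).erase a)).filter
        (fun m => ins a m = l.filter (fun x => decide (x ∈ A)))).card := by
  have hAB : ∀ x ∈ T, x ∈ A ∨ x ∈ B := fun x hx => Finset.mem_union.1 (hT hx)
  obtain ⟨hlW, hlE⟩ := mem_LinE.1 hl
  obtain ⟨hlN, hlM⟩ := mem_W.1 hlW
  have hmAB : ∀ m ∈ LinE (T.erase a), ∀ x ∈ m, x ∈ A ∨ x ∈ B := by
    intro m hm x hx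
    have := (mem_W.1 (mem_LinE.1 hm).1).2 x
    exact hAB x (Finset.mem_of_mem_erase (this.1 hx))
  apply Finset.card_bij (fun m _ => m.filter (fun x => decide (x ∈ A)))
  · intro m hm
    rw [Finset.mem_filter] at hm ⊢
    obtain ⟨hm1, hm2⟩ := hm
    obtain ⟨hmW, hmE⟩ := mem_LinE.1 hm1
    obtain ⟨hmN, hmM⟩ := mem_W.1 hmW
    refine ⟨mem_LinE.2 ⟨mem_W.2 ⟨hmN.filter _, fun x => ?_⟩, ?_⟩, ?_⟩
    · rw [List.mem_filter, hmM x, Finset.mem_erase, Finset.mem_erase, Finset.mem_filter]
      simp only [decide_eq_true_eq]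
      tauto
    · exact List.Pairwise.filter _ hmE
    · rw [← hm2]
      exact ((b2_filter h m a haA (hmAB m hm1)).1).symm
  · intro m hm m' hm' heq
    rw [Finset.mem_filter] at hm hm'
    exact b2_unique h m a haA m' (hmAB m hm.1) (hmAB m' hm'.1) (hm.2.trans hm'.2.symm) heq
  · intro mA hmA
    rw [Finset.mem_filter] at hmA
    obtain ⟨hm1, hm2⟩ := hmA
    obtain ⟨hmW, hmE⟩ := mem_LinE.1 hm1
    obtain ⟨hmN, hmM⟩ := mem_W.1 hmW
    have hmA' : ∀ x ∈ mA, x ∈ A := by
      intro x hx
      have := Finset.mem_of_mem_erase ((hmM x).1 hx)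
      exact (Finset.mem_filter.1 this).2
    have hlAB : ∀ x ∈ l, x ∈ A ∨ x ∈ B := fun x hx => hAB x ((hlM x).1 hx)
    obtain ⟨m, h1, h2⟩ := b2_exists h l a haA mA hmA' hlAB hm2 hlast
    have hp : l.Perm (a :: m) := by
      rw [← h1]
      exact b2_perm m a
    have hN : (a :: m).Nodup := hp.nodup_iff.1 hlN
    rw [List.nodup_cons] at hN
    have hM : ∀ x, x ∈ m ↔ x ∈ T.erase a := by
      intro x
      rw [Finset.mem_erase, ← hlM x, hp.mem_iff, List.mem_cons]
      constructor
      · intro hx
        exact ⟨fun hxa => hN.1 (hxa ▸ hx), Or.inr hx⟩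
      · rintro ⟨hx1, hx2⟩
        exact hx2.resolve_left hx1
    have hmAB2 : ∀ x ∈ m, x ∈ A ∨ x ∈ B := fun x hx =>
      hAB x (Finset.mem_of_mem_erase ((hM x).1 hx))
    have hE : IsLE m := by
      apply b2_pair h m hmAB2
      · rw [h2]
        exact hmE
      · have := (b2_filter h m a haA hmAB2).2
        rw [← this, h1]
        exact List.Pairwise.filter _ hlE
    refine ⟨m, ?_, h2⟩
    rw [Finset.mem_filter]
    exact ⟨mem_LinE.2 ⟨mem_W.2 ⟨hN.2, hM⟩, hE⟩, h1⟩

private theorem b2_zero {A B T : Finset P} (h : Inc A B) (hT : T ⊆ A ∪ B) {l : List P}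
    (hlast : ∃ l' x, l = l' ++ [x] ∧ x ∈ A) {b : P} (hb : b ∈ T) (hbB : b ∈ B) :
    ((LinE (T.erase b)).filter (fun m => ins b m = l)).card = 0 := by
  have hdis : ∀ x ∈ A, x ∉ B := fun x hx hx' => (h x hx x hx').1 le_rfl
  have h' : Inc B A := fun x hx y hy => ⟨(h y hy x hx).2, (h y hy x hx).1⟩
  rw [Finset.card_eq_zero]
  apply Finset.eq_empty_of_forall_notMem
  intro m hm
  rw [Finset.mem_filter] at hm
  have hmAB : ∀ x ∈ m, x ∈ B ∨ x ∈ A := by
    intro x hx
    have := (mem_W.1 (mem_LinE.1 hm.1).1).2 x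
    exact (Finset.mem_union.1 (hT (Finset.mem_of_mem_erase (this.1 hx)))).symm
  obtain ⟨m', x, h1, h2⟩ := b2_last h' m b hbB hmAB
  obtain ⟨l', y, h3, h4⟩ := hlast
  rw [hm.2, h3] at h1
  have := List.append_inj' h1 rfl
  have h5 : y = x := by simpa using this.2
  exact hdis y h4 (h5 ▸ h2)

private theorem b2_main {A B T : Finset P} (hA : Ker A) (h : Inc A B) (hT : T ⊆ A ∪ B)
    {l : List P} (hl : l ∈ LinE T) (hlast : ∃ l' x, l = l' ++ [x] ∧ x ∈ A) :
    ∑ a ∈ T, (((LinE (T.erase a)).filter (fun m => ins a m = l)).card : ℚ) / e (T.erase a)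
      = T.card / e T := by
  have hdis : ∀ x ∈ A, x ∉ B := fun x hx hx' => (h x hx x hx').1 le_rfl
  have hAB : ∀ x ∈ T, x ∈ A ∨ x ∈ B := fun x hx => Finset.mem_union.1 (hT hx)
  obtain ⟨hlW, hlE⟩ := mem_LinE.1 hl
  obtain ⟨hlN, hlM⟩ := mem_W.1 hlW
  set TA := T.filter (· ∈ A) with hTA
  set TB := T.filter (· ∈ B) with hTB
  have hTAm : ∀ x, x ∈ TA ↔ x ∈ T ∧ x ∈ A := fun x => Finset.mem_filter
  have hTBm : ∀ x, x ∈ TB ↔ x ∈ T ∧ x ∈ B := fun x => Finset.mem_filter
  have hTu : T = TA ∪ TB := by
    ext x
    rw [Finset.mem_union, hTAm, hTBm]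
    constructor
    · intro hx
      rcases hAB x hx with h1 | h1
      · exact Or.inl ⟨hx, h1⟩
      · exact Or.inr ⟨hx, h1⟩
    · rintro (h1 | h1)
      · exact h1.1
      · exact h1.1
  have hTd : Disjoint TA TB := by
    rw [Finset.disjoint_left]
    intro x hx hx'
    exact hdis x ((hTAm x).1 hx).2 ((hTBm x).1 hx').2
  have hIn : Inc TA TB := fun x hx y hy => h x ((hTAm x).1 hx).2 y ((hTBm y).1 hy).2
  have hsum : ∑ a ∈ T, (((LinE (T.erase a)).filter (fun m => ins a m = l)).card : ℚ) /
      e (T.erase a) = ∑ a ∈ TA, (((LinE (T.erase a)).filter (fun m => ins a m = l)).card : ℚ) /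
      e (T.erase a) := by
    rw [eq_comm]
    apply Finset.sum_subset (Finset.filter_subset _ _)
    intro b hb hbA
    have hbB : b ∈ B := by
      rcases hAB b hb with h1 | h1
      · exact absurd ((hTAm b).2 ⟨hb, h1⟩) hbA
      · exact h1
    rw [b2_zero h hT hlast hb hbB]
    simp
  have hTAne : TA.Nonempty := by
    obtain ⟨l', x, h1, h2⟩ := hlast
    refine ⟨x, (hTAm x).2 ⟨(hlM x).1 ?_, h2⟩⟩
    rw [h1]
    simp
  have hcA : 1 ≤ TA.card := hTAne.card_pos
  have hker := hA TA (fun x hx => ((hTAm x).1 hx).2) hTAne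
    (l.filter (fun x => decide (x ∈ A))) (by
      refine mem_LinE.2 ⟨mem_W.2 ⟨hlN.filter _, fun x => ?_⟩, List.Pairwise.filter _ hlE⟩
      rw [List.mem_filter, hlM x, hTAm]
      simp)
  obtain ⟨k, hk⟩ : ∃ k, TA.card = k + 1 := ⟨TA.card - 1, by omega⟩
  have hterm : ∀ a ∈ TA, (((LinE (T.erase a)).filter (fun m => ins a m = l)).card : ℚ) /
      e (T.erase a) = (1 / ((Nat.choose (k + TB.card) k : ℚ) * e TB)) *
      ((((LinE (TA.erase a)).filter
        (fun m => ins a m = l.filter (fun x => decide (x ∈ A)))).card : ℚ) / e (TA.erase a)) := by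
    intro a ha
    obtain ⟨haT, haA⟩ := (hTAm a).1 ha
    rw [b2_card h hT hl hlast haT haA]
    have h1 : T.erase a = TA.erase a ∪ TB := by
      ext x
      rw [Finset.mem_erase, Finset.mem_union, Finset.mem_erase]
      have h2 : x ∈ T ↔ x ∈ TA ∨ x ∈ TB := by
        conv_lhs => rw [hTu]
        rw [Finset.mem_union]
      constructor
      · rintro ⟨h3, h4⟩
        rcases h2.1 h4 with h5 | h5
        · exact Or.inl ⟨h3, h5⟩
        · exact Or.inr h5
      · rintro (⟨h3, h4⟩ | h4)
        · exact ⟨h3, h2.2 (Or.inl h4)⟩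
        · refine ⟨?_, h2.2 (Or.inr h4)⟩
          rintro rfl
          exact hdis _ haA ((hTBm _).1 h4).2
    have h2 : Inc (TA.erase a) TB := fun x hx y hy => hIn x (Finset.mem_of_mem_erase hx) y hy
    have h3 : (TA.erase a).card = k := by
      rw [Finset.card_erase_of_mem ha, hk]
      rfl
    rw [h1, e_par h2, h3]
    have e1 := (e_pos (TA.erase a)).ne'
    have e2 := (e_pos TB).ne'
    have e3 : (Nat.choose (k + TB.card) k : ℚ) ≠ 0 := by
      have := Nat.choose_pos (show k ≤ k + TB.card by omega)
      exact_mod_cast this.ne'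
    field_simp
    rfl
  rw [hsum, Finset.sum_congr rfl hterm, ← Finset.mul_sum, hker]
  have hTc : T.card = k + 1 + TB.card := by
    rw [hTu, Finset.card_union_of_disjoint hTd, hk]
  have heT : e T = (Nat.choose (k + 1 + TB.card) (k + 1) : ℚ) * e TA * e TB := by
    rw [hTu, e_par hIn, hk]
  rw [heT, hTc, hk]
  have hch : (k + TB.card + 1) * Nat.choose (k + TB.card) k =
      Nat.choose (k + TB.card + 1) (k + 1) * (k + 1) := Nat.add_one_mul_choose_eq _ _
  have hch' : ((k : ℚ) + TB.card + 1) * (Nat.choose (k + TB.card) k : ℚ) =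
      (Nat.choose (k + 1 + TB.card) (k + 1) : ℚ) * ((k : ℚ) + 1) := by
    have h9 : k + TB.card + 1 = k + 1 + TB.card := by omega
    rw [h9] at hch
    have : ((k + 1 + TB.card : ℕ) : ℚ) * (Nat.choose (k + TB.card) k : ℚ) =
        (Nat.choose (k + 1 + TB.card) (k + 1) : ℚ) * ((k + 1 : ℕ) : ℚ) := by
      exact_mod_cast hch
    push_cast at this
    linarith
  have e1 := (e_pos TA).ne'
  have e2 := (e_pos TB).ne'
  have e3 : (Nat.choose (k + TB.card) k : ℚ) ≠ 0 := by
    have := Nat.choose_pos (show k ≤ k + TB.card by omega)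
    exact_mod_cast this.ne'
  have e4 : (Nat.choose (k + 1 + TB.card) (k + 1) : ℚ) ≠ 0 := by
    have := Nat.choose_pos (show k + 1 ≤ k + 1 + TB.card by omega)
    exact_mod_cast this.ne'
  push_cast
  rw [div_mul_div_comm, div_eq_div_iff (by positivity) (by positivity)]
  have hch'' := hch'
  linear_combination (-(e TA * e TB)) * hch''

theorem ker_par {A B : Finset P} (hA : Ker A) (hB : Ker B) (h : Inc A B) : Ker (A ∪ B) := by
  intro T hT hTne l hl
  have h' : Inc B A := fun x hx y hy => ⟨(h y hy x hx).2, (h y hy x hx).1⟩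
  obtain ⟨hlW, hlE⟩ := mem_LinE.1 hl
  obtain ⟨hlN, hlM⟩ := mem_W.1 hlW
  have hne : l ≠ [] := by
    rintro rfl
    obtain ⟨x, hx⟩ := hTne
    exact absurd ((hlM x).2 hx) (by simp)
  obtain ⟨l', x, hlx⟩ : ∃ l' x, l = l' ++ [x] :=
    ⟨l.dropLast, l.getLast hne, (List.dropLast_append_getLast hne).symm⟩
  have hxT : x ∈ T := (hlM x).1 (by rw [hlx]; simp)
  rcases Finset.mem_union.1 (hT hxT) with hxA | hxB
  · exact b2_main hA h hT hl ⟨l', x, hlx, hxA⟩
  · exact b2_main hB h' (by rw [Finset.union_comm]; exact hT) hl ⟨l', x, hlx, hxB⟩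

theorem ker_small {S : Finset P} (h : S.card ≤ 1) : Ker S := by
  intro T hT hTne l hl
  have hc : T.card = 1 := by
    have h1 := Finset.card_le_card hT
    have h2 := hTne.card_pos
    omega
  obtain ⟨a, ha⟩ := Finset.card_eq_one.1 hc
  subst ha
  obtain ⟨hlW, hlE⟩ := mem_LinE.1 hl
  have hl1 : l = [a] := by
    obtain ⟨hlN, hlM⟩ := mem_W.1 hlW
    have hlen := length_W hlW
    rw [Finset.card_singleton] at hlen
    obtain ⟨b, hb⟩ := List.length_eq_one_iff.1 hlen
    have := (hlM b).1 (by rw [hb]; simp)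
    rw [Finset.mem_singleton] at this
    rw [hb, this]
  have he : (LinE (∅ : Finset P)).filter (fun m => ins a m = l) = {[]} := by
    ext m
    rw [Finset.mem_filter, Finset.mem_singleton]
    constructor
    · rintro ⟨hm, _⟩
      have := length_W (mem_LinE.1 hm).1
      rw [Finset.card_empty] at this
      exact List.length_eq_zero_iff.1 this
    · rintro rfl
      refine ⟨mem_LinE.2 ⟨mem_W.2 ⟨List.nodup_nil, fun x => by simp⟩, List.Pairwise.nil⟩, ?_⟩
      rw [hl1]
      simp [ins]
  rw [Finset.sum_singleton, Finset.card_singleton, e_small (by simp : ({a} : Finset P).card ≤ 1)]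
  have h3 : ({a} : Finset P).erase a = ∅ := by simp
  rw [h3, he, Finset.card_singleton, e_small (by simp : (∅ : Finset P).card ≤ 1)]

end Pool.Agent.Lib.MP_54b7d9_co.SP
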