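import Pool.Agent.Lib.MP_54b7d9_co.SP.Defs

set_option autoImplicit false

/-! Piece B3: injectivity of promotion on linear extensions; the kernel identity of ordinal sums. -/

namespace Pool.Agent.Lib.MP_54b7d9_co.SP

open Classical

variable {P : Type} [PartialOrder P]

private lemma b3_ins_nil (c : P) : ins c [] = [c] := by rw [ins]

private lemma b3_ins_cons (c v : P) (s : List P) :
    ins c (v :: s) = if v < c then c :: ins v s else v :: ins c s := by rw [ins]

private lemma b3_ins_length (s : List P) : ∀ c : P, (ins c s).length = s.length + 1 := by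
  induction s with
  | nil => intro c; rw [b3_ins_nil]; rfl
  | cons v s ih =>
    intro c
    rw [b3_ins_cons]
    split_ifs
    · simp [ih]
    · simp [ih]

theorem prom_inj {x x' : P} {r r' : List P} (h : IsLE (x :: r)) (h' : IsLE (x' :: r'))
    (he : ins x r = ins x' r') : x = x' ∧ r = r' := by
  induction r generalizing x x' r' with
  | nil =>
    have hl := congrArg List.length he
    rw [b3_ins_length, b3_ins_length] at hl
    have hr' : r' = [] := List.eq_nil_of_length_eq_zero (by simpa using hl.symm)
    subst hr'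
    rw [b3_ins_nil, b3_ins_nil] at he
    simpa using he
  | cons v s ih =>
    cases r' with
    | nil =>
      have hl := congrArg List.length he
      rw [b3_ins_length, b3_ins_length] at hl
      simp at hl
    | cons v' s' =>
      unfold IsLE at h h'
      have hvs : IsLE (v :: s) := (List.pairwise_cons.1 h).2
      have hvs' : IsLE (v' :: s') := (List.pairwise_cons.1 h').2
      have hxs : IsLE (x :: s) := h.sublist (by simp)
      have hxs' : IsLE (x' :: s') := h'.sublist (by simp)
      have hxv : ¬ x < v := (List.pairwise_cons.1 h).1 v (by simp)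
      have hxv' : ¬ x' < v' := (List.pairwise_cons.1 h').1 v' (by simp)
      rw [b3_ins_cons, b3_ins_cons] at he
      split_ifs at he with h1 h2 h2
      · obtain ⟨e1, e2⟩ := List.cons.inj he
        obtain ⟨e3, e4⟩ := ih hvs hvs' e2
        exact ⟨e1, by rw [e3, e4]⟩
      · obtain ⟨e1, e2⟩ := List.cons.inj he
        obtain ⟨e3, e4⟩ := ih hvs hxs' e2
        exact absurd (by rw [← e3, ← e1]; exact h1) hxv'
      · obtain ⟨e1, e2⟩ := List.cons.inj he
        obtain ⟨e3, e4⟩ := ih hxs hvs' e2
        exact absurd (by rw [e3, e1]; exact h2) hxv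
      · obtain ⟨e1, e2⟩ := List.cons.inj he
        obtain ⟨e3, e4⟩ := ih hxs hxs' e2
        exact ⟨e3, by rw [e1, e4]⟩

/-! ### structure of the linear extensions of an ordinal sum -/

private lemma b3_disj {A B : Finset P} (h : Below A B) {x : P} (ha : x ∈ A) (hb : x ∈ B) : False :=
  lt_irrefl x (h x ha x hb)

private lemma b3_split {A B : Finset P} (h : Below A B) :
    ∀ l : List P, (∀ x ∈ l, x ∈ A ∪ B) → IsLE l →
      l = l.filter (fun x => decide (x ∈ B)) ++ l.filter (fun x => decide (x ∈ A)) := by
  intro l
  induction l with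
  | nil => intro _ _; rfl
  | cons x s ih =>
    intro hm hl
    unfold IsLE at hl
    rw [List.pairwise_cons] at hl
    have ihs := ih (fun y hy => hm y (List.mem_cons_of_mem _ hy)) hl.2
    by_cases hxB : x ∈ B
    · have hxA : x ∉ A := fun hxA => b3_disj h hxA hxB
      rw [List.filter_cons_of_pos (by simpa using hxB), List.filter_cons_of_neg (by simpa using hxA),
        List.cons_append, ← ihs]
    · have hxA : x ∈ A := by
        have := hm x (by simp)
        rw [Finset.mem_union] at this
        exact this.resolve_right hxB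
      have hs : ∀ y ∈ s, y ∈ A := by
        intro y hy
        have h1 := hm y (List.mem_cons_of_mem _ hy)
        rw [Finset.mem_union] at h1
        rcases h1 with h1 | h1
        · exact h1
        · exact absurd (h x hxA y h1) (hl.1 y hy)
      have hsB : s.filter (fun x => decide (x ∈ B)) = [] := by
        rw [List.filter_eq_nil_iff]
        intro y hy
        simpa using fun hyB => b3_disj h (hs y hy) hyB
      have hsA : s.filter (fun x => decide (x ∈ A)) = s := by
        rw [List.filter_eq_self]
        intro y hy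
        simpa using hs y hy
      rw [List.filter_cons_of_neg (by simpa using hxB), List.filter_cons_of_pos (by simpa using hxA),
        hsB, hsA, List.nil_append]

private lemma b3_mem_ser {A B : Finset P} (h : Below A B) {l : List P} :
    l ∈ LinE (A ∪ B) ↔ ∃ lB ∈ LinE B, ∃ lA ∈ LinE A, l = lB ++ lA := by
  constructor
  · intro hl
    rw [mem_LinE, mem_W] at hl
    obtain ⟨⟨h1, h2⟩, h3⟩ := hl
    have hsp := b3_split h l (fun x hx => (h2 x).1 hx) h3
    refine ⟨_, ?_, _, ?_, hsp⟩
    · rw [mem_LinE, mem_W]
      refine ⟨⟨h1.filter _, fun x => ?_⟩, ?_⟩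
      · rw [List.mem_filter, h2 x, Finset.mem_union]
        simp only [decide_eq_true_eq]
        tauto
      · unfold IsLE at h3 ⊢
        exact h3.filter _
    · rw [mem_LinE, mem_W]
      refine ⟨⟨h1.filter _, fun x => ?_⟩, ?_⟩
      · rw [List.mem_filter, h2 x, Finset.mem_union]
        simp only [decide_eq_true_eq]
        tauto
      · unfold IsLE at h3 ⊢
        exact h3.filter _
  · rintro ⟨lB, hB, lA, hA, rfl⟩
    rw [mem_LinE, mem_W] at hA hB ⊢
    obtain ⟨⟨b1, b2⟩, b3⟩ := hB
    obtain ⟨⟨a1, a2⟩, a3⟩ := hA
    refine ⟨⟨?_, fun x => ?_⟩, ?_⟩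
    · rw [List.nodup_append]
      refine ⟨b1, a1, fun x hx y hy hxy => ?_⟩
      subst hxy
      exact b3_disj h ((a2 x).1 hy) ((b2 x).1 hx)
    · rw [List.mem_append, b2 x, a2 x, Finset.mem_union]
      tauto
    · unfold IsLE at a3 b3 ⊢
      rw [List.pairwise_append]
      refine ⟨b3, a3, fun x hx y hy => ?_⟩
      exact (h y ((a2 y).1 hy) x ((b2 x).1 hx)).asymm

private lemma b3_LinE_ser {A B : Finset P} (h : Below A B) :
    LinE (A ∪ B) = (LinE B ×ˢ LinE A).image (fun p : List P × List P => p.1 ++ p.2) := by
  ext l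
  rw [b3_mem_ser h, Finset.mem_image]
  constructor
  · rintro ⟨lB, hB, lA, hA, rfl⟩
    exact ⟨(lB, lA), Finset.mem_product.2 ⟨hB, hA⟩, rfl⟩
  · rintro ⟨⟨lB, lA⟩, hp, rfl⟩
    rw [Finset.mem_product] at hp
    exact ⟨lB, hp.1, lA, hp.2, rfl⟩

private lemma b3_len {S : Finset P} {l : List P} (h : l ∈ LinE S) : l.length = S.card :=
  length_W (mem_LinE.1 h).1

private lemma b3_ser_inj (A B : Finset P) :
    Set.InjOn (fun p : List P × List P => p.1 ++ p.2) (LinE B ×ˢ LinE A : Finset _) := by
  rintro ⟨b, a⟩ hp ⟨b', a'⟩ hp' he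
  rw [Finset.mem_coe, Finset.mem_product] at hp hp'
  simp only at he
  have hl : b.length = b'.length := by
    rw [b3_len hp.1, b3_len hp'.1]
  obtain ⟨e1, e2⟩ := List.append_inj he hl
  rw [e1, e2]

private lemma b3_card_filter {A B : Finset P} (h : Below A B) (Φ : List P → Prop)
    [DecidablePred Φ] :
    ((LinE (A ∪ B)).filter Φ).card =
      ((LinE B ×ˢ LinE A).filter (fun p : List P × List P => Φ (p.1 ++ p.2))).card := by
  rw [b3_LinE_ser h, Finset.filter_image]
  apply Finset.card_image_of_injOn
  exact (b3_ser_inj A B).mono (by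
    intro x hx
    exact Finset.mem_coe.2 (Finset.mem_of_mem_filter _ (Finset.mem_coe.1 hx)))

private lemma b3_e_ser {A B : Finset P} (h : Below A B) : e (A ∪ B) = e A * e B := by
  unfold e
  rw [b3_LinE_ser h, Finset.card_image_of_injOn (b3_ser_inj A B), Finset.card_product]
  push_cast
  ring

private lemma b3_ins_below {a : P} (m r : List P) (h : ∀ v ∈ m, a < v) :
    ins a (m ++ r) = m ++ ins a r := by
  induction m with
  | nil => rfl
  | cons v s ih =>
    have h1 : ¬ v < a := (h v (by simp)).asymm
    rw [List.cons_append, b3_ins_cons, if_neg h1, ih (fun w hw => h w (List.mem_cons_of_mem _ hw)),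
      List.cons_append]

private lemma b3_ins_above {x : P} (m : List P) : ∀ (b : P) (r : List P), x < b →
    (∀ v ∈ m, x < v) → ins b (m ++ x :: r) = ins b m ++ ins x r := by
  induction m with
  | nil =>
    intro b r hb _
    rw [List.nil_append, b3_ins_cons, if_pos hb, b3_ins_nil]
    rfl
  | cons v s ih =>
    intro b r hb h
    have hv : x < v := h v (by simp)
    have hs : ∀ w ∈ s, x < w := fun w hw => h w (List.mem_cons_of_mem _ hw)
    rw [List.cons_append, b3_ins_cons, b3_ins_cons]
    split_ifs with h1
    · rw [ih v r hv hs, List.cons_append]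
    · rw [ih b r hb hs, List.cons_append]

/-- promotion of a linear extension -/
private noncomputable def b3_pm : List P → List P
  | [] => []
  | x :: r => ins x r

private lemma b3_ins_mem' : ∀ (r : List P) (x y : P), y ∈ ins x r ↔ y = x ∨ y ∈ r := by
  intro r
  induction r with
  | nil => intro x y; rw [b3_ins_nil]; simp
  | cons v s ih =>
    intro x y
    rw [b3_ins_cons]
    split_ifs
    · rw [List.mem_cons, ih v y, List.mem_cons]
    · rw [List.mem_cons, ih x y, List.mem_cons]
      tauto

private lemma b3_ins_perm : ∀ (r : List P) (x : P), (ins x r).Perm (x :: r) := by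
  intro r
  induction r with
  | nil => intro x; rw [b3_ins_nil]
  | cons v s ih =>
    intro x
    rw [b3_ins_cons]
    split_ifs
    · exact (ih v).cons x
    · exact ((ih x).cons v).trans (List.Perm.swap x v s)

/-- promotion keeps linear extensions -/
private lemma b3_ins_isLE : ∀ (r : List P) (x : P), IsLE r → (∀ y ∈ r, ¬ x < y) → IsLE (ins x r) := by
  intro r
  induction r with
  | nil => intro x _ _; rw [b3_ins_nil]; unfold IsLE; simp
  | cons v s ih =>
    intro x hr hx
    unfold IsLE at hr
    rw [List.pairwise_cons] at hr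
    rw [b3_ins_cons]
    split_ifs with h1
    · unfold IsLE
      rw [List.pairwise_cons]
      refine ⟨fun y hy => ?_, ih v hr.2 hr.1⟩
      rw [b3_ins_mem'] at hy
      rcases hy with rfl | hy
      · exact h1.asymm
      · exact hx y (List.mem_cons_of_mem _ hy)
    · unfold IsLE
      rw [List.pairwise_cons]
      refine ⟨fun y hy => ?_, ih x hr.2 (fun y hy => hx y (List.mem_cons_of_mem _ hy))⟩
      rw [b3_ins_mem'] at hy
      rcases hy with rfl | hy
      · exact h1
      · exact hr.1 y hy

private lemma b3_pm_mem {A : Finset P} {m : List P} (hm : m ∈ LinE A) : b3_pm m ∈ LinE A := by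
  cases m with
  | nil => exact hm
  | cons x r =>
    rw [mem_LinE, mem_W] at hm ⊢
    obtain ⟨⟨h1, h2⟩, h3⟩ := hm
    unfold IsLE at h3
    rw [List.pairwise_cons] at h3
    refine ⟨⟨?_, fun y => ?_⟩, ?_⟩
    · show (ins x r).Nodup
      exact (b3_ins_perm r x).nodup_iff.2 h1
    · show y ∈ ins x r ↔ y ∈ A
      rw [(b3_ins_perm r x).mem_iff]
      exact h2 y
    · exact b3_ins_isLE r x h3.2 h3.1

private lemma b3_pm_inj (A : Finset P) : Set.InjOn (b3_pm (P := P)) (LinE A : Set (List P)) := by
  intro m hm m' hm' he
  rw [Finset.mem_coe] at hm hm'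
  have hl : m.length = m'.length := by rw [b3_len hm, b3_len hm']
  cases m with
  | nil =>
    cases m' with
    | nil => rfl
    | cons x' r' => simp at hl
  | cons x r =>
    cases m' with
    | nil => simp at hl
    | cons x' r' =>
      obtain ⟨e1, e2⟩ := prom_inj (mem_LinE.1 hm).2 (mem_LinE.1 hm').2 he
      rw [e1, e2]

private lemma b3_pm_count {A : Finset P} {l : List P} (hl : l ∈ LinE A) :
    ((LinE A).filter (fun m => b3_pm m = l)).card = 1 := by
  have hsurj : Set.SurjOn (b3_pm (P := P)) (LinE A : Set (List P)) (LinE A : Set (List P)) :=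
    Finset.surjOn_of_injOn_of_card_le b3_pm (fun m hm => b3_pm_mem hm) (b3_pm_inj A) le_rfl
  obtain ⟨m0, hm0, h0⟩ := hsurj (Finset.mem_coe.2 hl)
  rw [Finset.card_eq_one]
  refine ⟨m0, ?_⟩
  ext m
  rw [Finset.mem_filter, Finset.mem_singleton]
  constructor
  · rintro ⟨h1, h2⟩
    exact b3_pm_inj A (Finset.mem_coe.2 h1) hm0 (h2.trans h0.symm)
  · rintro rfl
    exact ⟨Finset.mem_coe.1 hm0, h0⟩

theorem ker_ser {A B : Finset P} (hA : Ker A) (hB : Ker B) (h : Below A B) : Ker (A ∪ B) := by
  intro T hT hTne l hl
  set TA := T ∩ A with hTA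
  set TB := T ∩ B with hTB
  have hTu : T = TA ∪ TB := by
    rw [hTA, hTB, ← Finset.inter_union_distrib_left]
    exact (Finset.inter_eq_left.2 hT).symm
  have hTAA : TA ⊆ A := Finset.inter_subset_right
  have hTBB : TB ⊆ B := Finset.inter_subset_right
  have hb : Below TA TB := fun a ha b hb => h a (hTAA ha) b (hTBB hb)
  rcases TA.eq_empty_or_nonempty with hAe | hAne
  · have hTB' : T = TB := by rw [hTu, hAe, Finset.empty_union]
    exact hB T (by rw [hTB']; exact hTBB) hTne l hl
  rcases TB.eq_empty_or_nonempty with hBe | hBne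
  · have hTA' : T = TA := by rw [hTu, hBe, Finset.union_empty]
    exact hA T (by rw [hTA']; exact hTAA) hTne l hl
  have hdisj : Disjoint TA TB := by
    rw [Finset.disjoint_left]
    intro x hx hx'
    exact b3_disj hb hx hx'
  rw [hTu] at hl
  obtain ⟨lB, hlB, lA, hlA, hll⟩ := (b3_mem_ser hb).1 hl
  have heA : 0 < e TA := by
    unfold e
    exact_mod_cast Finset.card_pos.2 ⟨lA, hlA⟩
  have heB : 0 < e TB := by
    unfold e
    exact_mod_cast Finset.card_pos.2 ⟨lB, hlB⟩
  have hcard : (T.card : ℚ) = TA.card + TB.card := by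
    rw [hTu, Finset.card_union_of_disjoint hdisj]
    push_cast
    rfl
  have hsumA : ∑ a ∈ TA, (((LinE (T.erase a)).filter (fun m => ins a m = l)).card : ℚ) /
      e (T.erase a) = TA.card / (e TA * e TB) := by
    have h1 := hA TA hTAA hAne lA hlA
    have h2 : ∀ a ∈ TA, (((LinE (T.erase a)).filter (fun m => ins a m = l)).card : ℚ) /
        e (T.erase a) = ((((LinE (TA.erase a)).filter (fun m => ins a m = lA)).card : ℚ) /
          e (TA.erase a)) * (1 / e TB) := by
      intro a ha
      have haB : a ∉ TB := fun h' => b3_disj hb ha h'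
      have he : T.erase a = TA.erase a ∪ TB := by
        rw [hTu, Finset.erase_union_distrib, Finset.erase_eq_of_notMem haB]
      have hb' : Below (TA.erase a) TB := fun x hx y hy => hb x (Finset.mem_of_mem_erase hx) y hy
      rw [he, b3_e_ser hb', b3_card_filter hb' (fun m => ins a m = l)]
      have hset : (LinE TB ×ˢ LinE (TA.erase a)).filter
          (fun p : List P × List P => ins a (p.1 ++ p.2) = l) =
          {lB} ×ˢ ((LinE (TA.erase a)).filter (fun m => ins a m = lA)) := by
        ext ⟨mB, mA⟩
        rw [Finset.mem_filter, Finset.mem_product, Finset.mem_product, Finset.mem_singleton,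
          Finset.mem_filter]
        simp only
        constructor
        · rintro ⟨⟨p1, p2⟩, p3⟩
          have hv : ∀ v ∈ mB, a < v := by
            intro v hv
            rw [mem_LinE, mem_W] at p1
            exact hb a ha v ((p1.1.2 v).1 hv)
          rw [b3_ins_below _ _ hv, hll] at p3
          obtain ⟨e1, e2⟩ := List.append_inj p3 (by rw [b3_len p1, b3_len hlB])
          exact ⟨e1, p2, e2⟩
        · rintro ⟨rfl, p2, p3⟩
          have hv : ∀ v ∈ mB, a < v := by
            intro v hv
            have p1 := hlB
            rw [mem_LinE, mem_W] at p1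
            exact hb a ha v ((p1.1.2 v).1 hv)
          refine ⟨⟨hlB, p2⟩, ?_⟩
          rw [b3_ins_below _ _ hv, p3, hll]
      rw [hset, Finset.card_product, Finset.card_singleton, one_mul]
      rw [div_mul_div_comm, mul_one]
    rw [Finset.sum_congr rfl h2, ← Finset.sum_mul, h1, div_mul_div_comm, mul_one]
  have hsumB : ∑ b ∈ TB, (((LinE (T.erase b)).filter (fun m => ins b m = l)).card : ℚ) /
      e (T.erase b) = TB.card / (e TA * e TB) := by
    have h1 := hB TB hTBB hBne lB hlB
    have h2 : ∀ b ∈ TB, (((LinE (T.erase b)).filter (fun m => ins b m = l)).card : ℚ) /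
        e (T.erase b) = ((((LinE (TB.erase b)).filter (fun m => ins b m = lB)).card : ℚ) /
          e (TB.erase b)) * (1 / e TA) := by
      intro b hbB
      have hbA : b ∉ TA := fun h' => b3_disj hb h' hbB
      have he : T.erase b = TA ∪ TB.erase b := by
        rw [hTu, Finset.erase_union_distrib, Finset.erase_eq_of_notMem hbA]
      have hb' : Below TA (TB.erase b) := fun x hx y hy => hb x hx y (Finset.mem_of_mem_erase hy)
      rw [he, b3_e_ser hb', b3_card_filter hb' (fun m => ins b m = l)]
      have hins : ∀ mB ∈ LinE (TB.erase b), ∀ mA ∈ LinE TA,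
          ins b (mB ++ mA) = ins b mB ++ b3_pm mA := by
        intro mB hmB mA hmA
        cases mA with
        | nil =>
          exfalso
          have := b3_len hmA
          have h0 := Finset.card_pos.2 hAne
          simp at this
          omega
        | cons x r =>
          have hx : x ∈ TA := by
            rw [mem_LinE, mem_W] at hmA
            exact (hmA.1.2 x).1 (by simp)
          apply b3_ins_above
          · exact hb x hx b hbB
          · intro v hv
            rw [mem_LinE, mem_W] at hmB
            exact hb' x hx v ((hmB.1.2 v).1 hv)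
      have hcardb : (TB.erase b).card + 1 = TB.card := Finset.card_erase_add_one hbB
      have hset : (LinE (TB.erase b) ×ˢ LinE TA).filter
          (fun p : List P × List P => ins b (p.1 ++ p.2) = l) =
          ((LinE (TB.erase b)).filter (fun m => ins b m = lB)) ×ˢ
            ((LinE TA).filter (fun m => b3_pm m = lA)) := by
        ext ⟨mB, mA⟩
        rw [Finset.mem_filter, Finset.mem_product, Finset.mem_product, Finset.mem_filter,
          Finset.mem_filter]
        simp only
        constructor
        · rintro ⟨⟨p1, p2⟩, p3⟩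
          rw [hins mB p1 mA p2, hll] at p3
          obtain ⟨e1, e2⟩ := List.append_inj p3 (by
            rw [b3_ins_length, b3_len p1, b3_len hlB, hcardb])
          exact ⟨⟨p1, e1⟩, p2, e2⟩
        · rintro ⟨⟨p1, e1⟩, p2, e2⟩
          refine ⟨⟨p1, p2⟩, ?_⟩
          rw [hins mB p1 mA p2, e1, e2, hll]
      rw [hset, Finset.card_product, b3_pm_count hlA, mul_one]
      rw [div_mul_div_comm, mul_one, mul_comm (e TA)]
    rw [Finset.sum_congr rfl h2, ← Finset.sum_mul, h1, div_mul_div_comm, mul_one,
      mul_comm (e TB)]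
  have hsum : ∑ a ∈ T, (((LinE (T.erase a)).filter (fun m => ins a m = l)).card : ℚ) /
      e (T.erase a) = ∑ a ∈ TA, (((LinE (T.erase a)).filter (fun m => ins a m = l)).card : ℚ) /
      e (T.erase a) + ∑ b ∈ TB, (((LinE (T.erase b)).filter (fun m => ins b m = l)).card : ℚ) /
      e (T.erase b) := by
    conv_lhs => rw [show T = TA ∪ TB from hTu]
    rw [← hTu]
    conv_lhs => rw [hTu, Finset.sum_union hdisj]
    rw [← hTu]
  rw [hsum, hsumA, hsumB, hcard]
  have heT : e T = e TA * e TB := by
    conv_lhs => rw [hTu]
    exact b3_e_ser hb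
  rw [heT]
  ring

end Pool.Agent.Lib.MP_54b7d9_co.SP
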