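import Pool.Agent.Lib.MP_54b7d9_co.SP.Defs

set_option autoImplicit false

namespace Pool.Agent.Lib.MP_54b7d9_co.SP

open Classical

variable {P : Type} [PartialOrder P]

private theorem append_mem {S : Finset P} {m : List P} {y : P} :
    m ++ [y] ∈ LinE S ↔ (y ∈ S ∧ MinIn S y) ∧ m ∈ LinE (S.erase y) := by
  rw [mem_LinE, mem_LinE, mem_W, mem_W]
  unfold IsLE MinIn
  rw [List.pairwise_append, List.nodup_append]
  constructor
  · rintro ⟨⟨⟨h1, -, h2⟩, h3⟩, h4, -, h5⟩
    have hy : y ∈ S := (h3 y).mp (by simp)
    refine ⟨⟨hy, fun v hv hvy => ?_⟩, ⟨h1, fun x => ?_⟩, h4⟩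
    · rcases List.mem_append.mp ((h3 v).mpr hv) with h | h
      · exact h5 v h y (by simp) hvy
      · rw [List.mem_singleton] at h
        rw [h] at hvy
        exact lt_irrefl _ hvy
    · rw [Finset.mem_erase]
      constructor
      · intro hx
        exact ⟨h2 x hx y (by simp), (h3 x).mp (by simp [hx])⟩
      · rintro ⟨hxy, hx⟩
        rcases List.mem_append.mp ((h3 x).mpr hx) with h | h
        · exact h
        · exact absurd (List.mem_singleton.mp h) hxy
  · rintro ⟨⟨hy, hmin⟩, ⟨h1, h2⟩, h3⟩
    refine ⟨⟨⟨h1, by simp, fun a ha b hb => ?_⟩, fun x => ?_⟩, h3, by simp, fun a ha b hb => ?_⟩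
    · rw [List.mem_singleton] at hb
      rw [hb]
      exact (Finset.mem_erase.mp ((h2 a).mp ha)).1
    · rw [List.mem_append, List.mem_singleton, h2 x, Finset.mem_erase]
      constructor
      · rintro (⟨-, hx⟩ | hx)
        · exact hx
        · rw [hx]
          exact hy
      · intro hx
        by_cases hxy : x = y
        · exact Or.inr hxy
        · exact Or.inl ⟨hxy, hx⟩
    · rw [List.mem_singleton] at hb
      rw [hb]
      exact hmin a (Finset.mem_erase.mp ((h2 a).mp ha)).2

theorem sum_linE {S : Finset P} (hS : S.Nonempty) (f : List P → ℚ) :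
    ∑ l ∈ LinE S, f l = ∑ y ∈ S.filter (MinIn S), ∑ m ∈ LinE (S.erase y), f (m ++ [y]) := by
  rw [Finset.sum_sigma']
  symm
  refine Finset.sum_bij (fun p _ => p.2 ++ [p.1]) ?_ ?_ ?_ ?_
  · rintro ⟨y, m⟩ h
    rw [Finset.mem_sigma, Finset.mem_filter] at h
    exact append_mem.mpr h
  · rintro ⟨y, m⟩ - ⟨y', m'⟩ - h
    have h' : m ++ [y] = m' ++ [y'] := h
    rw [List.append_eq_append_iff_of_size_eq_right (by simp)] at h'
    obtain ⟨h1, h2⟩ := h'
    rw [List.singleton_inj] at h2
    rw [h1, h2]
  · intro l hl
    have hne : l ≠ [] := by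
      rintro rfl
      obtain ⟨x, hx⟩ := hS
      have := ((mem_W.mp (mem_LinE.mp hl).1).2 x).mpr hx
      simp at this
    have h1 : l.dropLast ++ [l.getLast hne] = l := List.dropLast_append_getLast hne
    rw [← h1] at hl
    refine ⟨⟨l.getLast hne, l.dropLast⟩, ?_, h1⟩
    rw [Finset.mem_sigma, Finset.mem_filter]
    exact append_mem.mp hl
  · rintro ⟨y, m⟩ -
    rfl

theorem e_last {S : Finset P} (hS : S.Nonempty) :
    e S = ∑ y ∈ S.filter (MinIn S), e (S.erase y) := by
  have h := sum_linE hS fun _ => (1 : ℚ)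
  simpa [e] using h

private theorem e_empty : e (∅ : Finset P) = 1 := by
  simp [e, LinE, W, IsLE, Finset.filter_singleton]

theorem e_ser {A B : Finset P} (h : Below A B) : e (A ∪ B) = e A * e B := by
  induction hn : A.card using Nat.strong_induction_on generalizing A with
  | _ n ih =>
    rcases A.eq_empty_or_nonempty with hA | hA
    · rw [hA, e_empty, Finset.empty_union, one_mul]
    · have hU : (A ∪ B).Nonempty := hA.mono Finset.subset_union_left
      have hfil : (A ∪ B).filter (MinIn (A ∪ B)) = A.filter (MinIn A) := by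
        ext y
        simp only [Finset.mem_filter, Finset.mem_union, MinIn]
        constructor
        · rintro ⟨h1 | h1, h2⟩
          · exact ⟨h1, fun v hv => h2 v (Or.inl hv)⟩
          · obtain ⟨a, ha⟩ := hA
            exact absurd (h a ha y h1) (h2 a (Or.inl ha))
        · rintro ⟨h1, h2⟩
          refine ⟨Or.inl h1, ?_⟩
          rintro v (hv | hv)
          · exact h2 v hv
          · exact fun hvy => lt_asymm hvy (h y h1 v hv)
      rw [e_last hU, hfil, e_last hA, Finset.sum_mul]
      refine Finset.sum_congr rfl fun y hy => ?_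
      have hyA : y ∈ A := (Finset.mem_filter.mp hy).1
      have hyB : y ∉ B := fun hyB => lt_irrefl _ (h y hyA y hyB)
      have h3 : (A ∪ B).erase y = A.erase y ∪ B := by
        rw [Finset.erase_union_distrib, Finset.erase_eq_of_notMem hyB]
      rw [h3]
      refine ih (A.erase y).card ?_ ?_ rfl
      · rw [← hn]
        exact Finset.card_erase_lt_of_mem hyA
      · intro a ha b hb
        exact h a (Finset.mem_of_mem_erase ha) b hb

theorem e_par {A B : Finset P} (h : Inc A B) :
    e (A ∪ B) = (Nat.choose (A.card + B.card) A.card : ℚ) * e A * e B := by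
  induction hn : A.card + B.card using Nat.strong_induction_on generalizing A B with
  | _ n ih =>
    rcases A.eq_empty_or_nonempty with hA | hA
    · rw [hA, e_empty, Finset.empty_union, Finset.card_empty, Nat.choose_zero_right]
      simp
    rcases B.eq_empty_or_nonempty with hB | hB
    · rw [hB, Finset.card_empty, add_zero] at hn
      rw [hB, e_empty, Finset.union_empty, hn, Nat.choose_self]
      simp
    have hU : (A ∪ B).Nonempty := hA.mono Finset.subset_union_left
    have hdisj : Disjoint A B := by
      rw [Finset.disjoint_left]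
      intro a ha hb
      exact (h a ha a hb).1 le_rfl
    have hfil : (A ∪ B).filter (MinIn (A ∪ B)) = A.filter (MinIn A) ∪ B.filter (MinIn B) := by
      ext y
      simp only [Finset.mem_filter, Finset.mem_union, MinIn]
      constructor
      · rintro ⟨h1 | h1, h2⟩
        · exact Or.inl ⟨h1, fun v hv => h2 v (Or.inl hv)⟩
        · exact Or.inr ⟨h1, fun v hv => h2 v (Or.inr hv)⟩
      · rintro (⟨h1, h2⟩ | ⟨h1, h2⟩)
        · refine ⟨Or.inl h1, ?_⟩
          rintro v (hv | hv)
          · exact h2 v hv
          · exact fun hvy => (h y h1 v hv).2 hvy.le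
        · refine ⟨Or.inr h1, ?_⟩
          rintro v (hv | hv)
          · exact fun hvy => (h v hv y h1).1 hvy.le
          · exact h2 v hv
    have hdisj' : Disjoint (A.filter (MinIn A)) (B.filter (MinIn B)) :=
      hdisj.mono (Finset.filter_subset _ _) (Finset.filter_subset _ _)
    obtain ⟨a, ha⟩ : ∃ a, A.card = a + 1 := ⟨A.card - 1, by have := hA.card_pos; omega⟩
    obtain ⟨b, hb⟩ : ∃ b, B.card = b + 1 := ⟨B.card - 1, by have := hB.card_pos; omega⟩
    have h1 : ∀ y ∈ A.filter (MinIn A), e ((A ∪ B).erase y) =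
        (Nat.choose (a + (b + 1)) a : ℚ) * e (A.erase y) * e B := by
      intro y hy
      have hyA : y ∈ A := (Finset.mem_filter.mp hy).1
      have hyB : y ∉ B := Finset.disjoint_left.mp hdisj hyA
      have hc : (A.erase y).card = a := by rw [Finset.card_erase_of_mem hyA, ha]; rfl
      have h3 : (A ∪ B).erase y = A.erase y ∪ B := by
        rw [Finset.erase_union_distrib, Finset.erase_eq_of_notMem hyB]
      rw [h3, ih ((A.erase y).card + B.card) (by omega)
        (fun a' ha' b' hb' => h a' (Finset.mem_of_mem_erase ha') b' hb') rfl, hc, hb]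
    have h2 : ∀ y ∈ B.filter (MinIn B), e ((A ∪ B).erase y) =
        (Nat.choose ((a + 1) + b) (a + 1) : ℚ) * e A * e (B.erase y) := by
      intro y hy
      have hyB : y ∈ B := (Finset.mem_filter.mp hy).1
      have hyA : y ∉ A := Finset.disjoint_right.mp hdisj hyB
      have hc : (B.erase y).card = b := by rw [Finset.card_erase_of_mem hyB, hb]; rfl
      have h3 : (A ∪ B).erase y = A ∪ B.erase y := by
        rw [Finset.erase_union_distrib, Finset.erase_eq_of_notMem hyA]
      rw [h3, ih (A.card + (B.erase y).card) (by omega)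
        (fun a' ha' b' hb' => h a' ha' b' (Finset.mem_of_mem_erase hb')) rfl, hc, ha]
    rw [e_last hU, hfil, Finset.sum_union hdisj', Finset.sum_congr rfl h1, Finset.sum_congr rfl h2,
      ← Finset.sum_mul, ← Finset.mul_sum, ← Finset.mul_sum, ← e_last hA, ← e_last hB]
    have hch : Nat.choose n (a + 1) = Nat.choose (a + (b + 1)) a + Nat.choose (a + 1 + b) (a + 1) := by
      have hn' : n = (a + (b + 1)) + 1 := by omega
      rw [hn', Nat.choose_succ_succ]
      congr 2
      omega
    rw [ha, hch]
    push_cast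
    ring

end Pool.Agent.Lib.MP_54b7d9_co.SP
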