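import Pool.Agent.Lib.MP_54b7d9_co.Defs

set_option autoImplicit false

/-! The definitions used in the statement of the hand-in `SeriesParallel`. -/

namespace Pool.Agent.Lib.MP_54b7d9_co.SP

/-- A subset of a poset is series-parallel if it has one element, or is the union of two
series-parallel subsets `A`, `B` such that no element of `A` is comparable to an element of `B`
(disjoint union), or such that every element of `A` is below every element of `B`
(ordinal sum). The poset is series-parallel if the set of all its elements is. -/
inductive IsSeriesParallel {P : Type} [PartialOrder P] : Set P → Prop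
  | single (x : P) : IsSeriesParallel {x}
  | par (A B : Set P) : IsSeriesParallel A → IsSeriesParallel B →
      (∀ a ∈ A, ∀ b ∈ B, ¬ a ≤ b ∧ ¬ b ≤ a) → IsSeriesParallel (A ∪ B)
  | ser (A B : Set P) : IsSeriesParallel A → IsSeriesParallel B →
      (∀ a ∈ A, ∀ b ∈ B, a < b) → IsSeriesParallel (A ∪ B)

/-- `B` is a module of the order `o` (each element outside `B` is below all or none, and above all
or none, of the elements of `B`), and the orders `o` and `o'` differ at most inside `B`. -/
structure ModuleSwap {P : Type} (o o' : PartialOrder P) (B : Set P) : Prop where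
  agree : ∀ x y, ¬ (x ∈ B ∧ y ∈ B) → (o.lt x y ↔ o'.lt x y)
  below : ∀ x, x ∉ B → ∀ b ∈ B, ∀ b' ∈ B, o.lt x b → o.lt x b'
  above : ∀ x, x ∉ B → ∀ b ∈ B, ∀ b' ∈ B, o.lt b x → o.lt b' x

/-- The order `o` is reducible: it is series-parallel, or it becomes reducible after changing the
order inside one module `B` with at least two elements `a ∉ B` lying below all elements of `B`. -/
inductive IsReducible {P : Type} : PartialOrder P → Prop
  | sp (o : PartialOrder P) : @IsSeriesParallel P o Set.univ → IsReducible o
  | swap (o o' : PartialOrder P) (B : Set P) (A : Finset P) : ModuleSwap o o' B → 2 ≤ A.card →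
      (∀ a ∈ A, a ∉ B ∧ ∀ b ∈ B, o.lt a b) → IsReducible o' → IsReducible o

end Pool.Agent.Lib.MP_54b7d9_co.SP
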