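import Pool.Agent.Lib.MP_54b7d9_co.SP.A
import Pool.Agent.Lib.MP_54b7d9_co.SP.C1
import Pool.Agent.Lib.MP_54b7d9_co.SP.C4

set_option autoImplicit false

namespace Pool.Agent.Lib.MP_54b7d9_co.SP

open Classical Finset

variable {P : Type} [PartialOrder P]

private theorem inc_sub {A B A' B' : Finset P} (h : Inc A B) (hA : A' ⊆ A) (hB : B' ⊆ B) : Inc A' B' :=
  fun a ha b hb => h a (hA ha) b (hB hb)

private theorem inc_symm {A B : Finset P} (h : Inc A B) : Inc B A :=
  fun b hb a ha => ⟨(h a ha b hb).2, (h a ha b hb).1⟩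

private theorem inc_disj {A B : Finset P} (h : Inc A B) : Disjoint A B := by
  rw [Finset.disjoint_left]
  intro x hx hx'
  exact (h x hx x hx').1 le_rfl

omit [PartialOrder P] in
private theorem er_left {A B : Finset P} {x : P} (hx : x ∉ B) : (A ∪ B).erase x = A.erase x ∪ B := by
  ext y
  simp only [mem_erase, mem_union]
  constructor
  · rintro ⟨h1, h2 | h2⟩
    · exact Or.inl ⟨h1, h2⟩
    · exact Or.inr h2
  · rintro (⟨h1, h2⟩ | h2)
    · exact ⟨h1, Or.inl h2⟩
    · exact ⟨fun h => hx (h ▸ h2), Or.inr h2⟩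

omit [PartialOrder P] in
private theorem er_right {A B : Finset P} {x : P} (hx : x ∉ A) : (A ∪ B).erase x = A ∪ B.erase x := by
  rw [union_comm, er_left hx, union_comm]

private theorem rat1 {A1 A2 B : Finset P} (h : Inc A1 B) (h2 : Inc A2 B) (hc : A1.card = A2.card + 1) :
    e (A2 ∪ B) / e (A1 ∪ B) = ((A1.card : ℚ) / (A1.card + B.card)) * (e A2 / e A1) := by
  rw [e_par h, e_par h2, hc]
  have hB := (e_pos B).ne'
  have hA := (e_pos A1).ne'
  have h3 := Nat.add_one_mul_choose_eq (A2.card + B.card) A2.card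
  have h4 : ((A2.card : ℚ) + B.card + 1) * ((A2.card + B.card).choose A2.card : ℚ) =
      ((A2.card + B.card + 1).choose (A2.card + 1) : ℚ) * (A2.card + 1) := by exact_mod_cast h3
  have h5 : (0 : ℚ) < ((A2.card + B.card + 1).choose (A2.card + 1) : ℚ) := by
    exact_mod_cast Nat.choose_pos (by omega)
  have h6 : ((A2.card : ℚ) + 1 + B.card) ≠ 0 := by positivity
  have e1 : A2.card + 1 + B.card = A2.card + B.card + 1 := by ring
  rw [e1]
  push_cast
  rw [div_mul_div_comm, div_eq_div_iff (by positivity) (by positivity)]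
  linear_combination (e A2 * e B * e A1) * h4

private theorem rat2 {A B1 B2 : Finset P} (h : Inc A B1) (h2 : Inc A B2) (hc : B1.card = B2.card + 1) :
    e (A ∪ B2) / e (A ∪ B1) = ((B1.card : ℚ) / (B1.card + A.card)) * (e B2 / e B1) := by
  rw [union_comm A B2, union_comm A B1]
  exact rat1 (inc_symm h) (inc_symm h2) hc

omit [PartialOrder P] in
private theorem card_er {A : Finset P} {x : P} (hx : x ∈ A) : ((A.erase x).card : ℚ) = A.card - 1 := by
  have h1 := card_erase_add_one hx
  rw [← h1]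
  push_cast
  ring

private theorem ppar_filter {A B : Finset P} (h : Inc A B) {x : P} (hx : x ∈ A) :
    (A ∪ B).filter (fun y => PPar (A ∪ B) x y) = A.filter (fun y => PPar A x y) := by
  ext y
  rw [mem_filter, mem_filter, mem_union]
  constructor
  · rintro ⟨h1 | h1, h2, h3⟩
    · exact ⟨h1, h2, fun v hv => h3 v (mem_union_left _ hv)⟩
    · exact absurd h2.le (h x hx y h1).1
  · rintro ⟨h1, h2, h3⟩
    refine ⟨Or.inl h1, h2, ?_⟩
    intro v hv hvy
    rcases mem_union.1 hv with hv | hv
    · exact h3 v hv hvy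
    · exact absurd hvy.le (h y h1 v hv).2

private theorem tau_side {A B : Finset P} (h : Inc A B) :
    ∑ x ∈ A, ∑ y ∈ (A ∪ B).filter (fun y => PPar (A ∪ B) x y),
      e (((A ∪ B).erase x).erase y) / e ((A ∪ B).erase x)
      = (((A.card : ℚ) - 1) / ((A.card : ℚ) + B.card - 1)) * tau A := by
  unfold tau
  rw [mul_sum]
  refine sum_congr rfl fun x hx => ?_
  rw [ppar_filter h hx, mul_sum]
  refine sum_congr rfl fun y hy => ?_
  obtain ⟨hyA, hxy, -⟩ := mem_filter.1 hy
  have hdis := Finset.disjoint_left.1 (inc_disj h)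
  have hyx : y ∈ A.erase x := mem_erase.2 ⟨hxy.ne', hyA⟩
  rw [er_left (hdis hx), er_left (hdis hyA)]
  rw [rat1 (inc_sub h (erase_subset _ _) subset_rfl)
    (inc_sub h ((erase_subset _ _).trans (erase_subset _ _)) subset_rfl)
    (card_erase_add_one hyx).symm, card_er hx]
  congr 2
  ring

theorem tau_par {A B : Finset P} (h : Inc A B) (hA : A.Nonempty) (hB : B.Nonempty) :
    tau (A ∪ B) = (((A.card : ℚ) - 1) * tau A + ((B.card : ℚ) - 1) * tau B) /
      ((A.card : ℚ) + B.card - 1) := by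
  have h1 := tau_side h
  have h2 := tau_side (inc_symm h)
  rw [union_comm B A] at h2
  conv_lhs => unfold tau
  rw [sum_union (inc_disj h), h1, h2]
  have e1 : (B.card : ℚ) + A.card - 1 = (A.card : ℚ) + B.card - 1 := by ring
  rw [e1]
  ring

private theorem min_sub {A B : Finset P} (h : Inc A B) {y : P} (hy : y ∈ A) : MinIn (A ∪ B) y ↔ MinIn A y := by
  unfold MinIn
  constructor
  · intro h1 v hv
    exact h1 v (mem_union_left _ hv)
  · intro h1 v hv hvy
    rcases mem_union.1 hv with hv | hv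
    · exact h1 v hv hvy
    · exact (h y hy v hv).2 hvy.le

private theorem min_sub' {A B : Finset P} (h : Inc A B) {y : P} (hy : y ∈ B) : MinIn (A ∪ B) y ↔ MinIn B y := by
  rw [union_comm]
  exact min_sub (inc_symm h) hy

private theorem tau_eq (A : Finset P) : tau A = ∑ z ∈ A, ∑ y ∈ (A.erase z).filter (fun y => z < y ∧ MinIn (A.erase z) y),
    e ((A.erase z).erase y) / e (A.erase z) := by
  unfold tau
  refine sum_congr rfl fun z hz => sum_congr ?_ fun _ _ => rfl
  ext y
  rw [mem_filter, mem_filter, mem_erase]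
  constructor
  · rintro ⟨h1, h2, h3⟩
    exact ⟨⟨h2.ne', h1⟩, h2, fun v hv hvy => (mem_erase.1 hv).1 (h3 v (mem_erase.1 hv).2 hvy)⟩
  · rintro ⟨⟨h0, h1⟩, h2, h3⟩
    refine ⟨h1, h2, fun v hv hvy => ?_⟩
    by_contra hne
    exact h3 v (mem_erase.2 ⟨hne, hv⟩) hvy

private theorem last_one {B : Finset P} (hB : B.Nonempty) :
    ∑ y ∈ B.filter (MinIn B), e (B.erase y) / e B = 1 := by
  rw [← sum_div, ← e_last hB, div_self (e_pos B).ne']

private theorem g2_side {A B : Finset P} (h : Inc A B) (hB : B.Nonempty) (hn : 3 ≤ A.card + B.card) :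
    ∑ z ∈ A, ∑ y1 ∈ ((A ∪ B).erase z).filter (fun y1 => ¬ z < y1 ∧ MinIn ((A ∪ B).erase z) y1),
      ∑ y2 ∈ (((A ∪ B).erase z).erase y1).filter (fun y2 => z < y2 ∧ MinIn (((A ∪ B).erase z).erase y1) y2),
        e ((((A ∪ B).erase z).erase y1).erase y2) / e ((A ∪ B).erase z)
      = (((A.card : ℚ) - 1) * (((A.card : ℚ) - 2) * g2 A + B.card * tau A)) /
        (((A.card : ℚ) + B.card - 1) * ((A.card : ℚ) + B.card - 2)) := by
  have hdis := Finset.disjoint_left.1 (inc_disj h)
  have hn' : (3 : ℚ) ≤ (A.card : ℚ) + B.card := by exact_mod_cast hn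
  have d1 : ((A.card : ℚ) + B.card - 1) ≠ 0 := by linarith
  have d2 : ((A.card : ℚ) + B.card - 2) ≠ 0 := by linarith
  set k1 : ℚ := (((A.card : ℚ) - 1) * ((A.card : ℚ) - 2)) / (((A.card : ℚ) + B.card - 1) * ((A.card : ℚ) + B.card - 2)) with hk1
  set k2 : ℚ := (((A.card : ℚ) - 1) * (B.card : ℚ)) / (((A.card : ℚ) + B.card - 1) * ((A.card : ℚ) + B.card - 2)) with hk2
  have hR : (((A.card : ℚ) - 1) * (((A.card : ℚ) - 2) * g2 A + B.card * tau A)) /
        (((A.card : ℚ) + B.card - 1) * ((A.card : ℚ) + B.card - 2)) = k1 * g2 A + k2 * tau A := by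
    rw [hk1, hk2]
    field_simp
  rw [hR, tau_eq A]
  unfold g2
  rw [mul_sum, mul_sum, ← sum_add_distrib]
  refine sum_congr rfl fun z hz => ?_
  have hzB : z ∉ B := hdis hz
  rw [er_left hzB]
  have hI : Inc (A.erase z) B := inc_sub h (erase_subset _ _) subset_rfl
  have hsplit : (A.erase z ∪ B).filter (fun y1 => ¬ z < y1 ∧ MinIn (A.erase z ∪ B) y1) =
      (A.erase z).filter (fun y1 => ¬ z < y1 ∧ MinIn (A.erase z) y1) ∪ B.filter (MinIn B) := by
    ext y
    simp only [mem_filter, mem_union]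
    constructor
    · rintro ⟨h1 | h1, h2, h3⟩
      · exact Or.inl ⟨h1, h2, (min_sub hI h1).1 h3⟩
      · exact Or.inr ⟨h1, (min_sub' hI h1).1 h3⟩
    · rintro (⟨h1, h2, h3⟩ | ⟨h1, h3⟩)
      · exact ⟨Or.inl h1, h2, (min_sub hI h1).2 h3⟩
      · exact ⟨Or.inr h1, fun hlt => (h z hz y h1).1 hlt.le, (min_sub' hI h1).2 h3⟩
  have hd : Disjoint ((A.erase z).filter (fun y1 => ¬ z < y1 ∧ MinIn (A.erase z) y1)) (B.filter (MinIn B)) :=
    (inc_disj hI).mono (filter_subset _ _) (filter_subset _ _)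
  rw [hsplit, sum_union hd]
  congr 1
  · rw [mul_sum]
    refine sum_congr rfl fun y1 hy1 => ?_
    obtain ⟨m1, -, -⟩ := mem_filter.1 hy1
    have hy1B : y1 ∉ B := hdis (mem_of_mem_erase m1)
    have hI2 : Inc ((A.erase z).erase y1) B := inc_sub hI (erase_subset _ _) subset_rfl
    rw [er_left hy1B, mul_sum]
    refine sum_congr ?_ fun y2 hy2 => ?_
    · ext y
      simp only [mem_filter, mem_union]
      constructor
      · rintro ⟨h1 | h1, h2, h3⟩
        · exact ⟨h1, h2, (min_sub hI2 h1).1 h3⟩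
        · exact absurd h2.le (h z hz y h1).1
      · rintro ⟨h1, h2, h3⟩
        exact ⟨Or.inl h1, h2, (min_sub hI2 h1).2 h3⟩
    · obtain ⟨m2A, hlt, -⟩ := mem_filter.1 hy2
      have hy2B : y2 ∉ B := hdis (mem_of_mem_erase (mem_of_mem_erase m2A))
      rw [er_left hy2B]
      have hI3 : Inc (((A.erase z).erase y1).erase y2) B := inc_sub hI2 (erase_subset _ _) subset_rfl
      have r1 := rat1 hI hI2 (card_erase_add_one m1).symm
      have r2 := rat1 hI2 hI3 (card_erase_add_one m2A).symm
      have p1 := (e_pos (((A.erase z).erase y1) ∪ B)).ne'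
      have p2 := (e_pos ((A.erase z).erase y1)).ne'
      have c1 : ((A.erase z).card : ℚ) = A.card - 1 := card_er hz
      have c2 : (((A.erase z).erase y1).card : ℚ) = A.card - 2 := by
        rw [card_er m1, c1]; ring
      rw [c1] at r1
      rw [c2] at r2
      have s1 : e (((A.erase z).erase y1).erase y2 ∪ B) / e (A.erase z ∪ B) =
          (e (((A.erase z).erase y1).erase y2 ∪ B) / e ((A.erase z).erase y1 ∪ B)) *
          (e ((A.erase z).erase y1 ∪ B) / e (A.erase z ∪ B)) := by
        rw [div_mul_div_cancel₀ p1]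
      rw [s1, r1, r2]
      have d1' : ((A.card : ℚ) - 1 + B.card) ≠ 0 := by
        have : ((A.card : ℚ) - 1 + B.card) = (A.card : ℚ) + B.card - 1 := by ring
        rw [this]; exact d1
      have d2' : ((A.card : ℚ) - 2 + B.card) ≠ 0 := by
        have : ((A.card : ℚ) - 2 + B.card) = (A.card : ℚ) + B.card - 2 := by ring
        rw [this]; exact d2
      have p3 := (e_pos (A.erase z)).ne'
      rw [hk1]
      have q1 : (A.card : ℚ) + B.card - 1 = (A.card : ℚ) - 1 + B.card := by ring
      have q2 : (A.card : ℚ) + B.card - 2 = (A.card : ℚ) - 2 + B.card := by ring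
      rw [q1, q2]
      field_simp
  · have hone := last_one hB
    have e2 : ∑ y1 ∈ B.filter (MinIn B), ∑ y2 ∈ ((A.erase z ∪ B).erase y1).filter
        (fun y2 => z < y2 ∧ MinIn ((A.erase z ∪ B).erase y1) y2),
        e (((A.erase z ∪ B).erase y1).erase y2) / e (A.erase z ∪ B) =
        ∑ y1 ∈ B.filter (MinIn B), (e (B.erase y1) / e B) *
          (k2 * ∑ y2 ∈ (A.erase z).filter (fun y2 => z < y2 ∧ MinIn (A.erase z) y2),
            e ((A.erase z).erase y2) / e (A.erase z)) := by
      refine sum_congr rfl fun y1 hy1 => ?_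
      obtain ⟨m1, -⟩ := mem_filter.1 hy1
      have hy1A : y1 ∉ A.erase z := fun hc => hdis (mem_of_mem_erase hc) m1
      have hI2 : Inc (A.erase z) (B.erase y1) := inc_sub hI subset_rfl (erase_subset _ _)
      rw [er_right hy1A, mul_sum, mul_sum]
      refine sum_congr ?_ fun y2 hy2 => ?_
      · ext y
        simp only [mem_filter, mem_union]
        constructor
        · rintro ⟨h1 | h1, h2, h3⟩
          · exact ⟨h1, h2, (min_sub hI2 h1).1 h3⟩
          · exact absurd h2.le (h z hz y (mem_of_mem_erase h1)).1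
        · rintro ⟨h1, h2, h3⟩
          exact ⟨Or.inl h1, h2, (min_sub hI2 h1).2 h3⟩
      · obtain ⟨m2A, hlt, -⟩ := mem_filter.1 hy2
        have hy2B : y2 ∉ B.erase y1 := fun hc => hdis (mem_of_mem_erase m2A) (mem_of_mem_erase hc)
        rw [er_left hy2B]
        have hI3 : Inc ((A.erase z).erase y2) (B.erase y1) := inc_sub hI2 (erase_subset _ _) subset_rfl
        have r1 := rat2 hI hI2 (card_erase_add_one m1).symm
        have r2 := rat1 hI2 hI3 (card_erase_add_one m2A).symm
        have p1 := (e_pos (A.erase z ∪ B.erase y1)).ne'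
        have c1 : ((A.erase z).card : ℚ) = A.card - 1 := card_er hz
        have c2 : ((B.erase y1).card : ℚ) = B.card - 1 := card_er m1
        rw [c1] at r1
        rw [c1, c2] at r2
        have s1 : e ((A.erase z).erase y2 ∪ B.erase y1) / e (A.erase z ∪ B) =
            (e ((A.erase z).erase y2 ∪ B.erase y1) / e (A.erase z ∪ B.erase y1)) *
            (e (A.erase z ∪ B.erase y1) / e (A.erase z ∪ B)) := by
          rw [div_mul_div_cancel₀ p1]
        rw [s1, r1, r2, hk2]
        have q1 : (B.card : ℚ) + (A.card - 1) = (A.card : ℚ) + B.card - 1 := by ring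
        have q2 : (A.card : ℚ) - 1 + (B.card - 1) = (A.card : ℚ) + B.card - 2 := by ring
        rw [q1, q2]
        have p3 := (e_pos (A.erase z)).ne'
        have p4 := (e_pos B).ne'
        field_simp
    rw [e2, ← sum_mul, hone, one_mul]

theorem g2_par {A B : Finset P} (h : Inc A B) (hA : A.Nonempty) (hB : B.Nonempty)
    (hn : 3 ≤ A.card + B.card) :
    g2 (A ∪ B) = (((A.card : ℚ) - 1) * (((A.card : ℚ) - 2) * g2 A + B.card * tau A) +
      ((B.card : ℚ) - 1) * (((B.card : ℚ) - 2) * g2 B + A.card * tau B)) /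
      (((A.card : ℚ) + B.card - 1) * ((A.card : ℚ) + B.card - 2)) := by
  have h1 := g2_side h hB hn
  have h2 := g2_side (inc_symm h) hA (by omega)
  rw [union_comm B A] at h2
  conv_lhs => unfold g2
  rw [sum_union (inc_disj h), h1, h2]
  have e1 : (B.card : ℚ) + A.card - 1 = (A.card : ℚ) + B.card - 1 := by ring
  have e2 : (B.card : ℚ) + A.card - 2 = (A.card : ℚ) + B.card - 2 := by ring
  rw [e1, e2]
  ring

private theorem g3_side {A B : Finset P} (h : Inc A B) (hA : A.Nonempty) (hB : B.Nonempty) (hn : 3 ≤ A.card + B.card) :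
    ∑ l ∈ A, ∑ a ∈ (A ∪ B).filter (fun a => PPar (A ∪ B) l a), ∑ z ∈ ((A ∪ B).erase l).erase a,
      e ((((A ∪ B).erase l).erase z).erase a) / e (((A ∪ B).erase l).erase z)
      = (((A.card : ℚ) - 1) * (((A.card : ℚ) - 2) * g3 A + B.card * tau A)) /
        ((A.card : ℚ) + B.card - 2) := by
  have hdis := Finset.disjoint_left.1 (inc_disj h)
  have hn' : (3 : ℚ) ≤ (A.card : ℚ) + B.card := by exact_mod_cast hn
  have d2 : ((A.card : ℚ) + B.card - 2) ≠ 0 := by linarith
  -- the sum in the definition of `g3 A`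
  set s3 : ℚ := ∑ l ∈ A, ∑ a ∈ A.filter (fun a => PPar A l a), ∑ z ∈ (A.erase l).erase a,
    e (((A.erase l).erase z).erase a) / e ((A.erase l).erase z) with hs3
  have hg3 : ((A.card : ℚ) - 1) * g3 A = s3 := by
    unfold g3
    rw [← hs3]
    by_cases h1 : (A.card : ℚ) - 1 = 0
    · -- one element: the sum is zero
      have hc : A.card = 1 := by
        have : (A.card : ℚ) = 1 := by linarith
        exact_mod_cast this
      obtain ⟨x, rfl⟩ := card_eq_one.1 hc
      rw [h1, zero_mul, hs3]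
      symm
      refine sum_eq_zero fun l hl => ?_
      refine sum_eq_zero fun a ha => ?_
      exfalso
      obtain ⟨h2, h3, -⟩ := mem_filter.1 ha
      rw [mem_singleton] at hl h2
      rw [hl, h2] at h3
      exact lt_irrefl _ h3
    · rw [mul_div_cancel₀ _ h1]
  have hR : (((A.card : ℚ) - 1) * (((A.card : ℚ) - 2) * g3 A + B.card * tau A)) / ((A.card : ℚ) + B.card - 2) =
      (((A.card : ℚ) - 2) / ((A.card : ℚ) + B.card - 2)) * s3 +
      ((B.card : ℚ) * (((A.card : ℚ) - 1) / ((A.card : ℚ) + B.card - 2))) * tau A := by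
    rw [← hg3]
    field_simp
  rw [hR, hs3]
  unfold tau
  rw [mul_sum, mul_sum, ← sum_add_distrib]
  refine sum_congr rfl fun l hl => ?_
  rw [ppar_filter h hl, mul_sum, mul_sum, ← sum_add_distrib]
  refine sum_congr rfl fun a ha => ?_
  obtain ⟨haA, hla, -⟩ := mem_filter.1 ha
  have hal : a ∈ A.erase l := mem_erase.2 ⟨hla.ne', haA⟩
  have hlB : l ∉ B := hdis hl
  have haB : a ∉ B := hdis haA
  have hI : Inc (A.erase l) B := inc_sub h (erase_subset _ _) subset_rfl
  rw [er_left hlB, er_left haB, sum_union (inc_disj (inc_sub hI (erase_subset _ _) subset_rfl))]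
  congr 1
  · rw [mul_sum]
    refine sum_congr rfl fun z hz => ?_
    have hz1 : z ∈ A.erase l := mem_of_mem_erase hz
    have hzB : z ∉ B := hdis (mem_of_mem_erase hz1)
    have hza : a ∈ (A.erase l).erase z := by
      rw [mem_erase]
      exact ⟨(ne_of_mem_erase hz).symm, hal⟩
    rw [er_left hzB, er_left haB]
    have hI2 : Inc ((A.erase l).erase z) B := inc_sub hI (erase_subset _ _) subset_rfl
    have hI3 : Inc (((A.erase l).erase z).erase a) B := inc_sub hI2 (erase_subset _ _) subset_rfl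
    rw [rat1 hI2 hI3 (card_erase_add_one hza).symm]
    have c2 : (((A.erase l).erase z).card : ℚ) = A.card - 2 := by
      rw [card_er hz1, card_er hl]; ring
    rw [c2]
    congr 2
    ring
  · have e3 : ∀ z ∈ B, e (((A.erase l ∪ B).erase z).erase a) / e ((A.erase l ∪ B).erase z) =
        (((A.card : ℚ) - 1) / ((A.card : ℚ) + B.card - 2)) * (e ((A.erase l).erase a) / e (A.erase l)) := by
      intro z hz
      have hzA : z ∉ A.erase l := fun hc => hdis (mem_of_mem_erase hc) hz
      have haB' : a ∉ B.erase z := fun hc => haB (mem_of_mem_erase hc)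
      rw [er_right hzA, er_left haB']
      have hI2 : Inc (A.erase l) (B.erase z) := inc_sub hI subset_rfl (erase_subset _ _)
      have hI3 : Inc ((A.erase l).erase a) (B.erase z) := inc_sub hI2 (erase_subset _ _) subset_rfl
      rw [rat1 hI2 hI3 (card_erase_add_one hal).symm, card_er hl, card_er hz]
      congr 2
      ring
    rw [sum_congr rfl e3, sum_const, nsmul_eq_mul]
    ring

theorem g3_par {A B : Finset P} (h : Inc A B) (hA : A.Nonempty) (hB : B.Nonempty)
    (hn : 3 ≤ A.card + B.card) :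
    g3 (A ∪ B) = (((A.card : ℚ) - 1) * (((A.card : ℚ) - 2) * g3 A + B.card * tau A) +
      ((B.card : ℚ) - 1) * (((B.card : ℚ) - 2) * g3 B + A.card * tau B)) /
      (((A.card : ℚ) + B.card - 1) * ((A.card : ℚ) + B.card - 2)) := by
  have h1 := g3_side h hA hB hn
  have h2 := g3_side (inc_symm h) hB hA (by omega)
  rw [union_comm B A] at h2
  have hc : (((A ∪ B).card : ℕ) : ℚ) = (A.card : ℚ) + B.card := by
    rw [card_union_of_disjoint (inc_disj h)]
    push_cast
    ring
  conv_lhs => unfold g3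
  rw [sum_union (inc_disj h), h1, h2, hc]
  have hn' : (3 : ℚ) ≤ (A.card : ℚ) + B.card := by exact_mod_cast hn
  have d1 : ((A.card : ℚ) + B.card - 1) ≠ 0 := by linarith
  have d2 : ((A.card : ℚ) + B.card - 2) ≠ 0 := by linarith
  have e2 : (B.card : ℚ) + A.card - 2 = (A.card : ℚ) + B.card - 2 := by ring
  rw [e2]
  field_simp

end Pool.Agent.Lib.MP_54b7d9_co.SP
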