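import Pool.Agent.Lib.MP_54b7d9_co.SP.A
import Pool.Agent.Lib.MP_54b7d9_co.SP.C2
import Pool.Agent.Lib.MP_54b7d9_co.SP.C4

set_option autoImplicit false

namespace Pool.Agent.Lib.MP_54b7d9_co.SP

open Classical

variable {P : Type} [PartialOrder P]

private theorem erase_left {A B : Finset P} {x : P} (hx : x ∉ B) :
    (A ∪ B).erase x = A.erase x ∪ B := by
  ext y
  simp only [Finset.mem_erase, Finset.mem_union]
  constructor
  · rintro ⟨h1, h2 | h2⟩
    · exact Or.inl ⟨h1, h2⟩
    · exact Or.inr h2
  · rintro (⟨h1, h2⟩ | h2)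
    · exact ⟨h1, Or.inl h2⟩
    · exact ⟨fun h => hx (h ▸ h2), Or.inr h2⟩

private theorem Below.notMem {A B : Finset P} (h : Below A B) {x : P} (hx : x ∈ A) : x ∉ B :=
  fun h' => lt_irrefl _ (h x hx x h')

private theorem Below.erase {A B : Finset P} (h : Below A B) (x : P) : Below (A.erase x) B :=
  fun a ha b hb => h a (Finset.mem_of_mem_erase ha) b hb

private theorem filter_top {A B : Finset P} (h : Below A B) (hA : A.Nonempty) {x : P}
    (hx : x ∈ B) : (A ∪ B).filter (fun y => PPar (A ∪ B) x y) = ∅ := by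
  refine Finset.filter_eq_empty_iff.mpr ?_
  rintro y hy ⟨hxy, hv⟩
  obtain ⟨a, ha⟩ := hA
  have h1 : a < y := (h a ha x hx).trans hxy
  have h2 := hv a (Finset.mem_union_left _ ha) h1
  exact lt_irrefl _ (h2 ▸ h a ha x hx)

theorem tau_ser {A B : Finset P} (h : Below A B) (hA : 2 ≤ A.card) : tau (A ∪ B) = tau A := by
  have hne : A.Nonempty := Finset.card_pos.mp (by omega)
  have hdis : Disjoint A B := Finset.disjoint_left.mpr fun x hx => h.notMem hx
  unfold tau
  rw [Finset.sum_union hdis]
  have hB : ∑ x ∈ B, ∑ y ∈ (A ∪ B).filter (fun y => PPar (A ∪ B) x y),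
      e (((A ∪ B).erase x).erase y) / e ((A ∪ B).erase x) = 0 := by
    refine Finset.sum_eq_zero fun x hx => ?_
    rw [filter_top h hne hx, Finset.sum_empty]
  rw [hB, add_zero]
  refine Finset.sum_congr rfl fun x hx => ?_
  have hfil : (A ∪ B).filter (fun y => PPar (A ∪ B) x y) = A.filter (fun y => PPar A x y) := by
    ext y
    rw [Finset.mem_filter, Finset.mem_filter, Finset.mem_union]
    constructor
    · rintro ⟨hy, hxy, hv⟩
      rcases hy with hy | hy
      · exact ⟨hy, hxy, fun v hv' hvy => hv v (Finset.mem_union_left _ hv') hvy⟩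
      · exfalso
        obtain ⟨a, ha, b, hb, hab⟩ := Finset.one_lt_card.mp (show 1 < A.card by omega)
        exact hab ((hv a (Finset.mem_union_left _ ha) (h a ha y hy)).trans
          (hv b (Finset.mem_union_left _ hb) (h b hb y hy)).symm)
    · rintro ⟨hy, hxy, hv⟩
      refine ⟨Or.inl hy, hxy, fun v hv' hvy => ?_⟩
      rcases Finset.mem_union.mp hv' with hv' | hv'
      · exact hv v hv' hvy
      · exact absurd (h y hy v hv') hvy.asymm
  rw [hfil]
  refine Finset.sum_congr rfl fun y hy => ?_
  have hyA : y ∈ A := (Finset.mem_filter.mp hy).1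
  rw [erase_left (h.notMem hx), erase_left (h.notMem hyA), e_ser (h.erase x),
    e_ser ((h.erase x).erase y), mul_div_mul_right _ _ (e_pos B).ne']

theorem tau_ser_one {B : Finset P} {x : P} (h : Below {x} B) (hB : B.Nonempty) :
    tau ({x} ∪ B) = 1 := by
  have hx : x ∉ B := h.notMem (Finset.mem_singleton_self x)
  have hdis : Disjoint ({x} : Finset P) B := Finset.disjoint_singleton_left.mpr hx
  unfold tau
  rw [Finset.sum_union hdis]
  have h0 : ∑ z ∈ B, ∑ y ∈ ({x} ∪ B).filter (fun y => PPar ({x} ∪ B) z y),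
      e ((({x} ∪ B).erase z).erase y) / e (({x} ∪ B).erase z) = 0 := by
    refine Finset.sum_eq_zero fun z hz => ?_
    rw [filter_top h (Finset.singleton_nonempty x) hz, Finset.sum_empty]
  rw [h0, add_zero, Finset.sum_singleton]
  have hfil : ({x} ∪ B).filter (fun y => PPar ({x} ∪ B) x y) = B.filter (MinIn B) := by
    ext y
    rw [Finset.mem_filter, Finset.mem_filter, Finset.mem_union, Finset.mem_singleton]
    constructor
    · rintro ⟨hy, hxy, hv⟩
      rcases hy with hy | hy
      · exact absurd hxy (by rw [hy]; exact lt_irrefl _)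
      · refine ⟨hy, fun v hv' hvy => ?_⟩
        have := hv v (Finset.mem_union_right _ hv') hvy
        exact hx (this ▸ hv')
    · rintro ⟨hy, hv⟩
      refine ⟨Or.inr hy, h x (Finset.mem_singleton_self x) y hy, fun v hv' hvy => ?_⟩
      rcases Finset.mem_union.mp hv' with hv' | hv'
      · exact Finset.mem_singleton.mp hv'
      · exact absurd hvy (hv v hv')
  have herase : ({x} ∪ B).erase x = B := by
    rw [erase_left hx]
    simp
  rw [hfil, herase, ← Finset.sum_div, ← e_last hB, div_self (e_pos B).ne']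

end Pool.Agent.Lib.MP_54b7d9_co.SP
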