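import Pool.Agent.Lib.MP_54b7d9_co.SP.A
import Pool.Agent.Lib.MP_54b7d9_co.SP.C2
import Pool.Agent.Lib.MP_54b7d9_co.SP.C4

set_option autoImplicit false

namespace Pool.Agent.Lib.MP_54b7d9_co.SP

open Classical

variable {P : Type} [PartialOrder P]

namespace D5

private theorem below_left {A A' B : Finset P} (h : Below A B) (hs : A' ⊆ A) : Below A' B :=
  fun a ha b hb => h a (hs ha) b hb

private theorem below_right {A B B' : Finset P} (h : Below A B) (hs : B' ⊆ B) : Below A B' :=
  fun a ha b hb => h a ha b (hs hb)

private theorem disj {A B : Finset P} (h : Below A B) : Disjoint A B :=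
  Finset.disjoint_left.mpr fun a ha hb => lt_irrefl a (h a ha a hb)

private theorem erase_left {A B : Finset P} (h : Below A B) {z : P} (hz : z ∈ A) :
    (A ∪ B).erase z = A.erase z ∪ B := by
  rw [Finset.erase_union_distrib, Finset.erase_eq_of_notMem (s := B)]
  exact fun hb => lt_irrefl z (h z hz z hb)

private theorem erase_right {A B : Finset P} (h : Below A B) {z : P} (hz : z ∈ B) :
    (A ∪ B).erase z = A ∪ B.erase z := by
  rw [Finset.erase_union_distrib, Finset.erase_eq_of_notMem (s := A)]
  exact fun ha => lt_irrefl z (h z ha z hz)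

private theorem filter_min {A B : Finset P} (h : Below A B) (hA : A.Nonempty) (p : P → Prop)
    [DecidablePred p] :
    (A ∪ B).filter (fun y => p y ∧ MinIn (A ∪ B) y) = A.filter (fun y => p y ∧ MinIn A y) := by
  ext y
  simp only [Finset.mem_filter, Finset.mem_union]
  constructor
  · rintro ⟨hy | hy, hp, hm⟩
    · exact ⟨hy, hp, fun v hv => hm v (Finset.mem_union_left _ hv)⟩
    · obtain ⟨a, ha⟩ := hA
      exact absurd (h a ha y hy) (hm a (Finset.mem_union_left _ ha))
  · rintro ⟨hy, hp, hm⟩
    refine ⟨Or.inl hy, hp, fun v hv => ?_⟩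
    rcases Finset.mem_union.mp hv with hv | hv
    · exact hm v hv
    · exact fun hlt => lt_asymm (h y hy v hv) hlt

/-- the part of `g2` of a fixed `z` -/
private noncomputable def G (S : Finset P) (z : P) : ℚ :=
  ∑ y1 ∈ (S.erase z).filter (fun y1 => ¬ z < y1 ∧ MinIn (S.erase z) y1),
    ∑ y2 ∈ ((S.erase z).erase y1).filter (fun y2 => z < y2 ∧ MinIn ((S.erase z).erase y1) y2),
      e (((S.erase z).erase y1).erase y2) / e (S.erase z)

private theorem g2_eq (S : Finset P) : g2 S = ∑ z ∈ S, G S z := rfl

/-- the part of `tau` of a fixed `x` -/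
private noncomputable def T (S : Finset P) (x : P) : ℚ :=
  ∑ y ∈ S.filter (fun y => PPar S x y), e ((S.erase x).erase y) / e (S.erase x)

private theorem tau_eq (S : Finset P) : tau S = ∑ x ∈ S, T S x := rfl

private theorem erase_ne {A : Finset P} (hA : 2 ≤ A.card) {z : P} : (A.erase z).Nonempty := by
  rw [← Finset.card_pos]
  have := Finset.pred_card_le_card_erase (s := A) (a := z)
  omega

private theorem erase_erase_ne {A : Finset P} (hA : 3 ≤ A.card) {z y : P} :
    ((A.erase z).erase y).Nonempty := by
  apply erase_ne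
  have := Finset.pred_card_le_card_erase (s := A) (a := z)
  omega

private theorem G_right {A B : Finset P} (h : Below A B) (hA : 2 ≤ A.card) {z : P} (hz : z ∈ B) :
    G (A ∪ B) z = 0 := by
  have hne : A.Nonempty := Finset.card_pos.mp (by omega)
  unfold G
  rw [erase_right h hz, filter_min (below_right h (Finset.erase_subset _ _)) hne (fun y => ¬ z < y)]
  apply Finset.sum_eq_zero
  intro y1 hy1
  have hy1A : y1 ∈ A := (Finset.mem_filter.mp hy1).1
  rw [erase_left (below_right h (Finset.erase_subset _ _)) hy1A,
    filter_min (below_left (below_right h (Finset.erase_subset _ _)) (Finset.erase_subset _ _))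
      (erase_ne hA) (fun y => z < y)]
  apply Finset.sum_eq_zero
  intro y2 hy2
  obtain ⟨hy2A, hlt, -⟩ := Finset.mem_filter.mp hy2
  exact absurd hlt (lt_asymm (h y2 (Finset.mem_of_mem_erase hy2A) z hz))

private theorem G_left {A B : Finset P} (h : Below A B) (hA : 3 ≤ A.card) {z : P} (hz : z ∈ A) :
    G (A ∪ B) z = G A z := by
  have h1 : Below (A.erase z) B := below_left h (Finset.erase_subset _ _)
  unfold G
  rw [erase_left h hz, filter_min h1 (erase_ne (by omega)) (fun y => ¬ z < y)]
  apply Finset.sum_congr rfl
  intro y1 hy1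
  have hy1A : y1 ∈ A.erase z := (Finset.mem_filter.mp hy1).1
  have h2 : Below ((A.erase z).erase y1) B := below_left h1 (Finset.erase_subset _ _)
  rw [erase_left h1 hy1A, filter_min h2 (erase_erase_ne hA) (fun y => z < y)]
  apply Finset.sum_congr rfl
  intro y2 hy2
  have hy2A : y2 ∈ (A.erase z).erase y1 := (Finset.mem_filter.mp hy2).1
  rw [erase_left h2 hy2A, e_ser (below_left h2 (Finset.erase_subset _ _)), e_ser h1,
    mul_div_mul_right _ _ (e_pos B).ne']

private theorem sum_min_div {B : Finset P} (hB : B.Nonempty) :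
    ∑ y ∈ B.filter (MinIn B), e (B.erase y) / e B = 1 := by
  rw [← Finset.sum_div, ← e_last hB, div_self (e_pos B).ne']

private theorem G_two {B : Finset P} {z w : P} (hzw : z ≠ w) (h : Below {z, w} B) (hB : B.Nonempty) :
    G ({z, w} ∪ B) z = 1 - T {z, w} z := by
  have hz : z ∈ ({z, w} : Finset P) := by simp
  have e1 : ({z, w} : Finset P).erase z = {w} := by
    ext v
    simp only [Finset.mem_erase, Finset.mem_insert, Finset.mem_singleton]
    constructor
    · rintro ⟨h1, h2⟩
      exact h2.resolve_left h1
    · rintro rfl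
      exact ⟨hzw.symm, Or.inr rfl⟩
  have e2 : ({w} : Finset P).erase w = ∅ := by simp
  have h1 : Below {w} B := below_left h (by intro v hv; simp at hv; simp [hv])
  have hT : T {z, w} z = if z < w then 1 else 0 := by
    unfold T
    split_ifs with hlt
    · have : ({z, w} : Finset P).filter (fun y => PPar {z, w} z y) = {w} := by
        ext v
        simp only [Finset.mem_filter, Finset.mem_insert, Finset.mem_singleton]
        constructor
        · rintro ⟨h1 | h1, h2, -⟩
          · exact absurd (h1 ▸ h2) (lt_irrefl z)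
          · exact h1
        · rintro rfl
          refine ⟨Or.inr rfl, hlt, ?_⟩
          intro u hu hu2
          simp only [Finset.mem_insert, Finset.mem_singleton] at hu
          rcases hu with hu | hu
          · exact hu
          · exact absurd (hu ▸ hu2) (lt_irrefl _)
      rw [this, Finset.sum_singleton, e1, e2, e_small (by simp), e_small (by simp), div_one]
    · apply Finset.sum_eq_zero
      intro v hv
      simp only [Finset.mem_filter, Finset.mem_insert, Finset.mem_singleton] at hv
      obtain ⟨h1 | h1, h2, -⟩ := hv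
      · exact absurd (h1 ▸ h2) (lt_irrefl z)
      · exact absurd (h1 ▸ h2) hlt
  rw [hT]
  unfold G
  rw [erase_left h hz, e1, filter_min h1 (Finset.singleton_nonempty w) (fun y => ¬ z < y)]
  split_ifs with hlt
  · rw [sub_self]
    apply Finset.sum_eq_zero
    intro y1 hy1
    obtain ⟨hy, hn, -⟩ := Finset.mem_filter.mp hy1
    rw [Finset.mem_singleton] at hy
    exact absurd (hy ▸ hlt) hn
  · have : ({w} : Finset P).filter (fun y => ¬ z < y ∧ MinIn {w} y) = {w} := by
      ext v
      simp only [Finset.mem_filter, Finset.mem_singleton]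
      constructor
      · exact fun hv => hv.1
      · rintro rfl
        refine ⟨rfl, hlt, ?_⟩
        intro u hu
        rw [Finset.mem_singleton] at hu
        rw [hu]
        exact lt_irrefl _
    rw [this, Finset.sum_singleton, erase_left h1 (Finset.mem_singleton_self w), e2,
      Finset.empty_union, e_ser h1, e_small (by simp : ({w} : Finset P).card ≤ 1), one_mul,
      sub_zero]
    have h3 : B.filter (fun y2 => z < y2 ∧ MinIn B y2) = B.filter (MinIn B) := by
      apply Finset.filter_congr
      intro y hy
      exact ⟨fun h => h.2, fun hm => ⟨h z hz y hy, hm⟩⟩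
    rw [h3]
    exact sum_min_div hB

private theorem G_one {B : Finset P} {x z : P} (h : Below {x} B) (hz : z ∈ B) :
    G ({x} ∪ B) z = T B z := by
  have h1 : Below {x} (B.erase z) := below_right h (Finset.erase_subset _ _)
  have hx : x < z := h x (Finset.mem_singleton_self x) z hz
  unfold G T
  rw [erase_right h hz, filter_min h1 (Finset.singleton_nonempty x) (fun y => ¬ z < y)]
  have h2 : ({x} : Finset P).filter (fun y => ¬ z < y ∧ MinIn {x} y) = {x} := by
    ext v
    simp only [Finset.mem_filter, Finset.mem_singleton]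
    constructor
    · exact fun hv => hv.1
    · rintro rfl
      refine ⟨rfl, lt_asymm hx, ?_⟩
      intro u hu
      rw [Finset.mem_singleton] at hu
      rw [hu]
      exact lt_irrefl _
  have e2 : ({x} : Finset P).erase x = ∅ := by simp
  rw [h2, Finset.sum_singleton, erase_left h1 (Finset.mem_singleton_self x), e2,
    Finset.empty_union, e_ser h1, e_small (by simp : ({x} : Finset P).card ≤ 1), one_mul]
  apply Finset.sum_congr
  · ext y
    simp only [Finset.mem_filter, Finset.mem_erase]
    constructor
    · rintro ⟨⟨hyz, hy⟩, hlt, hm⟩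
      refine ⟨hy, hlt, ?_⟩
      intro v hv hvy
      by_contra hne
      exact hm v (Finset.mem_erase.mpr ⟨hne, hv⟩) hvy
    · rintro ⟨hy, hlt, hm⟩
      refine ⟨⟨hlt.ne', hy⟩, hlt, ?_⟩
      intro v hv hvy
      exact (Finset.mem_erase.mp hv).1 (hm v (Finset.mem_erase.mp hv).2 hvy)
  · intro y _
    rfl

private theorem G_one_zero {B : Finset P} {x : P} (h : Below {x} B) : G ({x} ∪ B) x = 0 := by
  unfold G
  rw [erase_left h (Finset.mem_singleton_self x), show ({x} : Finset P).erase x = ∅ by simp,
    Finset.empty_union]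
  apply Finset.sum_eq_zero
  intro y1 hy1
  obtain ⟨hy, hn, -⟩ := Finset.mem_filter.mp hy1
  exact absurd (h x (Finset.mem_singleton_self x) y1 hy) hn

end D5

open D5

theorem g2_ser {A B : Finset P} (h : Below A B) (hA : 3 ≤ A.card) :
    g2 (A ∪ B) = g2 A := by
  rw [g2_eq, g2_eq, Finset.sum_union (disj h)]
  rw [Finset.sum_eq_zero (s := B) (fun z hz => G_right h (by omega) hz), add_zero]
  exact Finset.sum_congr rfl fun z hz => G_left h hA hz

theorem g2_ser_two {A B : Finset P} (h : Below A B) (hA : A.card = 2) (hB : B.Nonempty) :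
    g2 (A ∪ B) = 2 - tau A := by
  rw [g2_eq, tau_eq, Finset.sum_union (disj h)]
  rw [Finset.sum_eq_zero (s := B) (fun z hz => G_right h (by omega) hz), add_zero]
  obtain ⟨a, b, hab, rfl⟩ := Finset.card_eq_two.mp hA
  rw [Finset.sum_pair hab, Finset.sum_pair hab, G_two hab h hB]
  have : ({a, b} : Finset P) = {b, a} := Finset.pair_comm a b
  rw [this] at h ⊢
  rw [G_two hab.symm h hB]
  ring

theorem g2_ser_one {B : Finset P} {x : P} (h : Below {x} B) (hB : B.Nonempty) :
    g2 ({x} ∪ B) = tau B := by
  rw [g2_eq, tau_eq, Finset.sum_union (disj h), Finset.sum_singleton, G_one_zero h, zero_add]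
  exact Finset.sum_congr rfl fun z hz => G_one h hz

end Pool.Agent.Lib.MP_54b7d9_co.SP
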