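import Pool.Agent.Lib.MP_54b7d9_co.SP.Defs
import Pool.Agent.Lib.MP_54b7d9_co.SP.A
import Pool.Agent.Lib.MP_54b7d9_co.SP.C

set_option autoImplicit false

namespace Pool.Agent.Lib.MP_54b7d9_co.SP

open Classical

variable {P : Type} [PartialOrder P]

private theorem below_notMem {A B : Finset P} (h : Below A B) {a : P} (ha : a ∈ A) : a ∉ B :=
  fun hb => lt_irrefl _ (h a ha a hb)

private theorem below_mono {A B A' B' : Finset P} (h : Below A B) (hA : A' ⊆ A) (hB : B' ⊆ B) :
    Below A' B' := fun a ha b hb => h a (hA ha) b (hB hb)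

theorem g3_ser {A B : Finset P} (h : Below A B) (hA : 2 ≤ A.card) :
    g3 (A ∪ B) = (((A.card : ℚ) - 1) * g3 A + B.card * tau A) /
      ((A.card : ℚ) + B.card - 1) := by
  have hdisj : Disjoint A B := Finset.disjoint_left.2 fun a ha => below_notMem h ha
  have hcard : (A ∪ B).card = A.card + B.card := Finset.card_union_of_disjoint hdisj
  have hfil : ∀ l ∈ A, (A ∪ B).filter (fun a => PPar (A ∪ B) l a) =
      A.filter (fun a => PPar A l a) := by
    intro l hl
    ext a
    simp only [Finset.mem_filter, Finset.mem_union, PPar]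
    constructor
    · rintro ⟨ha, hla, hu⟩
      rcases ha with ha | ha
      · exact ⟨ha, hla, fun v hv hva => hu v (Or.inl hv) hva⟩
      · exfalso
        obtain ⟨c, hc, hcl⟩ : ∃ c ∈ A, c ≠ l := by
          by_contra hcon
          push Not at hcon
          have : A ⊆ {l} := fun c hc => Finset.mem_singleton.2 (hcon c hc)
          have := Finset.card_le_card this
          simp at this
          omega
        exact hcl (hu c (Or.inl hc) (h c hc a ha))
    · rintro ⟨ha, hla, hu⟩
      refine ⟨Or.inl ha, hla, fun v hv hva => ?_⟩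
      rcases hv with hv | hv
      · exact hu v hv hva
      · exact absurd (h a ha v hv) (lt_asymm hva)
  have hfil0 : ∀ l ∈ A ∪ B, l ∉ A → (A ∪ B).filter (fun a => PPar (A ∪ B) l a) = ∅ := by
    intro l hl hlA
    rw [Finset.filter_eq_empty_iff]
    rintro a ha ⟨hla, hu⟩
    have hlB : l ∈ B := by
      rcases Finset.mem_union.1 hl with h1 | h1
      · exact absurd h1 hlA
      · exact h1
    rcases Finset.mem_union.1 ha with ha | ha
    · exact lt_asymm hla (h a ha l hlB)
    · obtain ⟨c, hc⟩ : A.Nonempty := by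
        rw [← Finset.card_pos]
        omega
      have := hu c (Finset.mem_union_left _ hc) (h c hc a ha)
      exact hlA (this ▸ hc)
  have hnum : (∑ l ∈ A ∪ B, ∑ a ∈ (A ∪ B).filter (fun a => PPar (A ∪ B) l a),
      ∑ z ∈ ((A ∪ B).erase l).erase a,
        e ((((A ∪ B).erase l).erase z).erase a) / e (((A ∪ B).erase l).erase z)) =
      (∑ l ∈ A, ∑ a ∈ A.filter (fun a => PPar A l a), ∑ z ∈ (A.erase l).erase a,
        e (((A.erase l).erase z).erase a) / e ((A.erase l).erase z)) + B.card * tau A := by
    rw [← Finset.sum_subset (Finset.subset_union_left : A ⊆ A ∪ B) (fun l hl hlA => by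
      rw [hfil0 l hl hlA, Finset.sum_empty])]
    unfold tau
    rw [Finset.mul_sum, ← Finset.sum_add_distrib]
    refine Finset.sum_congr rfl fun l hl => ?_
    rw [hfil l hl, Finset.mul_sum, ← Finset.sum_add_distrib]
    refine Finset.sum_congr rfl fun a ha => ?_
    have haA : a ∈ A := (Finset.mem_filter.1 ha).1
    have hlB : l ∉ B := below_notMem h hl
    have haB : a ∉ B := below_notMem h haA
    have e1 : ((A ∪ B).erase l).erase a = (A.erase l).erase a ∪ B := by
      ext v
      simp only [Finset.mem_erase, Finset.mem_union]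
      constructor
      · rintro ⟨h1, h2, h3 | h3⟩
        · exact Or.inl ⟨h1, h2, h3⟩
        · exact Or.inr h3
      · rintro (⟨h1, h2, h3⟩ | h3)
        · exact ⟨h1, h2, Or.inl h3⟩
        · exact ⟨fun h4 => haB (h4 ▸ h3), fun h4 => hlB (h4 ▸ h3), Or.inr h3⟩
    have hd : Disjoint ((A.erase l).erase a) B :=
      Finset.disjoint_of_subset_left
        ((Finset.erase_subset _ _).trans (Finset.erase_subset _ _)) hdisj
    rw [e1, Finset.sum_union hd]
    congr 1
    · refine Finset.sum_congr rfl fun z hz => ?_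
      have hzA : z ∈ A := Finset.mem_of_mem_erase (Finset.mem_of_mem_erase hz)
      have hzB : z ∉ B := below_notMem h hzA
      have e2 : ((A ∪ B).erase l).erase z = (A.erase l).erase z ∪ B := by
        ext v
        simp only [Finset.mem_erase, Finset.mem_union]
        constructor
        · rintro ⟨h1, h2, h3 | h3⟩
          · exact Or.inl ⟨h1, h2, h3⟩
          · exact Or.inr h3
        · rintro (⟨h1, h2, h3⟩ | h3)
          · exact ⟨h1, h2, Or.inl h3⟩
          · exact ⟨fun h4 => hzB (h4 ▸ h3), fun h4 => hlB (h4 ▸ h3), Or.inr h3⟩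
      have e3 : (((A ∪ B).erase l).erase z).erase a = ((A.erase l).erase z).erase a ∪ B := by
        rw [e2]
        ext v
        simp only [Finset.mem_erase, Finset.mem_union]
        constructor
        · rintro ⟨h1, h2 | h2⟩
          · exact Or.inl ⟨h1, h2⟩
          · exact Or.inr h2
        · rintro (⟨h1, h2⟩ | h2)
          · exact ⟨h1, Or.inl h2⟩
          · exact ⟨fun h4 => haB (h4 ▸ h2), Or.inr h2⟩
      rw [e3, e2, e_ser (below_mono h ((Finset.erase_subset _ _).trans
        ((Finset.erase_subset _ _).trans (Finset.erase_subset _ _))) (le_refl B)),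
        e_ser (below_mono h ((Finset.erase_subset _ _).trans (Finset.erase_subset _ _))
          (le_refl B)), mul_div_mul_right _ _ (e_pos B).ne']
    · have hz : ∀ z ∈ B, e ((((A ∪ B).erase l).erase z).erase a) / e (((A ∪ B).erase l).erase z) =
          e ((A.erase l).erase a) / e (A.erase l) := by
        intro z hz
        have hzA : z ∉ A := fun hzA => below_notMem h hzA hz
        have e2 : ((A ∪ B).erase l).erase z = A.erase l ∪ B.erase z := by
          ext v
          simp only [Finset.mem_erase, Finset.mem_union]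
          constructor
          · rintro ⟨h1, h2, h3 | h3⟩
            · exact Or.inl ⟨h2, h3⟩
            · exact Or.inr ⟨h1, h3⟩
          · rintro (⟨h2, h3⟩ | ⟨h1, h3⟩)
            · exact ⟨fun h4 => hzA (h4 ▸ h3), h2, Or.inl h3⟩
            · exact ⟨h1, fun h4 => hlB (h4 ▸ h3), Or.inr h3⟩
        have e3 : (((A ∪ B).erase l).erase z).erase a = (A.erase l).erase a ∪ B.erase z := by
          rw [e2]
          ext v
          simp only [Finset.mem_erase, Finset.mem_union]
          constructor
          · rintro ⟨h1, h2 | ⟨h2, h3⟩⟩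
            · exact Or.inl ⟨h1, h2⟩
            · exact Or.inr ⟨h2, h3⟩
          · rintro (⟨h1, h2⟩ | ⟨h2, h3⟩)
            · exact ⟨h1, Or.inl h2⟩
            · exact ⟨fun h4 => haB (h4 ▸ h3), Or.inr ⟨h2, h3⟩⟩
        rw [e3, e2, e_ser (below_mono h ((Finset.erase_subset _ _).trans (Finset.erase_subset _ _))
          (Finset.erase_subset _ _)), e_ser (below_mono h (Finset.erase_subset _ _)
          (Finset.erase_subset _ _)), mul_div_mul_right _ _ (e_pos _).ne']
      rw [Finset.sum_congr rfl hz, Finset.sum_const, nsmul_eq_mul]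
  have hA1 : (A.card : ℚ) - 1 ≠ 0 := by
    have : (2 : ℚ) ≤ A.card := by exact_mod_cast hA
    intro h0
    linarith
  have hg : (∑ l ∈ A, ∑ a ∈ A.filter (fun a => PPar A l a), ∑ z ∈ (A.erase l).erase a,
        e (((A.erase l).erase z).erase a) / e ((A.erase l).erase z)) =
      ((A.card : ℚ) - 1) * g3 A := by
    unfold g3
    rw [mul_div_cancel₀ _ hA1]
  have hfin : g3 (A ∪ B) = (((A.card : ℚ) - 1) * g3 A + B.card * tau A) /
      (((A ∪ B).card : ℚ) - 1) := by
    rw [← hg, ← hnum]
    rfl
  rw [hfin, hcard]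
  push_cast
  rfl

theorem g3_ser_one {B : Finset P} {x : P} (h : Below {x} B) (hB : 2 ≤ B.card) :
    g3 ({x} ∪ B) = 1 - tau B / B.card := by
  have hxB : x ∉ B := below_notMem h (Finset.mem_singleton_self x)
  have hlt : ∀ b ∈ B, x < b := fun b hb => h x (Finset.mem_singleton_self x) b hb
  have hcard : ({x} ∪ B : Finset P).card = B.card + 1 := by
    rw [Finset.card_union_of_disjoint (Finset.disjoint_singleton_left.2 hxB),
      Finset.card_singleton, add_comm]
  have hSx : ({x} ∪ B : Finset P).erase x = B := by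
    ext v
    simp only [Finset.mem_erase, Finset.mem_union, Finset.mem_singleton]
    constructor
    · rintro ⟨h1, h2 | h2⟩
      · exact absurd h2 h1
      · exact h2
    · intro h1
      exact ⟨fun h2 => hxB (h2 ▸ h1), Or.inr h1⟩
  have hfilx : ({x} ∪ B : Finset P).filter (fun a => PPar ({x} ∪ B) x a) = B.filter (MinIn B) := by
    ext a
    simp only [Finset.mem_filter, Finset.mem_union, Finset.mem_singleton, PPar, MinIn]
    constructor
    · rintro ⟨ha, hxa, hu⟩
      rcases ha with ha | ha
      · exact absurd (ha ▸ hxa) (lt_irrefl _)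
      · refine ⟨ha, fun v hv hva => ?_⟩
        have := hu v (Or.inr hv) hva
        exact hxB (this ▸ hv)
    · rintro ⟨ha, hm⟩
      refine ⟨Or.inr ha, hlt a ha, fun v hv hva => ?_⟩
      rcases hv with hv | hv
      · exact hv
      · exact absurd hva (hm v hv)
  have hfil0 : ∀ l ∈ ({x} ∪ B : Finset P), l ∉ ({x} : Finset P) →
      ({x} ∪ B : Finset P).filter (fun a => PPar ({x} ∪ B) l a) = ∅ := by
    intro l hl hlx
    rw [Finset.filter_eq_empty_iff]
    rintro a ha ⟨hla, hu⟩
    have hlB : l ∈ B := by
      rcases Finset.mem_union.1 hl with h1 | h1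
      · exact absurd h1 hlx
      · exact h1
    rcases Finset.mem_union.1 ha with ha | ha
    · rw [Finset.mem_singleton] at ha
      subst ha
      exact lt_asymm hla (hlt l hlB)
    · have := hu x (Finset.mem_union_left _ (Finset.mem_singleton_self x)) (hlt a ha)
      exact hlx (Finset.mem_singleton.2 this.symm)
  have hnum : (∑ l ∈ ({x} ∪ B : Finset P), ∑ a ∈ ({x} ∪ B : Finset P).filter
      (fun a => PPar ({x} ∪ B) l a), ∑ z ∈ (({x} ∪ B : Finset P).erase l).erase a,
        e (((({x} ∪ B : Finset P).erase l).erase z).erase a) /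
          e ((({x} ∪ B : Finset P).erase l).erase z)) =
      ∑ z ∈ B, ∑ a ∈ (B.erase z).filter (MinIn B), e ((B.erase z).erase a) / e (B.erase z) := by
    rw [← Finset.sum_subset (Finset.subset_union_left : ({x} : Finset P) ⊆ {x} ∪ B)
      (fun l hl hlA => by rw [hfil0 l hl hlA, Finset.sum_empty]), Finset.sum_singleton, hfilx, hSx]
    rw [Finset.sum_comm' (t' := B) (s' := fun z => (B.erase z).filter (MinIn B))]
    intro a z
    simp only [Finset.mem_filter, Finset.mem_erase]
    constructor
    · rintro ⟨⟨h1, h2⟩, h3, h4⟩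
      exact ⟨⟨⟨fun h5 => h3 h5.symm, h1⟩, h2⟩, h4⟩
    · rintro ⟨⟨⟨h1, h2⟩, h3⟩, h4⟩
      exact ⟨⟨h2, h3⟩, fun h5 => h1 h5.symm, h4⟩
  have hz : ∀ z ∈ B, ∑ a ∈ (B.erase z).filter (MinIn B), e ((B.erase z).erase a) / e (B.erase z) =
      1 - ∑ a ∈ B.filter (fun a => PPar B z a), e ((B.erase z).erase a) / e (B.erase z) := by
    intro z hz
    have hne : (B.erase z).Nonempty := by
      rw [← Finset.card_pos, Finset.card_erase_of_mem hz]
      omega
    have hel := e_last hne
    have hsplit : (B.erase z).filter (MinIn (B.erase z)) =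
        (B.erase z).filter (MinIn B) ∪ B.filter (fun a => PPar B z a) := by
      ext a
      simp only [Finset.mem_filter, Finset.mem_union, Finset.mem_erase, MinIn, PPar]
      constructor
      · rintro ⟨⟨h1, h2⟩, h3⟩
        by_cases hza : z < a
        · right
          refine ⟨h2, hza, fun v hv hva => ?_⟩
          by_contra hvz
          exact h3 v ⟨hvz, hv⟩ hva
        · left
          refine ⟨⟨h1, h2⟩, fun v hv hva => ?_⟩
          by_cases hvz : v = z
          · exact hza (hvz ▸ hva)
          · exact h3 v ⟨hvz, hv⟩ hva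
      · rintro (⟨⟨h1, h2⟩, h3⟩ | ⟨h1, h2, h3⟩)
        · exact ⟨⟨h1, h2⟩, fun v hv => h3 v hv.2⟩
        · refine ⟨⟨fun h4 => lt_irrefl _ (h4 ▸ h2), h1⟩, fun v hv hva => ?_⟩
          exact hv.1 (h3 v hv.2 hva)
    have hd : Disjoint ((B.erase z).filter (MinIn B)) (B.filter (fun a => PPar B z a)) := by
      rw [Finset.disjoint_left]
      intro a ha hb
      rw [Finset.mem_filter] at ha hb
      exact ha.2 z hz hb.2.1
    rw [hsplit, Finset.sum_union hd] at hel
    have hpos := e_pos (B.erase z)
    rw [← Finset.sum_div, ← Finset.sum_div, eq_sub_iff_add_eq, ← add_div, ← hel,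
      div_self hpos.ne']
  have hB0 : (B.card : ℚ) ≠ 0 := by
    have : (2 : ℚ) ≤ B.card := by exact_mod_cast hB
    intro h0
    linarith
  have hfin : g3 ({x} ∪ B) = ((B.card : ℚ) - tau B) / ((({x} ∪ B : Finset P).card : ℚ) - 1) := by
    unfold g3
    rw [hnum, Finset.sum_congr rfl hz, Finset.sum_sub_distrib, Finset.sum_const, nsmul_eq_mul,
      mul_one]
    rfl
  rw [hfin, hcard]
  push_cast
  rw [add_sub_cancel_right, sub_div, div_self hB0]

end Pool.Agent.Lib.MP_54b7d9_co.SP
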