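import Pool.Agent.Lib.MP_54b7d9_co.Promo
import Pool.Agent.Lib.MP_54b7d9_co.SP.Cls

set_option autoImplicit false

/-! Words, insertion sort of words, linear extensions as lists, the rational statistics used in the
count of (quasi-)tangled labelings of series-parallel posets. -/

namespace Pool.Agent.Lib.MP_54b7d9_co.SP

open Classical

variable {P : Type} [PartialOrder P]

/-- all words on the finite set `S` (each element of `S` exactly once) -/
noncomputable def W (S : Finset P) : Finset (List P) := S.toList.permutations.toFinset

/-- insertion of the carry `c` into the state -/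
noncomputable def ins : P → List P → List P
  | c, [] => [c]
  | c, v :: s => if v < c then c :: ins v s else v :: ins c s

/-- the state after reading the word `w` -/
noncomputable def st (w : List P) : List P := w.foldl (fun s c => ins c s) []

/-- linear extensions, read from the top: no letter is below a later one -/
def IsLE (l : List P) : Prop := l.Pairwise (fun x y => ¬ x < y)

/-- the linear extensions of `S` as lists, read from the top -/
noncomputable def LinE (S : Finset P) : Finset (List P) := (W S).filter IsLE

/-- number of linear extensions of `S` -/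
noncomputable def e (S : Finset P) : ℚ := (LinE S).card

/-- the kernel identity behind the uniformity of the sorted state, for all subsets of `S` -/
def Ker (S : Finset P) : Prop :=
  ∀ T ⊆ S, T.Nonempty → ∀ l ∈ LinE T,
    ∑ a ∈ T, (((LinE (T.erase a)).filter (fun m => ins a m = l)).card : ℚ) / e (T.erase a)
      = T.card / e T

/-- `y` is minimal in `S` -/
def MinIn (S : Finset P) (y : P) : Prop := ∀ v ∈ S, ¬ v < y

/-- `x` is the only element of `S` below `y` -/
def PPar (S : Finset P) (x y : P) : Prop := x < y ∧ ∀ v ∈ S, v < y → v = x

noncomputable def tau (S : Finset P) : ℚ :=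
  ∑ x ∈ S, ∑ y ∈ S.filter (fun y => PPar S x y), e ((S.erase x).erase y) / e (S.erase x)

noncomputable def g2 (S : Finset P) : ℚ :=
  ∑ z ∈ S, ∑ y1 ∈ (S.erase z).filter (fun y1 => ¬ z < y1 ∧ MinIn (S.erase z) y1),
    ∑ y2 ∈ ((S.erase z).erase y1).filter (fun y2 => z < y2 ∧ MinIn ((S.erase z).erase y1) y2),
      e (((S.erase z).erase y1).erase y2) / e (S.erase z)

noncomputable def g3 (S : Finset P) : ℚ :=
  (∑ l ∈ S, ∑ a ∈ S.filter (fun a => PPar S l a), ∑ z ∈ (S.erase l).erase a,
    e (((S.erase l).erase z).erase a) / e ((S.erase l).erase z)) / ((S.card : ℚ) - 1)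

/-- `A` and `B` are incomparable elementwise (hence disjoint) -/
def Inc (A B : Finset P) : Prop := ∀ a ∈ A, ∀ b ∈ B, ¬ a ≤ b ∧ ¬ b ≤ a

/-- `A` lies below `B` elementwise (hence they are disjoint) -/
def Below (A B : Finset P) : Prop := ∀ a ∈ A, ∀ b ∈ B, a < b

/-- the tangled words (at least two letters): the last letter is below the last letter of the
state of the rest -/
def TW (w : List P) : Prop :=
  ∃ (w' : List P) (z : P) (m : List P) (x1 : P), w = w' ++ [z] ∧ st w' = m ++ [x1] ∧ z < x1

/-- the quasi-tangled words (at least three letters) -/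
def QW (w : List P) : Prop :=
  ∃ (u : List P) (l z : P) (m : List P) (x2 x1 : P) (m' : List P) (a : P),
    w = u ++ [l, z] ∧ st (u ++ [l]) = m ++ [x2, x1] ∧ st u = m' ++ [a] ∧
    ¬ z < x1 ∧ (z < x2 ∨ l < a)

/-- promotion of words: the carry moves to the right -/
noncomputable def pr : P → List P → List P
  | c, [] => [c]
  | c, v :: s => if c < v then c :: pr v s else v :: pr c s

noncomputable def P1 : List P → List P
  | [] => []
  | x :: t => pr x t

/-- the labeling of a word -/
noncomputable def lab (w : List P) (x : P) : ℕ := w.idxOf x + 1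

/-- sorted words -/
def SW (w : List P) : Prop := w.Pairwise (fun x y => ¬ y < x)

theorem mem_W {S : Finset P} {w : List P} : w ∈ W S ↔ w.Nodup ∧ ∀ x, x ∈ w ↔ x ∈ S := by
  unfold W
  rw [List.mem_toFinset, List.mem_permutations]
  constructor
  · intro h
    exact ⟨h.nodup_iff.mpr S.nodup_toList, fun x => by rw [h.mem_iff, Finset.mem_toList]⟩
  · rintro ⟨h1, h2⟩
    exact (List.perm_ext_iff_of_nodup h1 S.nodup_toList).mpr fun x => by
      rw [h2, Finset.mem_toList]

theorem card_W (S : Finset P) : (W S).card = S.card.factorial := by
  unfold W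
  rw [List.card_toFinset, List.Nodup.dedup, List.length_permutations, Finset.length_toList]
  exact List.nodup_permutations _ S.nodup_toList

theorem length_W {S : Finset P} {w : List P} (h : w ∈ W S) : w.length = S.card := by
  unfold W at h
  rw [List.mem_toFinset, List.mem_permutations] at h
  rw [h.length_eq, Finset.length_toList]

theorem mem_LinE {S : Finset P} {l : List P} : l ∈ LinE S ↔ l ∈ W S ∧ IsLE l := by
  unfold LinE
  rw [Finset.mem_filter]

/-- the statistics are within the bounds -/
structure Good (S : Finset P) : Prop where
  t1 : tau S ≤ 1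
  q : g2 S + g3 S ≤ 2
  r : g2 S + tau S ≤ 2

end Pool.Agent.Lib.MP_54b7d9_co.SP
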