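import Pool.Agent.Lib.MP_54b7d9_co.SP.A
import Pool.Agent.Lib.MP_54b7d9_co.SP.A4
import Pool.Agent.Lib.MP_54b7d9_co.SP.C4

set_option autoImplicit false

/-! Counting words by their last letter and by the state of the rest; the tangled words. -/

namespace Pool.Agent.Lib.MP_54b7d9_co.SP

open Classical

variable {P : Type} [PartialOrder P]

theorem E1_snoc_mem {S : Finset P} {z : P} {w : List P} (hz : z ∈ S) (hw : w ∈ W (S.erase z)) :
    w ++ [z] ∈ W S := by
  rw [mem_W] at hw ⊢
  obtain ⟨h1, h2⟩ := hw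
  refine ⟨?_, ?_⟩
  · rw [List.nodup_append]
    refine ⟨h1, List.nodup_singleton z, ?_⟩
    intro a ha b hb hab
    rw [List.mem_singleton] at hb
    have := (h2 a).1 ha
    rw [Finset.mem_erase] at this
    exact this.1 (hab.trans hb)
  · intro x
    rw [List.mem_append, List.mem_singleton, h2, Finset.mem_erase]
    constructor
    · rintro (⟨_, h⟩ | rfl)
      · exact h
      · exact hz
    · intro h
      by_cases hx : x = z
      · exact Or.inr hx
      · exact Or.inl ⟨hx, h⟩

theorem E1_snoc_of_mem {S : Finset P} {z : P} {w : List P} (hw : w ++ [z] ∈ W S) :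
    z ∈ S ∧ w ∈ W (S.erase z) := by
  rw [mem_W] at hw
  obtain ⟨h1, h2⟩ := hw
  have hz : z ∈ S := (h2 z).1 (by simp)
  refine ⟨hz, ?_⟩
  rw [mem_W]
  rw [List.nodup_append] at h1
  refine ⟨h1.1, fun x => ?_⟩
  rw [Finset.mem_erase, ← h2, List.mem_append, List.mem_singleton]
  constructor
  · intro hx
    exact ⟨fun he => h1.2.2 x hx z (by simp) he, Or.inl hx⟩
  · rintro ⟨h3, h4 | h4⟩
    · exact h4
    · exact absurd h4 h3

/-- words by the last letter -/
theorem E1_last {S : Finset P} (hS : S.Nonempty) (p : List P → Prop) :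
    ((W S).filter p).card =
      ∑ z ∈ S, ((W (S.erase z)).filter (fun w => p (w ++ [z]))).card := by
  rw [← Finset.card_sigma]
  symm
  refine Finset.card_bij (fun a _ => a.2 ++ [a.1]) ?_ ?_ ?_
  · rintro ⟨z, w⟩ h
    rw [Finset.mem_sigma, Finset.mem_filter] at h
    rw [Finset.mem_filter]
    exact ⟨E1_snoc_mem h.1 h.2.1, h.2.2⟩
  · rintro ⟨z, w⟩ _ ⟨z', w'⟩ _ h
    have h1 := List.append_inj' h rfl
    obtain ⟨h2, h3⟩ := h1
    simp only [List.cons.injEq, and_true] at h3
    subst h2
    subst h3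
    rfl
  · intro w hw
    rw [Finset.mem_filter] at hw
    have hne : w ≠ [] := by
      rintro rfl
      obtain ⟨x, hx⟩ := hS
      exact absurd (((mem_W.1 hw.1).2 x).2 hx) (by simp)
    have he : w.dropLast ++ [w.getLast hne] = w := List.dropLast_append_getLast hne
    refine ⟨⟨w.getLast hne, w.dropLast⟩, ?_, he⟩
    have h1 := hw.1
    rw [← he] at h1
    obtain ⟨h2, h3⟩ := E1_snoc_of_mem h1
    rw [Finset.mem_sigma, Finset.mem_filter]
    refine ⟨h2, h3, ?_⟩
    simp only [he]
    exact hw.2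

/-- words by the state -/
theorem E1_state {S T : Finset P} (h : Ker S) (hT : T ⊆ S) (q : List P → Prop) :
    (((W T).filter (fun w => q (st w))).card : ℚ) =
      ((LinE T).filter q).card * ((T.card.factorial : ℚ) / e T) := by
  have h1 : (W T).filter (fun w => q (st w)) =
      ((LinE T).filter q).biUnion (fun l => (W T).filter (fun w => st w = l)) := by
    ext w
    simp only [Finset.mem_filter, Finset.mem_biUnion]
    constructor
    · rintro ⟨hw, hq⟩
      exact ⟨st w, ⟨st_mem hw, hq⟩, hw, rfl⟩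
    · rintro ⟨l, ⟨_, hq⟩, hw, rfl⟩
      exact ⟨hw, hq⟩
  rw [h1, Finset.card_biUnion]
  · push_cast
    rw [Finset.sum_congr rfl (fun l hl => unif h hT (Finset.mem_filter.1 hl).1),
      Finset.sum_const, nsmul_eq_mul]
  · intro l _ l' _ hne
    rw [Function.onFun, Finset.disjoint_left]
    intro w hw hw'
    rw [Finset.mem_filter] at hw hw'
    exact hne (hw.2.symm.trans hw'.2)

/-- linear extensions by the last letter -/
theorem E1_linE {T : Finset P} (hT : T.Nonempty) (q : List P → Prop) :
    (((LinE T).filter q).card : ℚ) =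
      ∑ y ∈ T.filter (MinIn T), (((LinE (T.erase y)).filter (fun m => q (m ++ [y]))).card : ℚ) := by
  have h1 : ∀ (U : Finset P) (r : List P → Prop), (((LinE U).filter r).card : ℚ) =
      ∑ l ∈ LinE U, if r l then (1 : ℚ) else 0 := by
    intro U r
    rw [Finset.card_filter]
    push_cast
    rfl
  rw [h1, sum_linE hT]
  exact Finset.sum_congr rfl fun y _ => (h1 _ _).symm

omit [PartialOrder P] in
theorem E1_snoc_inj {m m' : List P} {y y' : P} (h : m ++ [y] = m' ++ [y']) : m = m' ∧ y = y' := by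
  have h1 := List.append_inj' h rfl
  refine ⟨h1.1, ?_⟩
  simpa using h1.2

/-- linear extensions with given last letters -/
theorem E1_linE_last {T : Finset P} (hT : T.Nonempty) (r : P → Prop) :
    (((LinE T).filter (fun l => ∃ m x, l = m ++ [x] ∧ r x)).card : ℚ) =
      ∑ y ∈ T.filter (fun y => r y ∧ MinIn T y), e (T.erase y) := by
  rw [E1_linE hT]
  have h1 : T.filter (fun y => r y ∧ MinIn T y) = (T.filter (MinIn T)).filter r := by
    rw [Finset.filter_filter]
    exact Finset.filter_congr fun y _ => and_comm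
  conv_rhs => rw [h1, Finset.sum_filter]
  refine Finset.sum_congr rfl fun y _ => ?_
  split_ifs with hr
  · unfold e
    congr 2
    rw [Finset.filter_eq_self]
    intro m _
    exact ⟨m, y, rfl, hr⟩
  · rw [Nat.cast_eq_zero, Finset.card_eq_zero, Finset.filter_eq_empty_iff]
    rintro m _ ⟨m', x, he, hx⟩
    exact hr ((E1_snoc_inj he).2 ▸ hx)

theorem E1_ppar {S : Finset P} {z y : P} : (y ∈ (S.erase z).filter (fun y => z < y ∧
    MinIn (S.erase z) y)) ↔ y ∈ S.filter (fun y => PPar S z y) := by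
  rw [Finset.mem_filter, Finset.mem_filter, Finset.mem_erase]
  unfold PPar MinIn
  constructor
  · rintro ⟨⟨h1, h2⟩, h3, h4⟩
    refine ⟨h2, h3, fun v hv hvy => ?_⟩
    by_contra hne
    exact h4 v (Finset.mem_erase.2 ⟨hne, hv⟩) hvy
  · rintro ⟨h1, h2, h3⟩
    refine ⟨⟨h2.ne', h1⟩, h2, fun v hv hvy => ?_⟩
    rw [Finset.mem_erase] at hv
    exact hv.1 (h3 v hv.2 hvy)

theorem card_TW {S : Finset P} (h : Ker S) (hn : 2 ≤ S.card) :
    (((W S).filter TW).card : ℚ) = ((S.card - 1).factorial : ℚ) * tau S := by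
  have hS : S.Nonempty := Finset.card_pos.1 (by omega)
  rw [E1_last hS]
  push_cast
  unfold tau
  rw [Finset.mul_sum]
  refine Finset.sum_congr rfl fun z hz => ?_
  have hc : (S.erase z).card = S.card - 1 := Finset.card_erase_of_mem hz
  have hT : (S.erase z).Nonempty := Finset.card_pos.1 (by omega)
  have h1 : (W (S.erase z)).filter (fun w => TW (w ++ [z])) =
      (W (S.erase z)).filter (fun w => (fun l => ∃ m x, l = m ++ [x] ∧ z < x) (st w)) := by
    refine Finset.filter_congr fun w _ => ?_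
    constructor
    · rintro ⟨w', z', m, x1, h2, h3, h4⟩
      obtain ⟨rfl, rfl⟩ := E1_snoc_inj h2
      exact ⟨m, x1, h3, h4⟩
    · rintro ⟨m, x, h2, h3⟩
      exact ⟨w, z, m, x, rfl, h2, h3⟩
  rw [h1, E1_state h (Finset.erase_subset z S) (fun l => ∃ m x, l = m ++ [x] ∧ z < x),
    E1_linE_last hT, hc]
  have h2 : (S.erase z).filter (fun y => z < y ∧ MinIn (S.erase z) y) =
      S.filter (fun y => PPar S z y) := Finset.ext fun y => E1_ppar
  rw [h2, Finset.sum_mul, Finset.mul_sum]
  refine Finset.sum_congr rfl fun y _ => ?_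
  ring

end Pool.Agent.Lib.MP_54b7d9_co.SP
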