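import Pool.Agent.Lib.MP_54b7d9_co.SP.E1

set_option autoImplicit false

/-! Counting the quasi-tangled words. -/

namespace Pool.Agent.Lib.MP_54b7d9_co.SP

open Classical

variable {P : Type} [PartialOrder P]

/-- the first kind of quasi-tangled words -/
def E2_A (w : List P) : Prop :=
  ∃ (w' : List P) (z : P) (m : List P) (x2 x1 : P), w = w' ++ [z] ∧ st w' = m ++ [x2, x1] ∧
    ¬ z < x1 ∧ z < x2

/-- the second kind of quasi-tangled words (more general) -/
def E2_B (w : List P) : Prop :=
  ∃ (u : List P) (l z : P) (m : List P) (a : P), w = (u ++ [l]) ++ [z] ∧ st u = m ++ [a] ∧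
    l < a ∧ ¬ z < a

theorem E2_ins {c : P} {s : List P} (h : ∀ v ∈ s, ¬ v < c) : ins c s = s ++ [c] := by
  induction s with
  | nil => rfl
  | cons v s ih =>
    have h1 : ¬ v < c := h v (by simp)
    unfold ins
    rw [if_neg h1, ih (fun x hx => h x (by simp [hx]))]
    rfl

theorem E2_split {S : Finset P} {w : List P} (hw : w ∈ W S) (h : QW w) : E2_A w ∨ E2_B w := by
  obtain ⟨u, l, z, m, x2, x1, m', a, h1, h2, h3, h4, h5⟩ := h
  have h1' : w = (u ++ [l]) ++ [z] := by rw [h1]; simp
  by_cases h6 : z < x2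
  · exact Or.inl ⟨u ++ [l], z, m, x2, x1, h1', h2, h4, h6⟩
  · have h7 : l < a := h5.resolve_left h6
    rw [h1'] at hw
    obtain ⟨_, hw2⟩ := E1_snoc_of_mem hw
    obtain ⟨_, hw3⟩ := E1_snoc_of_mem hw2
    have h8 := (mem_LinE.1 (st_mem hw3)).2
    rw [h3] at h8
    unfold IsLE at h8
    rw [List.pairwise_append] at h8
    have h9 : ∀ v ∈ m' ++ [a], ¬ v < l := by
      intro v hv hvl
      rw [List.mem_append, List.mem_singleton] at hv
      rcases hv with hv | rfl
      · exact h8.2.2 v hv a (by simp) (hvl.trans h7)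
      · exact lt_asymm hvl h7
    rw [st_append, h3, E2_ins h9] at h2
    have h10 : (m' ++ [a]) ++ [l] = (m ++ [x2]) ++ [x1] := by rw [h2]; simp
    obtain ⟨h11, rfl⟩ := E1_snoc_inj h10
    obtain ⟨_, rfl⟩ := E1_snoc_inj h11
    exact Or.inr ⟨u, l, z, m', a, h1', h3, h7, h6⟩

theorem E2_cardA {S : Finset P} (h : Ker S) (hn : 3 ≤ S.card) :
    (((W S).filter E2_A).card : ℚ) = ((S.card - 1).factorial : ℚ) * g2 S := by
  have hS : S.Nonempty := Finset.card_pos.1 (by omega)
  rw [E1_last hS]
  push_cast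
  unfold g2
  rw [Finset.mul_sum]
  refine Finset.sum_congr rfl fun z hz => ?_
  have hc : (S.erase z).card = S.card - 1 := Finset.card_erase_of_mem hz
  have hT : (S.erase z).Nonempty := Finset.card_pos.1 (by omega)
  set q : List P → Prop := fun l => ∃ m x2 x1, l = m ++ [x2, x1] ∧ ¬ z < x1 ∧ z < x2 with hq
  have h1 : (W (S.erase z)).filter (fun w => E2_A (w ++ [z])) =
      (W (S.erase z)).filter (fun w => q (st w)) := by
    refine Finset.filter_congr fun w _ => ?_
    constructor
    · rintro ⟨w', z', m, x2, x1, h2, h3, h4, h5⟩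
      obtain ⟨rfl, rfl⟩ := E1_snoc_inj h2
      exact ⟨m, x2, x1, h3, h4, h5⟩
    · rintro ⟨m, x2, x1, h3, h4, h5⟩
      exact ⟨w, z, m, x2, x1, rfl, h3, h4, h5⟩
  rw [h1, E1_state h (Finset.erase_subset z S) q, E1_linE hT, hc]
  have h2 : (S.erase z).filter (fun y => ¬ z < y ∧ MinIn (S.erase z) y) =
      ((S.erase z).filter (MinIn (S.erase z))).filter (fun y => ¬ z < y) := by
    rw [Finset.filter_filter]
    exact Finset.filter_congr fun y _ => and_comm
  rw [h2]
  conv_rhs => rw [Finset.sum_filter]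
  rw [Finset.sum_mul, Finset.mul_sum]
  refine Finset.sum_congr rfl fun y hy => ?_
  have hy' : y ∈ S.erase z := (Finset.mem_filter.1 hy).1
  have hc2 : ((S.erase z).erase y).card = S.card - 2 := by
    rw [Finset.card_erase_of_mem hy', hc]; omega
  have hU : ((S.erase z).erase y).Nonempty := Finset.card_pos.1 (by omega)
  by_cases hzy : ¬ z < y
  · rw [if_pos hzy]
    have h3 : (LinE ((S.erase z).erase y)).filter (fun m => q (m ++ [y])) =
        (LinE ((S.erase z).erase y)).filter (fun l => ∃ m x, l = m ++ [x] ∧ z < x) := by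
      refine Finset.filter_congr fun l _ => ?_
      constructor
      · rintro ⟨m, x2, x1, h4, h5, h6⟩
        have h7 : l ++ [y] = (m ++ [x2]) ++ [x1] := by rw [h4]; simp
        exact ⟨m, x2, (E1_snoc_inj h7).1, h6⟩
      · rintro ⟨m, x, h4, h5⟩
        refine ⟨m, x, y, ?_, hzy, h5⟩
        rw [h4]; simp
    rw [h3, E1_linE_last hU, Finset.sum_mul, Finset.mul_sum]
    refine Finset.sum_congr rfl fun y2 _ => ?_
    ring
  · rw [if_neg hzy]
    have h3 : (LinE ((S.erase z).erase y)).filter (fun m => q (m ++ [y])) = ∅ := by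
      rw [Finset.filter_eq_empty_iff]
      rintro l _ ⟨m, x2, x1, h4, h5, h6⟩
      have h7 : l ++ [y] = (m ++ [x2]) ++ [x1] := by rw [h4]; simp
      exact hzy (by rw [(E1_snoc_inj h7).2]; exact h5)
    rw [h3, Finset.card_empty]
    simp

theorem E2_cardB {S : Finset P} (h : Ker S) (hn : 3 ≤ S.card) :
    (((W S).filter E2_B).card : ℚ) ≤ ((S.card - 1).factorial : ℚ) * g3 S := by
  have hS : S.Nonempty := Finset.card_pos.1 (by omega)
  set X : P → P → P → ℚ := fun z l a => e (((S.erase l).erase z).erase a) /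
    e ((S.erase l).erase z) with hX
  have hX0 : ∀ z l a, 0 ≤ X z l a := fun z l a => by
    have h1 := e_pos (((S.erase l).erase z).erase a)
    have h2 := e_pos ((S.erase l).erase z)
    simp only [hX]
    positivity
  have hcount : (((W S).filter E2_B).card : ℚ) = ∑ z ∈ S, ∑ l ∈ S.erase z,
      ((S.card - 2).factorial : ℚ) * ∑ a ∈ ((S.erase z).erase l).filter
        (fun a => (l < a ∧ ¬ z < a) ∧ MinIn ((S.erase z).erase l) a), X z l a := by
    rw [E1_last hS]
    push_cast
    refine Finset.sum_congr rfl fun z hz => ?_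
    have hc : (S.erase z).card = S.card - 1 := Finset.card_erase_of_mem hz
    have hT : (S.erase z).Nonempty := Finset.card_pos.1 (by omega)
    rw [E1_last hT]
    push_cast
    refine Finset.sum_congr rfl fun l hl => ?_
    have hc2 : ((S.erase z).erase l).card = S.card - 2 := by
      rw [Finset.card_erase_of_mem hl, hc]; omega
    have hU : ((S.erase z).erase l).Nonempty := Finset.card_pos.1 (by omega)
    have h1 : (W ((S.erase z).erase l)).filter (fun w => E2_B (w ++ [l] ++ [z])) =
        (W ((S.erase z).erase l)).filter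
          (fun w => (fun s => ∃ m x, s = m ++ [x] ∧ (l < x ∧ ¬ z < x)) (st w)) := by
      refine Finset.filter_congr fun w _ => ?_
      constructor
      · rintro ⟨u, l', z', m, a, h2, h3, h4, h5⟩
        obtain ⟨h6, rfl⟩ := E1_snoc_inj h2
        obtain ⟨rfl, rfl⟩ := E1_snoc_inj h6
        exact ⟨m, a, h3, h4, h5⟩
      · rintro ⟨m, a, h3, h4, h5⟩
        exact ⟨w, l, z, m, a, rfl, h3, h4, h5⟩
    rw [h1, E1_state h ((Finset.erase_subset l _).trans (Finset.erase_subset z S))
      (fun s => ∃ m x, s = m ++ [x] ∧ (l < x ∧ ¬ z < x)), E1_linE_last hU, hc2, Finset.sum_mul,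
      Finset.mul_sum]
    refine Finset.sum_congr (by ext a; simp only [Finset.mem_filter]) fun a _ => ?_
    simp only [hX]
    rw [Finset.erase_right_comm (a := l) (b := z)]
    ring
  have hswap : ∑ z ∈ S, ∑ l ∈ S.erase z, ((S.card - 2).factorial : ℚ) *
      ∑ a ∈ ((S.erase z).erase l).filter
        (fun a => (l < a ∧ ¬ z < a) ∧ MinIn ((S.erase z).erase l) a), X z l a =
      ∑ l ∈ S, ∑ z ∈ S.erase l, ((S.card - 2).factorial : ℚ) *
      ∑ a ∈ ((S.erase z).erase l).filter
        (fun a => (l < a ∧ ¬ z < a) ∧ MinIn ((S.erase z).erase l) a), X z l a := by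
    refine Finset.sum_comm' fun z l => ?_
    rw [Finset.mem_erase, Finset.mem_erase]
    constructor
    · rintro ⟨h1, h2, h3⟩
      exact ⟨⟨fun he => h2 he.symm, h1⟩, h3⟩
    · rintro ⟨⟨h1, h2⟩, h3⟩
      exact ⟨h2, fun he => h1 he.symm, h3⟩
  rw [hcount, hswap]
  have hfac : ((S.card - 1).factorial : ℚ) = ((S.card : ℚ) - 1) * ((S.card - 2).factorial : ℚ) := by
    obtain ⟨k, hk⟩ : ∃ k, S.card = k + 2 := ⟨S.card - 2, by omega⟩
    rw [hk, show k + 2 - 1 = k + 1 by omega, show k + 2 - 2 = k by omega, Nat.factorial_succ]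
    push_cast
    ring
  have hc1 : (0 : ℚ) < (S.card : ℚ) - 1 := by
    have : (3 : ℚ) ≤ S.card := by exact_mod_cast hn
    linarith
  have hg3 : ((S.card - 1).factorial : ℚ) * g3 S = ∑ l ∈ S, ((S.card - 2).factorial : ℚ) *
      ∑ a ∈ S.filter (fun a => PPar S l a), ∑ z ∈ (S.erase l).erase a, X z l a := by
    unfold g3
    rw [hfac, ← Finset.mul_sum]
    simp only [hX]
    field_simp
  rw [hg3]
  refine Finset.sum_le_sum fun l hl => ?_
  rw [← Finset.mul_sum]
  refine mul_le_mul_of_nonneg_left ?_ (Nat.cast_nonneg _)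
  calc ∑ z ∈ S.erase l, ∑ a ∈ ((S.erase z).erase l).filter
        (fun a => (l < a ∧ ¬ z < a) ∧ MinIn ((S.erase z).erase l) a), X z l a
      ≤ ∑ z ∈ S.erase l, ∑ a ∈ (S.filter (fun a => PPar S l a)).erase z, X z l a := by
        refine Finset.sum_le_sum fun z _ => ?_
        refine Finset.sum_le_sum_of_subset_of_nonneg ?_ fun a _ _ => hX0 z l a
        intro a ha
        rw [Finset.mem_filter, Finset.mem_erase, Finset.mem_erase] at ha
        obtain ⟨⟨h1, h2, h3⟩, ⟨h4, h5⟩, h6⟩ := ha
        rw [Finset.mem_erase, Finset.mem_filter]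
        refine ⟨h2, h3, h4, fun v hv hva => ?_⟩
        by_contra hvl
        have hvz : v ≠ z := by
          rintro rfl
          exact h5 hva
        exact h6 v (Finset.mem_erase.2 ⟨hvl, Finset.mem_erase.2 ⟨hvz, hv⟩⟩) hva
    _ = ∑ a ∈ S.filter (fun a => PPar S l a), ∑ z ∈ (S.erase l).erase a, X z l a := by
        refine Finset.sum_comm' fun z a => ?_
        rw [Finset.mem_erase (s := S.filter (fun a => PPar S l a)),
          Finset.mem_erase (s := S.erase l) (b := a)]
        constructor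
        · rintro ⟨h1, h2, h3⟩
          exact ⟨⟨fun he => h2 he.symm, h1⟩, h3⟩
        · rintro ⟨⟨h1, h2⟩, h3⟩
          exact ⟨h2, fun he => h1 he.symm, h3⟩

theorem card_QW_le {S : Finset P} (h : Ker S) (hn : 3 ≤ S.card) :
    (((W S).filter QW).card : ℚ) ≤ ((S.card - 1).factorial : ℚ) * (g2 S + g3 S) := by
  have h1 : (W S).filter QW ⊆ (W S).filter E2_A ∪ (W S).filter E2_B := by
    intro w hw
    rw [Finset.mem_filter] at hw
    rw [Finset.mem_union, Finset.mem_filter, Finset.mem_filter]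
    rcases E2_split hw.1 hw.2 with h | h
    · exact Or.inl ⟨hw.1, h⟩
    · exact Or.inr ⟨hw.1, h⟩
  have h2 : ((W S).filter QW).card ≤ ((W S).filter E2_A).card + ((W S).filter E2_B).card :=
    (Finset.card_le_card h1).trans (Finset.card_union_le _ _)
  have h3 : (((W S).filter QW).card : ℚ) ≤ ((W S).filter E2_A).card +
      ((W S).filter E2_B).card := by exact_mod_cast h2
  rw [mul_add, ← E2_cardA h hn]
  exact h3.trans (add_le_add le_rfl (E2_cardB h hn))

end Pool.Agent.Lib.MP_54b7d9_co.SP
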