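import Pool.Agent.Lib.MP_54b7d9_co.SP.Defs

set_option autoImplicit false

/-! Piece F1: promotion of words is promotion of labelings. -/

namespace Pool.Agent.Lib.MP_54b7d9_co.SP

open Classical

variable {P : Type} [PartialOrder P]

theorem pr_perm : ∀ (c : P) (s : List P), (pr c s).Perm (c :: s)
  | c, [] => List.Perm.refl _
  | c, v :: s => by
    rw [pr]
    split_ifs with h
    · exact (pr_perm v s).cons c
    · exact ((pr_perm c s).cons v).trans (List.Perm.swap c v s)

theorem P1_perm : ∀ w : List P, (P1 w).Perm w
  | [] => List.Perm.refl _
  | x :: t => pr_perm x t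

theorem P1_mem {S : Finset P} {w : List P} (h : w ∈ W S) : P1 w ∈ W S := by
  rw [mem_W] at h ⊢
  exact ⟨(P1_perm w).nodup_iff.mpr h.1, fun x => by rw [(P1_perm w).mem_iff, h.2]⟩

omit [PartialOrder P] in
theorem lab_inj {w : List P} {x y : P} (hx : x ∈ w) (h : lab w x = lab w y) : x = y := by
  have h1 : w.idxOf x = w.idxOf y := Nat.succ_injective h
  have h2 : w.idxOf x < w.length := List.idxOf_lt_length_of_mem hx
  have h3 : w[w.idxOf x]'h2 = x := List.getElem_idxOf h2
  have h2' : w.idxOf y < w.length := h1 ▸ h2
  have h4 : w[w.idxOf y]'h2' = y := List.getElem_idxOf h2'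
  rw [← h3, ← h4]
  congr 1

theorem isLabeling_lab [Fintype P] {w : List P} (h : w ∈ W (Finset.univ : Finset P)) :
    IsLabeling (lab w) := by
  have hm : ∀ x : P, x ∈ w := fun x => ((mem_W.mp h).2 x).mpr (Finset.mem_univ x)
  apply isLabeling_of
  · intro x y hxy
    exact lab_inj (hm x) hxy
  · intro x
    exact Nat.succ_le_succ (Nat.zero_le _)
  · intro x
    have h1 := List.idxOf_lt_length_of_mem (hm x)
    rw [length_W h] at h1
    exact h1

private theorem promote_aux [Fintype P] {w : List P} (h : w ∈ W (Finset.univ : Finset P)) :
    ∀ (t p : List P) (c : P), w = p ++ t → c ∈ p → OnChain (lab w) c → (∀ z, c < z → z ∈ t) →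
      (∀ z ∈ t, OnChain (lab w) z → c < z) → ∀ y, y ∈ c :: t →
      promote (lab w) y = p.length + (pr c t).idxOf y := by
  have hL := isLabeling_lab h
  have hnd := (mem_W.mp h).1
  have hlen := length_W h
  intro t
  induction t with
  | nil =>
    intro p c hw hcp hc hab _ y hy
    have hyc : y = c := by simpa using hy
    subst hyc
    have hmax : IsMax y := by
      intro z hz
      by_contra hcon
      have : y < z := lt_of_le_not_ge hz hcon
      exact absurd (hab z this) (by simp)
    rw [promote_max hc hmax, pr, List.idxOf_cons_self]
    rw [hw, List.append_nil, Finset.card_univ] at hlen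
    omega
  | cons v s ih =>
    intro p c hw hcp hc hab hch y hy
    rw [hw] at hnd
    have hdis := List.nodup_append.mp hnd
    have hvp : v ∉ p := fun hv => hdis.2.2 v hv v (List.mem_cons_self ..) rfl
    have hvs : v ∉ s := (List.nodup_cons.mp hdis.2.1).1
    have hcv : c ≠ v := fun e => hvp (e ▸ hcp)
    have hcs : c ∉ s := fun hs => hdis.2.2 c hcp c (List.mem_cons_of_mem _ hs) rfl
    have hLv : lab w v = p.length + 1 := by
      unfold lab
      rw [hw, List.idxOf_append_of_notMem hvp, List.idxOf_cons_self]
    have hw' : w = (p ++ [v]) ++ s := by rw [hw]; simp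
    have hlen' : (p ++ [v]).length = p.length + 1 := by simp
    rw [pr]
    split_ifs with hlt
    · -- `c < v`
      have hnm : ¬ IsMax c := fun hm => hm.not_lt hlt
      have hnext : next (lab w) c = v := by
        have h1 := next_spec (L := lab w) hnm
        have h2 := h1.2 v hlt
        have h3 := hab _ h1.1
        have h4 : lab w v ≤ lab w (next (lab w) c) := by
          rw [hLv]
          unfold lab
          have h5 : next (lab w) c ∉ p := fun hp => hdis.2.2 _ hp _ h3 rfl
          rw [hw, ← hw, hw, List.idxOf_append_of_notMem]
          · omega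
          · rw [← hw]; exact h5
        exact hL.inj (le_antisymm h2 h4)
      have hcv' : OnChain (lab w) v := hnext ▸ hc.next
      by_cases hyc : y = c
      · subst hyc
        rw [promote_on hc hnm, hnext, hLv, List.idxOf_cons_self]
        omega
      · have hy' : y ∈ v :: s := by
          rcases List.mem_cons.mp hy with e | e
          · exact absurd e hyc
          · exact e
        have := ih (p ++ [v]) v hw' (by simp) hcv' (fun z hz => by
            have h1 := hab z (hlt.trans hz)
            rcases List.mem_cons.mp h1 with e | e
            · exact absurd e hz.ne'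
            · exact e) (fun z hz hzc => by
            have h1 := hch z (List.mem_cons_of_mem _ hz) hzc
            have h2 := hc.next_le hL hzc h1
            rw [hnext] at h2
            exact lt_of_le_of_ne h2 (fun e => hvs (e ▸ hz))) y hy'
        rw [this, hlen', List.idxOf_cons_ne _ (Ne.symm hyc)]
        omega
    · by_cases hyv : y = v
      · subst hyv
        have hoff : ¬ OnChain (lab w) y := fun hon => hlt (hch y (List.mem_cons_self ..) hon)
        rw [promote_off hoff, hLv, List.idxOf_cons_self]
        omega
      · have hy' : y ∈ c :: s := by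
          rcases List.mem_cons.mp hy with e | e
          · exact e ▸ List.mem_cons_self ..
          · rcases List.mem_cons.mp e with e | e
            · exact absurd e hyv
            · exact List.mem_cons_of_mem _ e
        have := ih (p ++ [v]) c hw' (List.mem_append_left _ hcp) hc (fun z hz => by
            have h1 := hab z hz
            rcases List.mem_cons.mp h1 with e | e
            · exact absurd (e ▸ hz) hlt
            · exact e) (fun z hz hzc => hch z (List.mem_cons_of_mem _ hz) hzc) y hy'
        rw [this, hlen', List.idxOf_cons_ne _ (Ne.symm hyv)]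
        omega

theorem promote_lab [Fintype P] {w : List P} (h : w ∈ W (Finset.univ : Finset P)) :
    promote (lab w) = lab (P1 w) := by
  have hm : ∀ x : P, x ∈ w := fun x => ((mem_W.mp h).2 x).mpr (Finset.mem_univ x)
  have hnd := (mem_W.mp h).1
  funext y
  cases hw : w with
  | nil =>
    have := hm y
    rw [hw] at this
    exact absurd this (by simp)
  | cons x t =>
    have hx1 : lab w x = 1 := by
      unfold lab
      rw [hw, List.idxOf_cons_self]
    have hxt : x ∉ t := by
      rw [hw] at hnd
      exact (List.nodup_cons.mp hnd).1
    have key := promote_aux h t [x] x (by rw [hw]; rfl) (List.mem_cons_self ..)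
      (onChain_of_one hx1) (fun z hz => by
        have h1 := hm z
        rw [hw] at h1
        rcases List.mem_cons.mp h1 with e | e
        · exact absurd e hz.ne'
        · exact e) (fun z hz hzc => by
        obtain ⟨v, hv, i, hi⟩ := hzc
        have hvx : v = x := (isLabeling_lab h).inj (hv.trans hx1.symm)
        subst hvx
        have h1 : v ≤ z := by rw [← hi]; exact le_iterate _ v i
        exact lt_of_le_of_ne h1 (fun e => hxt (e ▸ hz))) y (by rw [← hw]; exact hm y)
    rw [← hw, key, hw]
    unfold lab
    rw [P1]
    simp only [List.length_cons, List.length_nil]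
    omega

end Pool.Agent.Lib.MP_54b7d9_co.SP
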