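import Pool.Agent.Lib.MP_54b7d9_co.SP.Defs

set_option autoImplicit false

namespace Pool.Agent.Lib.MP_54b7d9_co.SP

open Classical

variable {P : Type} [PartialOrder P]

theorem isSorted_lab [Fintype P] {w : List P} (h : w ∈ W (Finset.univ : Finset P)) :
    IsSorted (lab w) ↔ SW w := by
  obtain ⟨hn, hm⟩ := mem_W.mp h
  have hm' : ∀ x, x ∈ w := fun x => (hm x).mpr (Finset.mem_univ x)
  unfold IsSorted SW
  rw [List.pairwise_iff_getElem]
  constructor
  · intro hs i j hi hj hij hlt
    have := hs _ _ hlt
    unfold lab at this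
    rw [hn.idxOf_getElem, hn.idxOf_getElem] at this
    omega
  · intro hp a b hab
    unfold lab
    have ha := List.idxOf_lt_length_iff.mpr (hm' a)
    have hb := List.idxOf_lt_length_iff.mpr (hm' b)
    by_contra hcon
    have hne : w.idxOf a ≠ w.idxOf b := by
      intro heq
      exact hab.ne ((List.idxOf_inj (hm' a)).mp heq)
    have hlt : w.idxOf b < w.idxOf a := by omega
    have := hp (w.idxOf b) (w.idxOf a) hb ha hlt
    rw [List.getElem_idxOf, List.getElem_idxOf] at this
    exact this hab

private theorem lab_isLabeling [Fintype P] {w : List P} (h : w ∈ W (Finset.univ : Finset P)) :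
    IsLabeling (lab w) := by
  obtain ⟨hn, hm⟩ := mem_W.mp h
  have hm' : ∀ x, x ∈ w := fun x => (hm x).mpr (Finset.mem_univ x)
  have hl := length_W h
  rw [Finset.card_univ] at hl
  apply isLabeling_of
  · intro a b hab
    unfold lab at hab
    exact (List.idxOf_inj (hm' a)).mp (by omega)
  · intro x; unfold lab; omega
  · intro x
    unfold lab
    have := List.idxOf_lt_length_iff.mpr (hm' x)
    omega

private theorem lab_inj [Fintype P] {w w' : List P} (h : w ∈ W (Finset.univ : Finset P))
    (h' : w' ∈ W (Finset.univ : Finset P)) (he : lab w = lab w') : w = w' := by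
  obtain ⟨hn, hm⟩ := mem_W.mp h
  obtain ⟨hn', hm'⟩ := mem_W.mp h'
  apply List.ext_getElem
  · rw [length_W h, length_W h']
  · intro i h1 h2
    have e1 := congrFun he (w[i])
    unfold lab at e1
    rw [hn.idxOf_getElem] at e1
    have e2 : w'.idxOf w[i] = i := by omega
    have hmem : w[i] ∈ w' := (hm' _).mpr (Finset.mem_univ _)
    have e3 := List.getElem_idxOf (List.idxOf_lt_length_iff.mpr hmem)
    simp only [e2] at e3
    exact e3.symm

theorem card_labelings [Fintype P] (Q : (P → ℕ) → Prop) :
    Nat.card {L : P → ℕ // IsLabeling L ∧ Q L} =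
      ((W (Finset.univ : Finset P)).filter (fun w => Q (lab w))).card := by
  rw [← Nat.card_eq_finsetCard]
  symm
  refine Nat.card_congr (Equiv.ofBijective (fun w => ⟨lab w.1,
    lab_isLabeling (Finset.mem_filter.mp w.2).1, (Finset.mem_filter.mp w.2).2⟩) ⟨?_, ?_⟩)
  · intro w w' hww
    apply Subtype.ext
    exact lab_inj (Finset.mem_filter.mp w.2).1 (Finset.mem_filter.mp w'.2).1
      (congrArg Subtype.val hww)
  · rintro ⟨L, hL, hQ⟩
    -- the word of a labeling
    have hsurj : ∀ i : ℕ, i < Fintype.card P → ∃ x, L x = i + 1 := by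
      intro i hi
      obtain ⟨x, _, hx⟩ := hL.surjOn (show i + 1 ∈ Set.Icc 1 (Fintype.card P) from ⟨by omega, by omega⟩)
      exact ⟨x, hx⟩
    choose f hf using hsurj
    let w : List P := List.ofFn (fun i : Fin (Fintype.card P) => f i.1 i.2)
    have hlen : w.length = Fintype.card P := by simp [w]
    have hnd : w.Nodup := by
      rw [List.nodup_ofFn]
      intro i j hij
      have h1 := hf i.1 i.2
      have h2 := hf j.1 j.2
      simp only at hij
      rw [hij] at h1
      exact Fin.ext (by omega)
    have hget : ∀ (i : ℕ) (hi : i < w.length), L w[i] = i + 1 := by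
      intro i hi
      simp only [w, List.getElem_ofFn]
      exact hf _ _
    have hmem : ∀ x, x ∈ w := by
      intro x
      have h1 := hL.pos x
      have h2 := hL.le x
      have h3 : L x - 1 < w.length := by omega
      have h4 := hget (L x - 1) h3
      have h5 : w[L x - 1] = x := hL.inj (by omega)
      rw [← h5]
      exact List.getElem_mem h3
    have hw : w ∈ W (Finset.univ : Finset P) :=
      mem_W.mpr ⟨hnd, fun x => ⟨fun _ => Finset.mem_univ _, fun _ => hmem x⟩⟩
    have hlab : lab w = L := by
      funext x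
      unfold lab
      have h1 := List.idxOf_lt_length_iff.mpr (hmem x)
      have h2 := hget _ h1
      rw [List.getElem_idxOf] at h2
      exact h2.symm
    refine ⟨⟨w, Finset.mem_filter.mpr ⟨hw, by rw [hlab]; exact hQ⟩⟩, ?_⟩
    apply Subtype.ext
    exact hlab

end Pool.Agent.Lib.MP_54b7d9_co.SP
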