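import Pool.Agent.Lib.MP_54b7d9_co.SP.Defs

set_option autoImplicit false

/-! Piece F3: tangled and quasi-tangled words. -/

namespace Pool.Agent.Lib.MP_54b7d9_co.SP

open Classical

variable {P : Type} [PartialOrder P]

/-- the letters which leave the slot -/
private noncomputable def pass : P → List P → List P
  | _, [] => []
  | c, v :: s => if c < v then c :: pass v s else v :: pass c s

/-- the letter which stays in the slot -/
private noncomputable def lastc : P → List P → P
  | c, [] => c
  | c, v :: s => if c < v then lastc v s else lastc c s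

/-- promotion without the last letter -/
private noncomputable def U : List P → List P
  | [] => []
  | x :: t => pass x t

/-- the carry which leaves the slots `s` when `z` enters -/
private noncomputable def carry : List P → P → P
  | [], z => z
  | v :: s, z => if v < z then carry s v else carry s z

private theorem pr_eq : ∀ (c : P) (t : List P), pr c t = pass c t ++ [lastc c t]
  | c, [] => rfl
  | c, v :: s => by
    rw [pr, pass, lastc]
    split_ifs with h
    · rw [pr_eq v s]; rfl
    · rw [pr_eq c s]; rfl

private theorem pass_append : ∀ (c : P) (s t : List P), pass c (s ++ t) = pass c s ++ pass (lastc c s) t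
  | c, [], t => rfl
  | c, v :: s, t => by
    rw [List.cons_append, pass, pass, lastc]
    split_ifs with h
    · rw [pass_append v s t]; rfl
    · rw [pass_append c s t]; rfl

private theorem lastc_append : ∀ (c : P) (s t : List P), lastc c (s ++ t) = lastc (lastc c s) t
  | c, [], t => rfl
  | c, v :: s, t => by
    rw [List.cons_append, lastc, lastc]
    split_ifs with h
    · rw [lastc_append v s t]
    · rw [lastc_append c s t]

private theorem pr_append (c : P) (s t : List P) : pr c (s ++ t) = pass c s ++ pr (lastc c s) t := by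
  rw [pr_eq, pr_eq, pass_append, lastc_append, List.append_assoc]

private theorem st_snoc (w : List P) (z : P) : st (w ++ [z]) = ins z (st w) := by
  unfold st
  rw [List.foldl_append]
  rfl

private theorem st_cons (x : P) (t : List P) : st (x :: t) = lastc x t :: st (pass x t) := by
  induction t using List.reverseRecOn with
  | nil => rfl
  | append_singleton t z ih =>
    rw [← List.cons_append, st_snoc, ih, ins, lastc_append, pass_append]
    by_cases h : lastc x t < z
    · have e1 : lastc (lastc x t) [z] = z := by simp [lastc, h]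
      have e2 : pass (lastc x t) [z] = [lastc x t] := by simp [pass, h]
      rw [if_pos h, e1, e2, st_snoc]
    · have e1 : lastc (lastc x t) [z] = lastc x t := by simp [lastc, h]
      have e2 : pass (lastc x t) [z] = [z] := by simp [pass, h]
      rw [if_neg h, e1, e2, st_snoc]

private theorem length_ins : ∀ (c : P) (s : List P), (ins c s).length = s.length + 1
  | c, [] => rfl
  | c, v :: s => by
    rw [ins]
    split_ifs with h
    · rw [List.length_cons, length_ins v s, List.length_cons]
    · rw [List.length_cons, length_ins c s, List.length_cons]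

private theorem length_st (w : List P) : (st w).length = w.length := by
  induction w using List.reverseRecOn with
  | nil => rfl
  | append_singleton w z ih => rw [st_snoc, length_ins, ih]; simp

private theorem length_pass : ∀ (c : P) (s : List P), (pass c s).length = s.length
  | c, [] => rfl
  | c, v :: s => by
    rw [pass]
    split_ifs with h
    · rw [List.length_cons, length_pass v s, List.length_cons]
    · rw [List.length_cons, length_pass c s, List.length_cons]

private theorem length_U (w : List P) : (U w).length = w.length - 1 := by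
  cases w with
  | nil => rfl
  | cons x t => rw [U, length_pass]; simp

private theorem length_iter (k : ℕ) (w : List P) : (U^[k] w).length = w.length - k := by
  induction k generalizing w with
  | zero => rfl
  | succ k ih => rw [Function.iterate_succ_apply, ih, length_U]; omega

private theorem st_split (k : ℕ) (w : List P) (hk : k ≤ w.length) :
    st w = (st w).take k ++ st (U^[k] w) := by
  induction k generalizing w with
  | zero => simp
  | succ k ih =>
    cases w with
    | nil => simp at hk
    | cons x t =>
      have h1 : k ≤ (pass x t).length := by rw [length_pass]; simpa using hk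
      rw [Function.iterate_succ_apply, st_cons, U, List.take_succ_cons, List.cons_append,
        ← ih (pass x t) h1]

private theorem U_snoc (k : ℕ) (w : List P) (z : P) (hk : k ≤ w.length) :
    U^[k] (w ++ [z]) = U^[k] w ++ [carry ((st w).take k) z] := by
  induction k generalizing w z with
  | zero => simp [carry]
  | succ k ih =>
    cases w with
    | nil => simp at hk
    | cons x t =>
      have h1 : k ≤ (pass x t).length := by rw [length_pass]; simpa using hk
      rw [Function.iterate_succ_apply, Function.iterate_succ_apply, st_cons, U, List.cons_append, U,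
        List.take_succ_cons, carry, pass_append]
      by_cases h : lastc x t < z
      · have e2 : pass (lastc x t) [z] = [lastc x t] := by simp [pass, h]
        rw [e2, if_pos h, ih _ _ h1]
      · have e2 : pass (lastc x t) [z] = [z] := by simp [pass, h]
        rw [e2, if_neg h, ih _ _ h1]

private theorem mem_ins : ∀ (c : P) (s : List P) (y : P), y ∈ ins c s ↔ y = c ∨ y ∈ s
  | c, [], y => by simp [ins]
  | c, v :: s, y => by
    rw [ins]
    split_ifs with h
    · rw [List.mem_cons, mem_ins v s, List.mem_cons]
    · rw [List.mem_cons, mem_ins c s, List.mem_cons]; tauto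

private theorem isLE_ins : ∀ (c : P) (s : List P), IsLE s → IsLE (ins c s)
  | c, [], _ => List.pairwise_singleton _ _
  | c, v :: s, h => by
    have h1 := List.pairwise_cons.mp h
    rw [ins]
    split_ifs with hlt
    · refine List.pairwise_cons.mpr ⟨fun y hy => ?_, isLE_ins v s h1.2⟩
      rcases (mem_ins v s y).mp hy with rfl | hy
      · exact hlt.not_gt
      · exact fun hc => h1.1 y hy (hlt.trans hc)
    · refine List.pairwise_cons.mpr ⟨fun y hy => ?_, isLE_ins c s h1.2⟩
      rcases (mem_ins c s y).mp hy with rfl | hy
      · exact hlt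
      · exact h1.1 y hy

private theorem isLE_st (w : List P) : IsLE (st w) := by
  induction w using List.reverseRecOn with
  | nil => exact List.Pairwise.nil
  | append_singleton w z ih => rw [st_snoc]; exact isLE_ins z _ ih

/-- a carry is below a letter after the slots iff the letter which entered is -/
private theorem carry_lt : ∀ (s : List P) (z y : P), (∀ v ∈ s, ¬ v < y) → (carry s z < y ↔ z < y)
  | [], z, y, _ => Iff.rfl
  | v :: s, z, y, h => by
    have hs : ∀ v ∈ s, ¬ v < y := fun u hu => h u (List.mem_cons_of_mem _ hu)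
    rw [carry]
    split_ifs with hlt
    · rw [carry_lt s v y hs]
      have hv := h v (List.mem_cons_self ..)
      exact ⟨fun h' => absurd h' hv, fun h' => absurd (hlt.trans h') hv⟩
    · exact carry_lt s z y hs

/-! ### the frozen letters -/

private theorem le_lastc : ∀ (c : P) (t : List P), c ≤ lastc c t
  | c, [] => le_refl _
  | c, v :: s => by
    rw [lastc]
    split_ifs with h
    · exact h.le.trans (le_lastc v s)
    · exact le_lastc c s

private theorem mem_pass_lastc : ∀ (c : P) (t : List P) (y : P),
    (y ∈ pass c t ∨ y = lastc c t) ↔ (y = c ∨ y ∈ t)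
  | c, [], y => by simp [pass, lastc]
  | c, v :: s, y => by
    rw [pass, lastc]
    split_ifs with h
    · have := mem_pass_lastc v s y
      rw [List.mem_cons, List.mem_cons]
      tauto
    · have := mem_pass_lastc c s y
      rw [List.mem_cons, List.mem_cons]
      tauto

private theorem not_lastc_lt : ∀ (c : P) (t : List P), ∀ a ∈ pass c t, ¬ lastc c t < a
  | c, [], a, ha => by simp [pass] at ha
  | c, v :: s, a, ha => by
    rw [pass] at ha
    rw [lastc]
    split_ifs at ha ⊢ with h
    · rcases List.mem_cons.mp ha with rfl | ha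
      · exact (h.le.trans (le_lastc v s)).not_gt
      · exact not_lastc_lt v s a ha
    · rcases List.mem_cons.mp ha with rfl | ha
      · exact fun hc => h ((le_lastc c s).trans_lt hc)
      · exact not_lastc_lt c s a ha

private theorem sw_pr : ∀ (c : P) (f : List P), SW f → (∀ y ∈ f, ¬ y < c) → SW (pr c f)
  | c, [], _, _ => List.pairwise_singleton _ _
  | c, v :: s, h, hc => by
    have h1 := List.pairwise_cons.mp h
    have hm : ∀ (c : P) (s : List P) (y : P), y ∈ pr c s ↔ y = c ∨ y ∈ s := by
      intro c s y
      rw [pr_eq, List.mem_append, List.mem_singleton]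
      exact mem_pass_lastc c s y
    rw [pr]
    split_ifs with hlt
    · refine List.pairwise_cons.mpr ⟨fun y hy => ?_, sw_pr v s h1.2 h1.1⟩
      rcases (hm v s y).mp hy with rfl | hy
      · exact hlt.not_gt
      · exact hc y (List.mem_cons_of_mem _ hy)
    · refine List.pairwise_cons.mpr ⟨fun y hy => ?_,
        sw_pr c s h1.2 fun y hy => hc y (List.mem_cons_of_mem _ hy)⟩
      rcases (hm c s y).mp hy with rfl | hy
      · exact hlt
      · exact h1.1 y hy

private theorem frozen (w : List P) (k : ℕ) (hk : k ≤ w.length) :
    ∃ f : List P, P1^[k] w = U^[k] w ++ f ∧ SW f ∧ ∀ x ∈ U^[k] w, ∀ y ∈ f, ¬ y < x := by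
  induction k with
  | zero => exact ⟨[], by simp, List.Pairwise.nil, by simp⟩
  | succ k ih =>
    obtain ⟨f, h1, h2, h3⟩ := ih (by omega)
    have hlen := length_iter k w
    rw [Function.iterate_succ_apply', Function.iterate_succ_apply', h1]
    cases hu : U^[k] w with
    | nil => rw [hu] at hlen; simp at hlen; omega
    | cons x u =>
      rw [hu] at h3
      refine ⟨pr (lastc x u) f, ?_, ?_, ?_⟩
      · rw [List.cons_append, P1, U, pr_append]
      · apply sw_pr _ _ h2
        intro y hy
        apply h3 _ _ y hy
        have := (mem_pass_lastc x u (lastc x u)).mp (Or.inr rfl)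
        rw [List.mem_cons]; exact this
      · intro a ha y hy
        rw [U] at ha
        rw [pr_eq, List.mem_append, List.mem_singleton, mem_pass_lastc] at hy
        rcases hy with rfl | hy
        · exact not_lastc_lt x u a ha
        · apply h3 _ _ y hy
          rw [List.mem_cons]
          exact (mem_pass_lastc x u a).mp (Or.inl ha)

private theorem sw_iter (w : List P) (k : ℕ) (hk : k ≤ w.length) : SW (P1^[k] w) ↔ SW (U^[k] w) := by
  obtain ⟨f, h1, h2, h3⟩ := frozen w k hk
  rw [h1]
  unfold SW
  rw [List.pairwise_append]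
  exact ⟨fun h => h.1, fun h => ⟨h, h2, h3⟩⟩

/-! ### the last letters -/

private theorem one_left (u : List P) (hu : 1 ≤ u.length) :
    ∃ (s : List P) (a : P), st u = s ++ [a] ∧ (st u).take (u.length - 1) = s ∧
      U^[u.length - 1] u = [a] := by
  have hlen := length_iter (u.length - 1) u
  obtain ⟨a, ha⟩ : ∃ a, U^[u.length - 1] u = [a] := List.length_eq_one_iff.mp (by omega)
  have h := st_split (u.length - 1) u (by omega)
  rw [ha] at h
  exact ⟨(st u).take (u.length - 1), a, h, rfl, ha⟩

theorem tangled_word {S : Finset P} {w : List P} (h : w ∈ W S) (hn : 2 ≤ S.card) :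
    ¬ SW (P1^[S.card - 2] w) ↔ TW w := by
  have hl := length_W h
  rw [sw_iter w _ (by omega)]
  obtain ⟨w', z, rfl⟩ : ∃ w' z, w = w' ++ [z] := by
    rcases List.eq_nil_or_concat w with h0 | ⟨w', z, h0⟩
    · rw [h0] at hl; simp at hl; omega
    · exact ⟨w', z, by rw [h0, List.concat_eq_append]⟩
  have hl' : w'.length = S.card - 1 := by
    rw [List.length_append, List.length_singleton] at hl; omega
  obtain ⟨s, x1, h1, h2, h3⟩ := one_left w' (by omega)
  have hk : S.card - 2 = w'.length - 1 := by omega
  rw [hk, U_snoc _ _ _ (by omega), h2, h3]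
  have hle : IsLE (s ++ [x1]) := h1 ▸ isLE_st w'
  have hlt := carry_lt s z x1 (fun v hv => (List.pairwise_append.mp hle).2.2 v hv x1
    (List.mem_singleton_self _))
  have e1 : SW ([x1] ++ [carry s z]) ↔ ¬ carry s z < x1 := by
    unfold SW
    simp
  rw [e1, hlt, not_not]
  constructor
  · intro hz
    exact ⟨w', z, s, x1, rfl, h1, hz⟩
  · rintro ⟨w'', z', m, y1, g1, g2, g3⟩
    obtain ⟨e2, e3⟩ := List.append_inj' g1 rfl
    rw [← e2, h1] at g2
    have e4 := (List.append_inj' g2 rfl).2
    have e5 : z = z' := by simpa using e3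
    have e6 : x1 = y1 := by simpa using e4
    rw [e5, e6]; exact g3

theorem quasi_word {S : Finset P} {w : List P} (h : w ∈ W S) (hn : 3 ≤ S.card) :
    (¬ SW (P1^[S.card - 3] w) ∧ SW (P1^[S.card - 2] w)) ↔ QW w := by
  have hl := length_W h
  rw [sw_iter w _ (by omega), sw_iter w _ (by omega)]
  obtain ⟨u, l, z, rfl⟩ : ∃ u l z, w = u ++ [l, z] := by
    rcases List.eq_nil_or_concat w with h0 | ⟨w', z, h0⟩
    · rw [h0] at hl; simp at hl; omega
    · rcases List.eq_nil_or_concat w' with h0' | ⟨u, l, h0'⟩
      · rw [h0, h0'] at hl; simp at hl; omega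
      · exact ⟨u, l, z, by rw [h0, h0']; simp⟩
  have hl' : u.length = S.card - 2 := by
    rw [List.length_append] at hl; simp at hl; omega
  obtain ⟨s0, a, h1, h2, h3⟩ := one_left u (by omega)
  have hk : S.card - 3 = u.length - 1 := by omega
  have hk' : S.card - 2 = (u.length - 1) + 1 := by omega
  have hw : u ++ [l, z] = (u ++ [l]) ++ [z] := by simp
  have hul : (u ++ [l]).length = u.length + 1 := by simp
  set s1 := (st (u ++ [l])).take (u.length - 1) with hs1
  have hU1 : U^[u.length - 1] (u ++ [l]) = [a, carry s0 l] := by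
    rw [U_snoc _ _ _ (by omega), h2, h3]; rfl
  have hU2 : U^[u.length - 1] (u ++ [l, z]) = [a, carry s0 l, carry s1 z] := by
    rw [hw, U_snoc _ _ _ (by omega), hU1]; rfl
  rw [hk, hk', Function.iterate_succ_apply', hU2]
  set b := carry s0 l with hb
  set c := carry s1 z with hc
  have hle0 : IsLE (s0 ++ [a]) := h1 ▸ isLE_st u
  have hba : b < a ↔ l < a := carry_lt s0 l a (fun v hv => (List.pairwise_append.mp hle0).2.2 v hv a
    (List.mem_singleton_self _))
  have hsplit := st_split (u.length - 1) (u ++ [l]) (by omega)
  rw [hU1, ← hs1] at hsplit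
  -- the last two letters of the state
  obtain ⟨x2, x1, hx, hxab⟩ : ∃ x2 x1, st [a, b] = [x2, x1] ∧
      ((a < b ∧ x2 = b ∧ x1 = a) ∨ (¬ a < b ∧ x2 = a ∧ x1 = b)) := by
    by_cases hab : a < b
    · refine ⟨b, a, ?_, Or.inl ⟨hab, rfl, rfl⟩⟩
      simp [st, ins, hab]
    · refine ⟨a, b, ?_, Or.inr ⟨hab, rfl, rfl⟩⟩
      simp [st, ins, hab]
  rw [hx] at hsplit
  have hle1 : IsLE (s1 ++ [x2, x1]) := hsplit ▸ isLE_st (u ++ [l])
  have hp := List.pairwise_append.mp hle1
  have hc1 : c < x1 ↔ z < x1 := carry_lt s1 z x1 (fun v hv => hp.2.2 v hv x1 (by simp))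
  have hc2 : c < x2 ↔ z < x2 := carry_lt s1 z x2 (fun v hv => hp.2.2 v hv x2 (by simp))
  have hx21 : ¬ x2 < x1 := (List.pairwise_cons.mp hp.2.1).1 x1 (by simp)
  have e1 : SW [a, b, c] ↔ (¬ b < a ∧ ¬ c < a ∧ ¬ c < b) := by
    unfold SW
    simp
    tauto
  have e2 : U [a, b, c] = [x1, if x2 < c then x2 else c] := by
    rcases hxab with ⟨hab, rfl, rfl⟩ | ⟨hab, rfl, rfl⟩
    · rw [U, pass, if_pos hab, pass, pass]
      split_ifs <;> rfl
    · rw [U, pass, if_neg hab, pass, pass]
      split_ifs <;> rfl
  have e3 : SW [x1, if x2 < c then x2 else c] ↔ ¬ z < x1 := by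
    have e4 : SW [x1, if x2 < c then x2 else c] ↔ ¬ (if x2 < c then x2 else c) < x1 := by
      unfold SW
      simp
    rw [e4, ← hc1]
    split_ifs with hlt
    · exact ⟨fun _ hcx => hx21 (hlt.trans hcx), fun _ => hx21⟩
    · exact Iff.rfl
  have e5 : (¬ c < a ∧ ¬ c < b) ↔ (¬ z < x1 ∧ ¬ z < x2) := by
    rw [← hc1, ← hc2]
    rcases hxab with ⟨hab, rfl, rfl⟩ | ⟨hab, rfl, rfl⟩
    · exact Iff.rfl
    · exact And.comm
  have e6 : (¬ SW [a, b, c] ∧ SW (U [a, b, c])) ↔ (¬ z < x1 ∧ (z < x2 ∨ l < a)) := by
    rw [e1, e2, e3, e5, hba]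
    tauto
  rw [e6]
  constructor
  · rintro ⟨g1, g2⟩
    exact ⟨u, l, z, s1, x2, x1, s0, a, rfl, hsplit, h1, g1, g2⟩
  · rintro ⟨u', l', z', m, y2, y1, m', a', g1, g2, g3, g4, g5⟩
    obtain ⟨f1, f2⟩ := List.append_inj' g1 rfl
    have f3 : l = l' ∧ z = z' := by simpa using f2
    obtain ⟨f4, f5⟩ := f3
    subst f1 f4 f5
    rw [hsplit] at g2
    rw [h1] at g3
    have f6 : x2 = y2 ∧ x1 = y1 := by simpa using (List.append_inj' g2 rfl).2
    have f7 : a = a' := by simpa using (List.append_inj' g3 rfl).2
    obtain ⟨f8, f9⟩ := f6
    subst f7 f8 f9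
    exact ⟨g4, g5⟩

end Pool.Agent.Lib.MP_54b7d9_co.SP
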