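import Pool.Agent.Lib.MP_54b7d9_co.SP.A

set_option autoImplicit false

/-! Changing the order inside a module. -/

namespace Pool.Agent.Lib.MP_54b7d9_co.SP

open Classical

variable {P : Type}

/-- equal, or both in `B` -/
private def Eqv (B : Set P) (x y : P) : Prop := x = y ∨ (x ∈ B ∧ y ∈ B)

private theorem Eqv.memB {B : Set P} {x y : P} (h : Eqv B x y) : x ∈ B ↔ y ∈ B := by
  rcases h with rfl | ⟨h1, h2⟩
  · exact Iff.rfl
  · exact ⟨fun _ => h2, fun _ => h1⟩

private theorem lt_iff {o o' : PartialOrder P} {B : Set P} (h : ModuleSwap o o' B)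
    {x x' y y' : P} (hx : Eqv B x x') (hy : Eqv B y y') (hn : ¬ (x ∈ B ∧ y ∈ B)) :
    o.lt x y ↔ o'.lt x' y' := by
  have hn' : ¬ (x' ∈ B ∧ y' ∈ B) := fun hc => hn ⟨hx.memB.mpr hc.1, hy.memB.mpr hc.2⟩
  rw [← h.agree x' y' hn']
  rcases hx with rfl | ⟨h1, h2⟩
  · rcases hy with rfl | ⟨h3, h4⟩
    · exact Iff.rfl
    · have hxB : x ∉ B := fun hc => hn ⟨hc, h3⟩
      exact ⟨h.below x hxB y h3 y' h4, h.below x hxB y' h4 y h3⟩
  · have hyB : y ∉ B := fun hc => hn ⟨h1, hc⟩
    rcases hy with rfl | ⟨h3, h4⟩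
    · exact ⟨h.above y hyB x h1 x' h2, h.above y hyB x' h2 x h1⟩
    · exact absurd h3 hyB

private theorem ins_eqv {o o' : PartialOrder P} {B : Set P} (h : ModuleSwap o o' B)
    {s s' : List P} (hs : List.Forall₂ (Eqv B) s s') :
    ∀ {c c' : P}, Eqv B c c' → List.Forall₂ (Eqv B) (@ins P o c s) (@ins P o' c' s') := by
  induction hs with
  | nil =>
    intro c c' hc
    simp only [ins]
    exact List.Forall₂.cons hc List.Forall₂.nil
  | @cons v v' s s' hv _ ih =>
    intro c c' hc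
    simp only [ins]
    by_cases hb : v ∈ B ∧ c ∈ B
    · have hb' : v' ∈ B ∧ c' ∈ B := ⟨hv.memB.mp hb.1, hc.memB.mp hb.2⟩
      have h1 : Eqv B c v' := Or.inr ⟨hb.2, hb'.1⟩
      have h2 : Eqv B v c' := Or.inr ⟨hb.1, hb'.2⟩
      split_ifs
      · exact List.Forall₂.cons hc (ih hv)
      · exact List.Forall₂.cons h1 (ih h2)
      · exact List.Forall₂.cons h2 (ih h1)
      · exact List.Forall₂.cons hv (ih hc)
    · have hiff := lt_iff h hv hc hb
      by_cases hlt : o.lt v c
      · rw [if_pos hlt, if_pos (hiff.mp hlt)]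
        exact List.Forall₂.cons hc (ih hv)
      · rw [if_neg hlt, if_neg (fun h' => hlt (hiff.mpr h'))]
        exact List.Forall₂.cons hv (ih hc)

private theorem st_eqv {o o' : PartialOrder P} {B : Set P} (h : ModuleSwap o o' B) (w : List P) :
    List.Forall₂ (Eqv B) (@st P o w) (@st P o' w) := by
  induction w using List.reverseRecOn with
  | nil => exact List.Forall₂.nil
  | append_singleton w z ih =>
    rw [@st_append P o, @st_append P o']
    exact ins_eqv h ih (Or.inl rfl)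

private theorem forall₂_last {B : Set P} {m : List P} {x : P} {s : List P}
    (h : List.Forall₂ (Eqv B) (m ++ [x]) s) : ∃ m' x', s = m' ++ [x'] ∧ Eqv B x x' ∧
      List.Forall₂ (Eqv B) m m' := by
  have h' := List.rel_reverse h
  rw [List.reverse_append] at h'
  simp only [List.reverse_cons, List.reverse_nil, List.nil_append, List.singleton_append] at h'
  obtain ⟨x', t, hx, ht, hs⟩ := List.forall₂_cons_left_iff.mp h'
  refine ⟨t.reverse, x', ?_, hx, ?_⟩
  · have := congrArg List.reverse hs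
    rw [List.reverse_reverse, List.reverse_cons] at this
    exact this
  · have := List.rel_reverse ht
    rwa [List.reverse_reverse] at this

private theorem last_not_above {o : PartialOrder P} {S : Finset P} {w : List P}
    (hw : w ∈ W S) {m : List P} {x : P} (hs : @st P o w = m ++ [x]) {a : P} (ha : a ∈ S) :
    ¬ o.lt a x := by
  intro hlt
  have h1 := @st_mem P o S w hw
  rw [hs] at h1
  have h2 := (@mem_LinE P o S _).mp h1
  have h3 := (@mem_W P o _ _).mp h2.1 |>.2 a
  have h4 : a ∈ m ++ [x] := h3.mpr ha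
  rcases List.mem_append.mp h4 with h5 | h5
  · have h6 := (List.pairwise_append.mp h2.2).2.2 a h5 x (List.mem_singleton_self x)
    exact h6 hlt
  · rw [List.mem_singleton] at h5
    subst h5
    exact @lt_irrefl P o.toPreorder _ hlt

private theorem second_not_above {o : PartialOrder P} {S : Finset P} {w : List P}
    (hw : w ∈ W S) {m : List P} {x y : P} (hs : @st P o w = m ++ [x, y]) {a : P} (ha : a ∈ S)
    (hay : a ≠ y) : ¬ o.lt a x := by
  intro hlt
  have h1 := @st_mem P o S w hw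
  rw [hs] at h1
  have h2 := (@mem_LinE P o S _).mp h1
  have h3 := (@mem_W P o _ _).mp h2.1 |>.2 a
  have h4 : a ∈ m ++ [x, y] := h3.mpr ha
  rcases List.mem_append.mp h4 with h5 | h5
  · have h6 := (List.pairwise_append.mp h2.2).2.2 a h5 x (by simp)
    exact h6 hlt
  · simp only [List.mem_cons, List.not_mem_nil, or_false] at h5
    rcases h5 with h5 | h5
    · subst h5
      exact @lt_irrefl P o.toPreorder _ hlt
    · exact hay h5

private theorem W_concat [PartialOrder P] {S : Finset P} {w' : List P} {z : P} (h : w' ++ [z] ∈ W S) :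
    w' ∈ W (S.erase z) := by
  obtain ⟨h1, h2⟩ := mem_W.mp h
  rw [List.nodup_append] at h1
  refine mem_W.mpr ⟨h1.1, fun x => ?_⟩
  rw [Finset.mem_erase, ← h2 x, List.mem_append, List.mem_singleton]
  constructor
  · intro hx
    exact ⟨h1.2.2 x hx z (List.mem_singleton_self z), Or.inl hx⟩
  · rintro ⟨h3, h4 | h4⟩
    · exact h4
    · exact absurd h4 h3

theorem TW_swap [Fintype P] {o o' : PartialOrder P} {B : Set P} (h : ModuleSwap o o' B)
    {A : Finset P} (hA : 1 ≤ A.card) (hAB : ∀ a ∈ A, a ∉ B ∧ ∀ b ∈ B, o.lt a b)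
    {w : List P} (hw : w ∈ W (Finset.univ : Finset P)) (hT : @TW P o w) : @TW P o' w := by
  obtain ⟨w', z, m, x1, rfl, hs, hz⟩ := hT
  have hw' := @W_concat P o _ _ _ hw
  have h1 := st_eqv h w'
  rw [hs] at h1
  obtain ⟨m', x1', hs', hx, _⟩ := forall₂_last h1
  refine ⟨w', z, m', x1', rfl, hs', ?_⟩
  have hn : ¬ (z ∈ B ∧ x1 ∈ B) := by
    rintro ⟨hzB, hxB⟩
    obtain ⟨a, ha⟩ := Finset.card_pos.mp hA
    have haz : a ≠ z := fun hc => (hAB a ha).1 (hc ▸ hzB)
    exact last_not_above hw' hs (Finset.mem_erase.mpr ⟨haz, Finset.mem_univ a⟩)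
      ((hAB a ha).2 x1 hxB)
  exact (lt_iff h (Or.inl rfl) hx hn).mp hz

theorem QW_swap [Fintype P] {o o' : PartialOrder P} {B : Set P} (h : ModuleSwap o o' B)
    {A : Finset P} (hA : 2 ≤ A.card) (hAB : ∀ a ∈ A, a ∉ B ∧ ∀ b ∈ B, o.lt a b)
    {w : List P} (hw : w ∈ W (Finset.univ : Finset P)) (hT : @QW P o w) : @QW P o' w := by
  obtain ⟨u, l, z, m, x2, x1, m', a, rfl, hs, hu, hz, hor⟩ := hT
  obtain ⟨a1, ha1, a2, ha2, hne⟩ := Finset.one_lt_card.mp hA
  have hw1 : u ++ [l] ∈ W (Finset.univ.erase z) := by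
    apply @W_concat P o
    rwa [List.append_assoc]
  have hw2 : u ∈ W ((Finset.univ.erase z).erase l) := @W_concat P o _ _ _ hw1
  have h1 := st_eqv h (u ++ [l])
  have h2 := st_eqv h u
  have hs0 : m ++ [x2, x1] = (m ++ [x2]) ++ [x1] := by simp
  have hs1 : @st P o (u ++ [l]) = (m ++ [x2]) ++ [x1] := by rw [hs, hs0]
  rw [hs1] at h1
  rw [hu] at h2
  obtain ⟨n1, x1', hs', hx1, h3⟩ := forall₂_last h1
  obtain ⟨n2, x2', hn1, hx2, _⟩ := forall₂_last h3
  obtain ⟨n3, a', hu', haa, _⟩ := forall₂_last h2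
  refine ⟨u, l, z, n2, x2', x1', n3, a', rfl, ?_, hu', ?_, ?_⟩
  · rw [hs', hn1]; simp
  · have hn : ¬ (z ∈ B ∧ x1 ∈ B) := by
      rintro ⟨hzB, hxB⟩
      have haz : a1 ≠ z := fun hc => (hAB a1 ha1).1 (hc ▸ hzB)
      exact last_not_above hw1 hs1 (Finset.mem_erase.mpr ⟨haz, Finset.mem_univ a1⟩)
        ((hAB a1 ha1).2 x1 hxB)
    exact fun hc => hz ((lt_iff h (Or.inl rfl) hx1 hn).mpr hc)
  · rcases hor with hor | hor
    · left
      have hn : ¬ (z ∈ B ∧ x2 ∈ B) := by
        rintro ⟨hzB, hxB⟩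
        have key : ∀ a0 ∈ A, a0 = x1 := by
          intro a0 ha0
          by_contra hcon
          have haz : a0 ≠ z := fun hc => (hAB a0 ha0).1 (hc ▸ hzB)
          exact second_not_above hw1 hs (Finset.mem_erase.mpr ⟨haz, Finset.mem_univ a0⟩) hcon
            ((hAB a0 ha0).2 x2 hxB)
        exact hne ((key a1 ha1).trans (key a2 ha2).symm)
      exact (lt_iff h (Or.inl rfl) hx2 hn).mp hor
    · right
      have hn : ¬ (l ∈ B ∧ a ∈ B) := by
        rintro ⟨hlB, haB⟩
        have key : ∀ a0 ∈ A, a0 = z := by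
          intro a0 ha0
          by_contra hcon
          have hal : a0 ≠ l := fun hc => (hAB a0 ha0).1 (hc ▸ hlB)
          exact last_not_above hw2 hu (Finset.mem_erase.mpr ⟨hal, Finset.mem_erase.mpr
            ⟨hcon, Finset.mem_univ a0⟩⟩) ((hAB a0 ha0).2 a haB)
        exact hne ((key a1 ha1).trans (key a2 ha2).symm)
      exact (lt_iff h (Or.inl rfl) haa hn).mp hor

end Pool.Agent.Lib.MP_54b7d9_co.SP
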