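import Pool.Agent.Lib.MP_54b7d9_co.SP.B2
import Pool.Agent.Lib.MP_54b7d9_co.SP.B3
import Pool.Agent.Lib.MP_54b7d9_co.SP.D
import Pool.Agent.Lib.MP_54b7d9_co.SP.D4
import Pool.Agent.Lib.MP_54b7d9_co.SP.D5
import Pool.Agent.Lib.MP_54b7d9_co.SP.D6
import Pool.Agent.Lib.MP_54b7d9_co.SP.E2
import Pool.Agent.Lib.MP_54b7d9_co.SP.F1
import Pool.Agent.Lib.MP_54b7d9_co.SP.F2
import Pool.Agent.Lib.MP_54b7d9_co.SP.F3
import Pool.Agent.Lib.MP_54b7d9_co.SP.G
import Pool.Agent.Lib.MP_54b7d9_co.Bound

set_option autoImplicit false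

namespace Pool.Agent.Lib.MP_54b7d9_co.SP

open Classical

variable {P : Type} [PartialOrder P]

theorem tau_nonneg (S : Finset P) : 0 ≤ tau S := by
  unfold tau
  refine Finset.sum_nonneg fun x _ => Finset.sum_nonneg fun y _ => ?_
  exact div_nonneg (e_pos _).le (e_pos _).le

theorem g2_small {S : Finset P} (h : S.card ≤ 2) : g2 S = 0 := by
  unfold g2
  refine Finset.sum_eq_zero fun z hz => Finset.sum_eq_zero fun y1 hy1 =>
    Finset.sum_eq_zero fun y2 hy2 => ?_
  exfalso
  have h1 := (Finset.mem_filter.mp hy1).1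
  have h2 := (Finset.mem_filter.mp hy2).1
  have c1 := Finset.card_erase_of_mem hz
  have c2 := Finset.card_erase_of_mem h1
  have c3 := Finset.card_pos.mpr ⟨y2, h2⟩
  omega

theorem g3_small {S : Finset P} (h : S.card ≤ 2) : g3 S = 0 := by
  unfold g3
  rw [Finset.sum_eq_zero, zero_div]
  intro l hl
  refine Finset.sum_eq_zero fun a ha => Finset.sum_eq_zero fun z hz => ?_
  exfalso
  have h1 := (Finset.mem_filter.mp ha)
  have h2 : a ∈ S.erase l := Finset.mem_erase.mpr ⟨h1.2.1.ne', h1.1⟩
  have c1 := Finset.card_erase_of_mem hl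
  have c2 := Finset.card_erase_of_mem h2
  have c3 := Finset.card_pos.mpr ⟨z, hz⟩
  omega

theorem tau_single {S : Finset P} (h : S.card ≤ 1) : tau S = 0 := by
  unfold tau
  refine Finset.sum_eq_zero fun x hx => Finset.sum_eq_zero fun y hy => ?_
  exfalso
  have h1 := (Finset.mem_filter.mp hy)
  exact h1.2.1.ne (Finset.card_le_one.mp h x hx y h1.1)

theorem good_small {S : Finset P} (h : S.card ≤ 1) : Good S := by
  refine ⟨?_, ?_, ?_⟩
  · rw [tau_single h]; norm_num
  · rw [g2_small (by omega), g3_small (by omega)]; norm_num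
  · rw [g2_small (by omega), tau_single h]; norm_num

theorem Inc.disjoint {A B : Finset P} (h : Inc A B) : Disjoint A B := by
  rw [Finset.disjoint_left]
  intro x hx hx'
  exact (h x hx x hx').1 le_rfl

theorem Below.disjoint {A B : Finset P} (h : Below A B) : Disjoint A B := by
  rw [Finset.disjoint_left]
  intro x hx hx'
  exact lt_irrefl _ (h x hx x hx')

theorem good_par {A B : Finset P} (h : Inc A B) (hA : A.Nonempty) (hB : B.Nonempty)
    (gA : Good A) (gB : Good B) : Good (A ∪ B) := by
  have ha : (1 : ℚ) ≤ A.card := by exact_mod_cast Finset.card_pos.mpr hA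
  have hb : (1 : ℚ) ≤ B.card := by exact_mod_cast Finset.card_pos.mpr hB
  have ht := tau_par h hA hB
  have hn1 : (0 : ℚ) < (A.card : ℚ) + B.card - 1 := by linarith
  have hτ : tau (A ∪ B) ≤ 1 := by
    rw [ht, div_le_one hn1]
    have h1 := mul_le_mul_of_nonneg_left gA.t1 (sub_nonneg.mpr ha)
    have h2 := mul_le_mul_of_nonneg_left gB.t1 (sub_nonneg.mpr hb)
    linarith
  rcases Nat.lt_or_ge (A.card + B.card) 3 with hn | hn
  · have hc : (A ∪ B).card ≤ 2 := by
      rw [Finset.card_union_of_disjoint h.disjoint]; omega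
    refine ⟨hτ, ?_, ?_⟩
    · rw [g2_small hc, g3_small hc]; norm_num
    · rw [g2_small hc]; linarith
  · have hnq : (3 : ℚ) ≤ (A.card : ℚ) + B.card := by exact_mod_cast hn
    have hn2 : (0 : ℚ) < (A.card : ℚ) + B.card - 2 := by linarith
    have hpos : (0 : ℚ) < ((A.card : ℚ) + B.card - 1) * ((A.card : ℚ) + B.card - 2) :=
      mul_pos hn1 hn2
    have key : ∀ (a : ℕ), 1 ≤ a → (0 : ℚ) ≤ ((a : ℚ) - 1) * ((a : ℚ) - 2) := by
      intro a ha
      rcases Nat.lt_or_ge a 2 with h2 | h2
      · have : a = 1 := by omega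
        rw [this]; norm_num
      · have h1 : (2 : ℚ) ≤ a := by exact_mod_cast h2
        exact mul_nonneg (by linarith) (by linarith)
    have kA := key A.card (Finset.card_pos.mpr hA)
    have kB := key B.card (Finset.card_pos.mpr hB)
    have h2 := g2_par h hA hB hn
    have h3 := g3_par h hA hB hn
    have tA := mul_le_mul_of_nonneg_left gA.t1
      (mul_nonneg (sub_nonneg.mpr ha) (by linarith : (0 : ℚ) ≤ B.card))
    have tB := mul_le_mul_of_nonneg_left gB.t1
      (mul_nonneg (sub_nonneg.mpr hb) (by linarith : (0 : ℚ) ≤ A.card))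
    have qA := mul_le_mul_of_nonneg_left gA.q kA
    have qB := mul_le_mul_of_nonneg_left gB.q kB
    have rA := mul_le_mul_of_nonneg_left gA.r kA
    have rB := mul_le_mul_of_nonneg_left gB.r kB
    refine ⟨hτ, ?_, ?_⟩
    · rw [h2, h3, ← add_div, div_le_iff₀ hpos]
      nlinarith
    · rw [h2, ht]
      have : (((A.card : ℚ) - 1) * tau A + ((B.card : ℚ) - 1) * tau B) /
          ((A.card : ℚ) + B.card - 1) =
          ((((A.card : ℚ) - 1) * tau A + ((B.card : ℚ) - 1) * tau B) *
            ((A.card : ℚ) + B.card - 2)) /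
          (((A.card : ℚ) + B.card - 1) * ((A.card : ℚ) + B.card - 2)) := by
        field_simp
      rw [this, ← add_div, div_le_iff₀ hpos]
      nlinarith

theorem good_ser {A B : Finset P} (h : Below A B) (hA : A.Nonempty) (hB : B.Nonempty)
    (gA : Good A) (gB : Good B) : Good (A ∪ B) := by
  have hb : (1 : ℚ) ≤ B.card := by exact_mod_cast Finset.card_pos.mpr hB
  have ha : (1 : ℚ) ≤ A.card := by exact_mod_cast Finset.card_pos.mpr hA
  have hA1 := Finset.card_pos.mpr hA
  rcases Nat.lt_or_ge A.card 2 with h2 | h2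
  · have hc : A.card = 1 := by omega
    obtain ⟨x, rfl⟩ := Finset.card_eq_one.mp hc
    have ht := tau_ser_one h hB
    rcases Nat.lt_or_ge B.card 2 with hb2 | hb2
    · have hc : ({x} ∪ B : Finset P).card ≤ 2 := by
        rw [Finset.card_union_of_disjoint h.disjoint, hc]; omega
      refine ⟨ht.le, ?_, ?_⟩
      · rw [g2_small hc, g3_small hc]; norm_num
      · rw [g2_small hc, ht]; norm_num
    · have hq2 : (2 : ℚ) ≤ B.card := by exact_mod_cast hb2
      have h3 := g3_ser_one h hb2
      have h4 := g2_ser_one h hB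
      have h5 := tau_nonneg B
      have h6 : 0 ≤ tau B / B.card := div_nonneg h5 (by linarith)
      refine ⟨ht.le, ?_, ?_⟩
      · rw [h3, h4]; linarith [gB.t1]
      · rw [h4, ht]; linarith [gB.t1]
  · have ht := tau_ser h h2
    have h3 := g3_ser h h2
    have hn1 : (0 : ℚ) < (A.card : ℚ) + B.card - 1 := by linarith
    rcases Nat.lt_or_ge A.card 3 with h4 | h4
    · have hc : A.card = 2 := by omega
      have h5 := g2_ser_two h hc hB
      have h6 := tau_nonneg A
      have h7 : g3 A = 0 := g3_small hc.le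
      refine ⟨ht ▸ gA.t1, ?_, ?_⟩
      · rw [h5, h3, h7, hc]
        have : ((((2 : ℕ) : ℚ) - 1) * 0 + (B.card : ℚ) * tau A) / (((2 : ℕ) : ℚ) + B.card - 1)
            ≤ tau A := by
          rw [div_le_iff₀ (by push_cast; linarith)]
          push_cast
          nlinarith
        linarith
      · rw [h5, ht]; linarith
    · have h5 := g2_ser h h4
      refine ⟨ht ▸ gA.t1, ?_, ?_⟩
      · rw [h5, h3]
        have : g2 A = (g2 A * ((A.card : ℚ) + B.card - 1)) / ((A.card : ℚ) + B.card - 1) := by
          field_simp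
        rw [this, ← add_div, div_le_iff₀ hn1]
        have q := mul_le_mul_of_nonneg_left gA.q (sub_nonneg.mpr ha)
        have r := mul_le_mul_of_nonneg_left gA.r (by linarith : (0 : ℚ) ≤ B.card)
        nlinarith
      · rw [h5, ht]; exact gA.r

/-- series-parallel finite sets -/
inductive SPF : Finset P → Prop
  | single (x : P) : SPF {x}
  | par (A B : Finset P) : SPF A → SPF B → Inc A B → SPF (A ∪ B)
  | ser (A B : Finset P) : SPF A → SPF B → Below A B → SPF (A ∪ B)

theorem SPF.all {S : Finset P} (h : SPF S) : S.Nonempty ∧ Ker S ∧ Good S := by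
  induction h with
  | single x =>
    exact ⟨⟨x, by simp⟩, ker_small (by simp), good_small (by simp)⟩
  | par A B _ _ h ihA ihB =>
    exact ⟨ihA.1.mono Finset.subset_union_left, ker_par ihA.2.1 ihB.2.1 h,
      good_par h ihA.1 ihB.1 ihA.2.2 ihB.2.2⟩
  | ser A B _ _ h ihA ihB =>
    exact ⟨ihA.1.mono Finset.subset_union_left, ker_ser ihA.2.1 ihB.2.1 h,
      good_ser h ihA.1 ihB.1 ihA.2.2 ihB.2.2⟩

theorem IsSeriesParallel.spf {S : Set P} (h : IsSeriesParallel S) :
    ∃ T : Finset P, (T : Set P) = S ∧ SPF T := by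
  induction h with
  | single x => exact ⟨{x}, by simp, SPF.single x⟩
  | par A B _ _ h ihA ihB =>
    obtain ⟨A', rfl, hA⟩ := ihA
    obtain ⟨B', rfl, hB⟩ := ihB
    exact ⟨A' ∪ B', by simp, SPF.par _ _ hA hB fun a ha b hb => h a ha b hb⟩
  | ser A B _ _ h ihA ihB =>
    obtain ⟨A', rfl, hA⟩ := ihA
    obtain ⟨B', rfl, hB⟩ := ihB
    exact ⟨A' ∪ B', by simp, SPF.ser _ _ hA hB fun a ha b hb => h a ha b hb⟩

theorem IsSeriesParallel.spf_univ [Fintype P] (h : IsSeriesParallel (Set.univ : Set P)) :
    SPF (Finset.univ : Finset P) := by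
  obtain ⟨T, hT, h1⟩ := h.spf
  have : T = Finset.univ := by
    ext x
    have : x ∈ (T : Set P) := by rw [hT]; trivial
    simpa using this
  rwa [this] at h1

section
variable [Fintype P]

theorem iterate_lab {w : List P} (h : w ∈ W (Finset.univ : Finset P)) (k : ℕ) :
    promote^[k] (lab w) = lab (P1^[k] w) ∧ P1^[k] w ∈ W (Finset.univ : Finset P) := by
  induction k with
  | zero => exact ⟨rfl, h⟩
  | succ k ih =>
    rw [Function.iterate_succ_apply', Function.iterate_succ_apply', ih.1]
    exact ⟨promote_lab ih.2, P1_mem ih.2⟩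

theorem sorted_iterate {w : List P} (h : w ∈ W (Finset.univ : Finset P)) (k : ℕ) :
    IsSorted (promote^[k] (lab w)) ↔ SW (P1^[k] w) := by
  rw [(iterate_lab h k).1, isSorted_lab (iterate_lab h k).2]

theorem quasi_QW {w : List P} (h : w ∈ W (Finset.univ : Finset P))
    (hn : 3 ≤ Fintype.card P) (hq : QuasiTangled (lab w)) : QW w := by
  have hq1 : IsSorted (promote^[Fintype.card P - 2] (lab w)) := hq.1
  have hq2 : ¬ IsSorted (promote^[Fintype.card P - 3] (lab w)) := by
    intro hs
    have := hq.2 (show Fintype.card P - 3 ∈ {k : ℕ | IsSorted (promote^[k] (lab w))} from hs)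
    omega
  rw [sorted_iterate h] at hq1 hq2
  exact (quasi_word h (by rwa [Finset.card_univ])).mp
    ⟨by rwa [Finset.card_univ], by rwa [Finset.card_univ]⟩

theorem qw_le (h : IsSeriesParallel (Set.univ : Set P)) (h3 : 3 ≤ Fintype.card P) :
    ((W (Finset.univ : Finset P)).filter QW).card ≤ 2 * (Fintype.card P - 1).factorial := by
  obtain ⟨_, hk, hg⟩ := h.spf_univ.all
  have h4 := card_QW_le hk (by rwa [Finset.card_univ])
  rw [Finset.card_univ] at h4
  have h5 : ((Fintype.card P - 1).factorial : ℚ) *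
      (g2 (Finset.univ : Finset P) + g3 (Finset.univ : Finset P)) ≤
      ((Fintype.card P - 1).factorial : ℚ) * 2 :=
    mul_le_mul_of_nonneg_left hg.q (by positivity)
  have h6 := h4.trans h5
  have h7 : (((W (Finset.univ : Finset P)).filter QW).card : ℚ) ≤
      ((2 * (Fintype.card P - 1).factorial : ℕ) : ℚ) := by
    push_cast; linarith
  exact_mod_cast h7

end

theorem red_qw_le {P : Type} [Fintype P] {o : PartialOrder P} (h : IsReducible o)
    (h3 : 3 ≤ Fintype.card P) :
    ((W (Finset.univ : Finset P)).filter (@QW P o)).card ≤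
      2 * (Fintype.card P - 1).factorial := by
  induction h with
  | sp o h => exact @qw_le P o _ h h3
  | swap o o' B A hs hA hAB _ ih =>
    refine (Finset.card_le_card fun w hw => ?_).trans ih
    rw [Finset.mem_filter] at hw ⊢
    exact ⟨hw.1, QW_swap hs hA hAB hw.1 hw.2⟩

theorem quasi_le {P : Type} [Fintype P] (o : PartialOrder P) (h : IsReducible o)
    (hn : 2 ≤ Fintype.card P) : quasiCount P ≤ 2 * (Fintype.card P - 1).factorial := by
  unfold quasiCount
  rw [card_labelings]
  rcases Nat.lt_or_ge (Fintype.card P) 3 with h3 | h3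
  · refine (Finset.card_filter_le _ _).trans ?_
    rw [card_W, Finset.card_univ]
    have : Fintype.card P = 2 := by omega
    rw [this]
    decide
  · refine le_trans (Finset.card_le_card fun w hw => ?_) (red_qw_le h h3)
    rw [Finset.mem_filter] at hw ⊢
    exact ⟨hw.1, quasi_QW hw.1 h3 hw.2⟩

theorem twoChain_sp (n : ℕ) (hn : 2 ≤ n) :
    @IsSeriesParallel (Fin n) (twoChain n) Set.univ := by
  let _ := twoChain n
  have key : ∀ k : ℕ, 2 ≤ k → k ≤ n →
      @IsSeriesParallel (Fin n) (twoChain n) {i : Fin n | i.val < k} := by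
    intro k hk
    induction k, hk using Nat.le_induction with
    | base =>
      intro _
      have : {i : Fin n | i.val < 2} = {(⟨0, by omega⟩ : Fin n)} ∪ {(⟨1, by omega⟩ : Fin n)} := by
        ext i
        simp only [Set.mem_ofPred_eq, Set.union_singleton, Set.mem_insert_iff,
          Set.mem_singleton_iff, Fin.ext_iff]
        omega
      rw [this]
      refine IsSeriesParallel.par _ _ (IsSeriesParallel.single _) (IsSeriesParallel.single _) ?_
      rintro a ha b hb
      rw [Set.mem_singleton_iff] at ha hb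
      subst ha hb
      constructor
      · rintro (h | h)
        · simp [Fin.ext_iff] at h
        · exact absurd h.2 (by simp)
      · rintro (h | h)
        · simp [Fin.ext_iff] at h
        · exact absurd h.2 (by simp)
    | succ k hk ih =>
      intro hkn
      have : {i : Fin n | i.val < k + 1} = {i : Fin n | i.val < k} ∪ {(⟨k, by omega⟩ : Fin n)} := by
        ext i
        simp only [Set.mem_ofPred_eq, Set.union_singleton, Set.mem_insert_iff, Fin.ext_iff]
        omega
      rw [this]
      refine IsSeriesParallel.ser _ _ (ih (by omega)) (IsSeriesParallel.single _) ?_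
      rintro a ha b hb
      rw [Set.mem_singleton_iff] at hb
      subst hb
      exact ⟨ha, hk⟩
  have h := key n hn le_rfl
  have : {i : Fin n | i.val < n} = Set.univ := by
    ext i; simp
  rwa [this] at h

theorem twoChain_ge (n : ℕ) (hn : 2 ≤ n) :
    2 * (n - 1).factorial ≤ @quasiCount (Fin n) _ (twoChain n) := by
  have h := @quasiCount_ge (Fin n) _ (twoChain n) ⟨0, by omega⟩ ⟨1, by omega⟩ ?_ ?_ ?_ ?_
  · rwa [Fintype.card_fin] at h
  · rintro b (h | h)
    · exact Or.inl h.symm
    · exact absurd h.2 (by show ¬ 2 ≤ 0; omega)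
  · rintro b (h | h)
    · exact Or.inl h.symm
    · exact absurd h.2 (by show ¬ 2 ≤ 1; omega)
  · intro h
    have := congrArg Fin.val h
    simp at this
  · intro z hzx hzy
    have h0 : z.val ≠ 0 := fun h => hzx (Fin.ext h)
    have h1 : z.val ≠ 1 := fun h => hzy (Fin.ext h)
    refine ⟨⟨?_, ?_⟩, ?_, ?_⟩
    · show 0 < z.val; omega
    · omega
    · show 1 < z.val; omega
    · omega

theorem sp_main (P : Type) [Fintype P] [o : PartialOrder P] (hn : 2 ≤ Fintype.card P)
    (h : IsReducible o) : quasiCount P ≤ 2 * (Fintype.card P - 1).factorial :=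
  quasi_le o h hn

/-- the bound is attained by a series-parallel poset -/
theorem sp_attained (n : ℕ) (hn : 2 ≤ n) :
    ∃ o : PartialOrder (Fin n), @IsSeriesParallel (Fin n) o Set.univ ∧
      @quasiCount (Fin n) _ o = 2 * (n - 1).factorial := by
  refine ⟨twoChain n, twoChain_sp n hn, le_antisymm ?_ (twoChain_ge n hn)⟩
  have := @quasi_le (Fin n) _ (twoChain n) (IsReducible.sp _ (twoChain_sp n hn))
    (by rwa [Fintype.card_fin])
  rwa [Fintype.card_fin] at this

end Pool.Agent.Lib.MP_54b7d9_co.SP
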